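import Mathlib

set_option autoImplicit false

open Finset

namespace Pool.Agent.H43

open Classical in
/-- finite chains of finite subsets of `X`, with coefficients in `k`. -/
abbrev Ch (k : Type*) [Field k] (X : Type*) := Finset X →₀ k

section
variable {k : Type*} [Field k]
variable {X Y Z : Type*} [DecidableEq X] [DecidableEq Y] [DecidableEq Z]

variable (k) in
/-- the unit basis chain. -/
noncomputable def bs (A : Finset X) : Ch k X := Finsupp.single A 1

variable (k X) in
/-- boundary. -/
noncomputable def bd : Ch k X →ₗ[k] Ch k X :=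
  Finsupp.linearCombination k (fun A : Finset X => ∑ a ∈ A, bs k (A.erase a))

theorem bd_bs (A : Finset X) : bd k X (bs k A) = ∑ a ∈ A, bs k (A.erase a) := by
  simp [bd, bs]

variable (k) in
/-- cone with apex `x`. -/
noncomputable def cone (x : X) : Ch k X →ₗ[k] Ch k X :=
  Finsupp.linearCombination k (fun A : Finset X => if x ∈ A then 0 else bs k (insert x A))

theorem cone_bs (x : X) (A : Finset X) :
    cone k x (bs k A) = if x ∈ A then 0 else bs k (insert x A) := by
  simp [cone, bs]

variable (k) in
/-- push-forward. -/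
noncomputable def mp (f : X → Y) : Ch k X →ₗ[k] Ch k Y :=
  Finsupp.linearCombination k
    (fun A : Finset X => if (A.image f).card = A.card then bs k (A.image f) else 0)

theorem mp_bs (f : X → Y) (A : Finset X) :
    mp k f (bs k A) = if (A.image f).card = A.card then bs k (A.image f) else 0 := by
  simp [mp, bs]

theorem lin_ext {M : Type*} [AddCommMonoid M] [Module k M] {f g : Ch k X →ₗ[k] M}
    (h : ∀ A : Finset X, f (bs k A) = g (bs k A)) : f = g := by
  apply Finsupp.lhom_ext'
  intro A
  apply LinearMap.ext_ring
  simpa [bs] using h A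

variable [CharP k 2]

theorem dbl (M : Type*) [AddCommGroup M] [Module k M] (m : M) : m + m = 0 := by
  have h2 : (2 : k) = 0 := CharTwo.two_eq_zero
  calc m + m = (2 : k) • m := by rw [two_smul]
    _ = 0 := by rw [h2, zero_smul]

theorem bd_bd (c : Ch k X) : bd k X (bd k X c) = 0 := by
  have : (bd k X) ∘ₗ (bd k X) = 0 := by
    apply lin_ext
    intro A
    simp only [LinearMap.comp_apply, bd_bs, map_sum, LinearMap.zero_apply]
    rw [Finset.sum_sigma']
    refine Finset.sum_involution (fun p _ => ⟨p.2, p.1⟩) ?_ ?_ ?_ ?_
    · rintro ⟨a, b⟩ h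
      simp only
      rw [Finset.erase_right_comm]
      exact dbl (k := k) _ _
    · rintro ⟨a, b⟩ h _ heq
      simp only [Finset.mem_sigma, Finset.mem_erase] at h
      simp only [Sigma.mk.injEq] at heq
      exact h.2.1 heq.1
    · rintro ⟨a, b⟩ h
      simp only [Finset.mem_sigma, Finset.mem_erase] at h ⊢
      exact ⟨h.2.2, fun e => h.2.1 e.symm, h.1⟩
    · rintro ⟨a, b⟩ h
      rfl
  exact LinearMap.congr_fun this c

theorem bd_cone (x : X) (c : Ch k X) :
    bd k X (cone k x c) = c + cone k x (bd k X c) := by
  have : (bd k X) ∘ₗ (cone k x) = LinearMap.id + (cone k x) ∘ₗ (bd k X) := by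
    apply lin_ext
    intro A
    simp only [LinearMap.comp_apply, LinearMap.add_apply, LinearMap.id_apply, cone_bs, bd_bs,
      map_sum]
    by_cases hx : x ∈ A
    · rw [if_pos hx, map_zero]
      rw [← Finset.add_sum_erase _ _ hx]
      have h1 : ∀ a ∈ A.erase x, (if x ∈ A.erase a then (0 : Ch k X)
          else bs k (insert x (A.erase a))) = 0 := by
        intro a ha
        have : x ∈ A.erase a := by
          simp only [Finset.mem_erase] at ha ⊢
          exact ⟨fun e => ha.1 e.symm, hx⟩
        rw [if_pos this]
      rw [Finset.sum_eq_zero h1]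
      simp only [Finset.mem_erase, ne_eq, not_true_eq_false, false_and, if_false, add_zero]
      rw [Finset.insert_erase hx]
      exact (dbl (k := k) _ _).symm
    · rw [if_neg hx, bd_bs, Finset.sum_insert hx, Finset.erase_insert hx]
      congr 1
      apply Finset.sum_congr rfl
      intro a ha
      have hne : x ≠ a := fun e => hx (e ▸ ha)
      have : x ∉ A.erase a := fun h => hx (Finset.mem_of_mem_erase h)
      rw [if_neg this, Finset.erase_insert_of_ne hne]
  exact LinearMap.congr_fun this c

theorem bd_mp (f : X → Y) (c : Ch k X) :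
    bd k Y (mp k f c) = mp k f (bd k X c) := by
  have : (bd k Y) ∘ₗ (mp k f) = (mp k f) ∘ₗ (bd k X) := by
    apply lin_ext
    intro A
    simp only [LinearMap.comp_apply, mp_bs, bd_bs, map_sum]
    by_cases hinj : Set.InjOn f A
    · have hc : (A.image f).card = A.card := Finset.card_image_iff.2 hinj
      rw [if_pos hc, bd_bs, Finset.sum_image (fun a ha b hb h => hinj ha hb h)]
      apply Finset.sum_congr rfl
      intro a ha
      have h1 : Set.InjOn f ((A.erase a : Finset X) : Set X) :=
        hinj.mono (by intro z hz; exact Finset.mem_of_mem_erase hz)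
      rw [if_pos (Finset.card_image_iff.2 h1)]
      congr 1
      ext y
      simp only [Finset.mem_erase, Finset.mem_image]
      constructor
      · rintro ⟨h1, b, hb, rfl⟩
        exact ⟨b, ⟨fun e => h1 (by rw [e]), hb⟩, rfl⟩
      · rintro ⟨b, ⟨h1, hb⟩, rfl⟩
        exact ⟨fun e => h1 (hinj hb ha e), b, hb, rfl⟩
    · have hc : (A.image f).card ≠ A.card := fun h => hinj (Finset.card_image_iff.1 h)
      rw [if_neg hc, map_zero]
      have : ∃ a ∈ A, ∃ b ∈ A, a ≠ b ∧ f a = f b := by
        by_contra hcon
        push Not at hcon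
        apply hinj
        intro a ha b hb hab
        by_contra hne
        exact hcon a ha b hb hne hab
      obtain ⟨a, ha, b, hb, hab, hf⟩ := this
      have hz : ∀ c ∈ A, c ≠ a → c ≠ b →
          (if ((A.erase c).image f).card = (A.erase c).card then bs k ((A.erase c).image f)
            else (0 : Ch k Y)) = 0 := by
        intro c _ hca hcb
        rw [if_neg]
        intro h
        have := Finset.card_image_iff.1 h
        have ha' : a ∈ ((A.erase c : Finset X) : Set X) := by
          simp [ha, hca.symm]
        have hb' : b ∈ ((A.erase c : Finset X) : Set X) := by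
          simp [hb, hcb.symm]
        exact hab (this ha' hb' hf)
      have hb2 : b ∈ A.erase a := by simp [hb, hab.symm]
      rw [← Finset.add_sum_erase _ _ ha, ← Finset.add_sum_erase _ _ hb2]
      rw [Finset.sum_eq_zero (s := (A.erase a).erase b)]
      · rw [add_zero]
        have himg : (A.erase a).image f = (A.erase b).image f := by
          ext y
          simp only [Finset.mem_image, Finset.mem_erase]
          constructor
          · rintro ⟨c, ⟨hca, hc⟩, rfl⟩
            by_cases hcb : c = b
            · exact ⟨a, ⟨hab, ha⟩, by rw [hf, hcb]⟩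
            · exact ⟨c, ⟨hcb, hc⟩, rfl⟩
          · rintro ⟨c, ⟨hcb, hc⟩, rfl⟩
            by_cases hca : c = a
            · exact ⟨b, ⟨hab.symm, hb⟩, by rw [← hf, hca]⟩
            · exact ⟨c, ⟨hca, hc⟩, rfl⟩
        have hcard : (A.erase a).card = (A.erase b).card := by
          rw [Finset.card_erase_of_mem ha, Finset.card_erase_of_mem hb]
        rw [himg, hcard]
        exact (dbl (k := k) _ _).symm
      · intro c hc
        simp only [Finset.mem_erase] at hc
        exact hz c hc.2.2 hc.2.1 hc.1
  exact LinearMap.congr_fun this c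

/-- chains supported on a set of finite subsets. -/
def Supp (P : Finset X → Prop) (c : Ch k X) : Prop := ∀ A, ¬ P A → c A = 0

omit [CharP k 2] in
theorem Supp.add {P : Finset X → Prop} {c d : Ch k X} (hc : Supp P c) (hd : Supp P d) :
    Supp P (c + d) := by
  intro A hA
  simp [hc A hA, hd A hA]

omit [CharP k 2] in
theorem Supp.zero {P : Finset X → Prop} : Supp P (0 : Ch k X) := fun _ _ => rfl

omit [CharP k 2] in
theorem Supp.smul {P : Finset X → Prop} {c : Ch k X} (a : k) (hc : Supp P c) :
    Supp P (a • c) := by
  intro A hA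
  simp [hc A hA]

omit [CharP k 2] in
theorem Supp.sum {P : Finset X → Prop} {ι : Type*} {s : Finset ι} {c : ι → Ch k X}
    (hc : ∀ i ∈ s, Supp P (c i)) : Supp P (∑ i ∈ s, c i) := by
  intro A hA
  rw [Finsupp.finset_sum_apply]
  exact Finset.sum_eq_zero (fun i hi => hc i hi A hA)

omit [CharP k 2] in
theorem Supp.bs {P : Finset X → Prop} {A : Finset X} (hA : P A) : Supp P (bs k A) := by
  intro B hB
  have : A ≠ B := fun h => hB (h ▸ hA)
  simp [H43.bs, Finsupp.single_apply, this]

omit [CharP k 2] in
theorem Supp.mono {P Q : Finset X → Prop} {c : Ch k X} (hc : Supp P c) (h : ∀ A, P A → Q A) :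
    Supp Q c := fun A hA => hc A (fun hP => hA (h A hP))

omit [CharP k 2] [DecidableEq X] in
theorem decomp (c : Ch k X) : c = ∑ A ∈ c.support, c A • bs k A := by
  conv_lhs => rw [← Finsupp.sum_single c]
  simp [Finsupp.sum, H43.bs]

omit [CharP k 2] in
/-- a linear operator applied to a supported chain. -/
theorem Supp.lin {P : Finset X → Prop} {Q : Finset Y → Prop} {c : Ch k X}
    (hc : Supp P c) (T : Ch k X →ₗ[k] Ch k Y)
    (hT : ∀ A, P A → Supp Q (T (H43.bs k A))) : Supp Q (T c) := by
  rw [decomp c, map_sum]
  apply Supp.sum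
  intro A hA
  rw [map_smul]
  apply Supp.smul
  apply hT
  by_contra hP
  exact (Finsupp.mem_support_iff.1 hA) (hc A hP)

omit [CharP k 2] in
/-- two linear operators agreeing on the support. -/
theorem Supp.congr {P : Finset X → Prop} {M : Type*} [AddCommGroup M] [Module k M] {c : Ch k X}
    (hc : Supp P c) (T S : Ch k X →ₗ[k] M)
    (hT : ∀ A, P A → T (H43.bs k A) = S (H43.bs k A)) : T c = S c := by
  rw [decomp c, map_sum, map_sum]
  apply Finset.sum_congr rfl
  intro A hA
  rw [map_smul, map_smul, hT]
  by_contra hP
  exact (Finsupp.mem_support_iff.1 hA) (hc A hP)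

end

end Pool.Agent.H43
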