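import Pool.Agent.Lib_helper43.C2297.Combi

set_option autoImplicit false
set_option linter.unusedSectionVars false

open Finset

namespace Pool.Agent.H43

section
variable {k : Type*} [Field k] [CharP k 2]
variable {n : ℕ} {M M'' : Type*} [AddCommGroup M] [Module k M] [AddCommGroup M''] [Module k M'']

theorem up_map (π : M →ₗ[k] M'') (w : Finset (Fin n) → M) (H : Finset (Fin n)) :
    π (up w H) = up (fun G => π (w G)) H := by
  simp [up, map_sum]

/-- constant finite dimensional coefficients. -/
theorem exF_const [Module.Finite k M] {R : Set (Finset (Fin n))} {m : ℕ} (h : Ex k R m) :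
    ExF R (fun _ => (⊤ : Submodule k M)) m := by
  intro z _ hzR hzm hzc
  let b := Module.finBasis k M
  have hj : ∀ j, ∃ w : Finset (Fin n) → k, (∀ G, G ∉ R → w G = 0) ∧
      (∀ G, G.card ≠ m + 1 → w G = 0) ∧ ∀ H ∈ R, ∑ v ∈ Hᶜ, w (insert v H) = b.repr (z H) j := by
    intro j
    obtain ⟨w, _, h1, h2, h3⟩ := h (fun G => b.repr (z G) j) (fun _ => Submodule.mem_top)
      (by intro G hG; simp [hzR G hG]) (by intro G hG; simp [hzm G hG]) (by
        intro H hH
        have := congrArg (fun x => b.repr x j) (hzc H hH)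
        simpa using this)
    exact ⟨w, h1, h2, h3⟩
  choose w hw1 hw2 hw3 using hj
  refine ⟨fun G => ∑ j, w j G • b j, fun _ => Submodule.mem_top, ?_, ?_, ?_⟩
  · intro G hG
    apply Finset.sum_eq_zero
    intro j _
    rw [hw1 j G hG, zero_smul]
  · intro G hG
    apply Finset.sum_eq_zero
    intro j _
    rw [hw2 j G hG, zero_smul]
  · intro H hH
    rw [Finset.sum_comm]
    simp only [← Finset.sum_smul]
    rw [Finset.sum_congr rfl (fun j _ => by rw [hw3 j H hH])]
    exact b.sum_repr (z H)

/-- change of the coefficient system along one vertex. -/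
theorem exF_ses {R : Set (Finset (Fin n))} (hR : Conv R) (a : Fin n)
    (F F' : Finset (Fin n) → Submodule k M) (Q : Finset (Fin n) → Submodule k M'')
    (π : M →ₗ[k] M'')
    (hF : ∀ G H, G ⊆ H → F H ≤ F G)
    (hle : ∀ G, F' G ≤ F G)
    (h1 : ∀ G ∈ R, a ∈ G → ∀ x ∈ F G, π x ∈ Q G)
    (h2 : ∀ G ∈ R, a ∈ G → ∀ y ∈ Q G, ∃ x ∈ F G, π x = y)
    (h3 : ∀ G ∈ R, a ∈ G → ∀ x ∈ F G, (π x = 0 ↔ x ∈ F' G))
    (h4 : ∀ G ∈ R, a ∉ G → F G ≤ F' G)
    (m : ℕ) (e1 : ExF R F m) (e2 : ExF {G | G ∈ R ∧ a ∈ G} Q (m + 1)) : ExF R F' m := by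
  classical
  rw [exF_iff] at *
  intro z hzF hzR hzm hzc
  obtain ⟨w, hwF, hwR, hwm, hw⟩ := e1 z (fun G => hle G (hzF G)) hzR hzm hzc
  obtain ⟨u, huQ, huR, hum, hu⟩ := e2 (fun G => if G ∈ R ∧ a ∈ G then π (w G) else 0)
    (by
      intro G
      split_ifs with h
      · exact h1 G h.1 h.2 _ (hwF G)
      · exact Submodule.zero_mem _)
    (by
      intro G hG
      exact if_neg hG)
    (by
      intro G hG
      split_ifs with h
      · rw [hwm G hG, map_zero]
      · rfl)
    (by
      rintro H ⟨hHR, haH⟩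
      have h5 : π (z H) = 0 := (h3 H hHR haH _ (hle H (hzF H))).2 (hzF H)
      rw [← hw H hHR, up_map] at h5
      refine Eq.trans ?_ h5
      apply up_congr
      intro v _
      by_cases h : insert v H ∈ R
      · rw [if_pos ⟨h, Finset.mem_insert_of_mem haH⟩]
      · rw [if_neg (fun h' => h h'.1), hwR _ h, map_zero])
  have hlift : ∀ G, ∃ x ∈ F G, π x = u G ∧ (u G = 0 → x = 0) := by
    intro G
    by_cases h : u G = 0
    · exact ⟨0, Submodule.zero_mem _, by rw [h, map_zero], fun _ => rfl⟩
    · have hG : G ∈ R ∧ a ∈ G := by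
        by_contra hcon
        exact h (huR G hcon)
      obtain ⟨x, hx, hxu⟩ := h2 G hG.1 hG.2 (u G) (huQ G)
      exact ⟨x, hx, hxu, fun h' => absurd h' h⟩
  choose t htF htπ ht0 using hlift
  have htR : ∀ G, G ∉ R → t G = 0 := fun G hG => ht0 G (huR G (fun h => hG h.1))
  have hupF : ∀ G, up t G ∈ F G := fun G => Submodule.sum_mem _ (fun v _ =>
    hF _ _ (Finset.subset_insert v G) (htF _))
  refine ⟨fun G => w G - res R (up t) G, ?_, ?_, ?_, ?_⟩
  · intro G
    by_cases hG : G ∈ R
    · have hx : w G - res R (up t) G ∈ F G := by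
        rw [res_of_mem hG]
        exact Submodule.sub_mem _ (hwF G) (hupF G)
      by_cases ha : a ∈ G
      · simp only
        rw [← h3 G hG ha _ hx, res_of_mem hG, map_sub, up_map]
        simp only [htπ]
        rw [hu G ⟨hG, ha⟩, if_pos ⟨hG, ha⟩, sub_self]
      · exact h4 G hG ha hx
    · simp only
      rw [hwR G hG, res_of_notMem hG, sub_zero]
      exact Submodule.zero_mem _
  · intro G hG
    simp only
    rw [hwR G hG, res_of_notMem hG, sub_zero]
  · intro G hG
    simp only
    rw [hwm G hG, zero_sub, neg_eq_zero]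
    by_cases h : G ∈ R
    · rw [res_of_mem h]
      apply up_zero
      intro v hv
      apply ht0
      apply hum
      rw [Finset.card_insert_of_notMem hv]
      omega
    · rw [res_of_notMem h]
  · intro H hH
    rw [up_sub, hw H hH, up_res_up k hR t htR hH, sub_zero]

end

section
variable {k : Type*} [Field k] [CharP k 2]
variable {n d : ℕ}

/-- common kernel of the forms indexed by `P`. -/
def VP (θ : Fin n → ((Fin d → k) →ₗ[k] k)) (P : Finset (Fin n)) : Submodule k (Fin d → k) where
  carrier := {w | ∀ v ∈ P, θ v w = 0}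
  add_mem' := by
    intro a b ha hb v hv
    rw [map_add, ha v hv, hb v hv, add_zero]
  zero_mem' := by
    intro v _
    rw [map_zero]
  smul_mem' := by
    intro c a ha v hv
    rw [map_smul, ha v hv, smul_zero]

/-- alternating forms on the common kernel. -/
abbrev Alt (θ : Fin n → ((Fin d → k) →ₗ[k] k)) (i : ℕ) (P : Finset (Fin n)) : Type _ :=
  (VP θ P) [⋀^Fin i]→ₗ[k] k

/-- forms vanishing on the hyperplanes of `A`. -/
def XX (θ : Fin n → ((Fin d → k) →ₗ[k] k)) (i : ℕ) (P A : Finset (Fin n)) :
    Submodule k (Alt θ i P) where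
  carrier := {α | ∀ v ∈ A, ∀ w : Fin i → VP θ P, (∀ j, θ v (w j) = 0) → α w = 0}
  add_mem' := by
    intro a b ha hb v hv w hw
    rw [AlternatingMap.add_apply, ha v hv w hw, hb v hv w hw, add_zero]
  zero_mem' := by
    intro v _ w _
    rfl
  smul_mem' := by
    intro c a ha v hv w hw
    rw [AlternatingMap.smul_apply, ha v hv w hw, smul_zero]

theorem mem_XX {θ : Fin n → ((Fin d → k) →ₗ[k] k)} {i : ℕ} {P A : Finset (Fin n)}
    {α : Alt θ i P} : α ∈ XX θ i P A ↔
      ∀ v ∈ A, ∀ w : Fin i → VP θ P, (∀ j, θ v (w j) = 0) → α w = 0 := Iff.rfl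

theorem mem_VP {θ : Fin n → ((Fin d → k) →ₗ[k] k)} {P : Finset (Fin n)} {w : Fin d → k} :
    w ∈ VP θ P ↔ ∀ v ∈ P, θ v w = 0 := Iff.rfl

theorem VP_mono {θ : Fin n → ((Fin d → k) →ₗ[k] k)} {P P' : Finset (Fin n)} (h : P ⊆ P') :
    VP θ P' ≤ VP θ P := fun _ hw v hv => hw v (h hv)

theorem XX_anti {θ : Fin n → ((Fin d → k) →ₗ[k] k)} {i : ℕ} {P A A' : Finset (Fin n)}
    (h : A ⊆ A') : XX θ i P A' ≤ XX θ i P A := fun _ hα v hv => hα v (h hv)

theorem XX_empty {θ : Fin n → ((Fin d → k) →ₗ[k] k)} {i : ℕ} {P : Finset (Fin n)} :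
    XX θ i P ∅ = ⊤ := by
  rw [eq_top_iff]
  intro α _ v hv
  simp at hv

instance (θ : Fin n → ((Fin d → k) →ₗ[k] k)) (i : ℕ) (P : Finset (Fin n)) :
    Module.Finite k (Alt θ i P) :=
  Module.Finite.equiv (exteriorPower.alternatingMapLinearEquiv (R := k) (M := VP θ P)
    (N := k) (n := i)).symm

/-- restriction of forms. -/
def rstr (θ : Fin n → ((Fin d → k) →ₗ[k] k)) (i : ℕ) {P P' : Finset (Fin n)} (h : P ⊆ P') :
    Alt θ i P →ₗ[k] Alt θ i P' where
  toFun α := α.compLinearMap (Submodule.inclusion (VP_mono h))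
  map_add' := by intro a b; rfl
  map_smul' := by intro c a; rfl

/-- independence of the forms on a face, in terms of dual vectors. -/
def Ind (θ : Fin n → ((Fin d → k) →ₗ[k] k)) (G : Finset (Fin n)) : Prop :=
  ∀ a ∈ G, ∃ u : Fin d → k, θ a u = 1 ∧ ∀ v ∈ G, v ≠ a → θ v u = 0

theorem Ind.mono {θ : Fin n → ((Fin d → k) →ₗ[k] k)} {G H : Finset (Fin n)} (h : Ind θ G)
    (hHG : H ⊆ G) : Ind θ H := by
  intro a ha
  obtain ⟨u, hu1, hu2⟩ := h a (hHG ha)
  exact ⟨u, hu1, fun v hv => hu2 v (hHG hv)⟩

/-- surjectivity of restriction. -/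
theorem rstr_surj {θ : Fin n → ((Fin d → k) →ₗ[k] k)} {i : ℕ} {P A : Finset (Fin n)}
    {a : Fin n} (haA : a ∉ A)
    (hind : ∃ u : Fin d → k, θ a u = 1 ∧ (∀ v ∈ P, θ v u = 0) ∧ ∀ v ∈ A, θ v u = 0)
    (y : Alt θ i (insert a P)) (hy : y ∈ XX θ i (insert a P) A) :
    ∃ x ∈ XX θ i P A, rstr θ i (Finset.subset_insert a P) x = y := by
  obtain ⟨u, hu1, huP, huA⟩ := hind
  let pr : VP θ P →ₗ[k] VP θ (insert a P) :=
    { toFun := fun w => ⟨(w : Fin d → k) - θ a w • u, by
        intro v hv
        rw [map_sub, map_smul, smul_eq_mul]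
        rcases Finset.mem_insert.1 hv with rfl | hv
        · rw [hu1, mul_one, sub_self]
        · rw [huP v hv, mul_zero, sub_zero]
          exact w.2 v hv⟩
      map_add' := by
        intro w w'
        ext j
        simp only [Submodule.coe_add, map_add, Pi.sub_apply, Pi.add_apply, Pi.smul_apply,
          smul_eq_mul]
        ring
      map_smul' := by
        intro c w
        ext j
        simp only [Submodule.coe_smul, map_smul, Pi.sub_apply, Pi.smul_apply, smul_eq_mul,
          RingHom.id_apply]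
        ring }
  refine ⟨y.compLinearMap pr, ?_, ?_⟩
  · intro v hv w hw
    rw [AlternatingMap.compLinearMap_apply]
    apply hy v hv
    intro j
    show θ v ((w j : Fin d → k) - θ a (w j) • u) = 0
    rw [map_sub, map_smul, huA v hv, smul_zero, sub_zero]
    exact hw j
  · ext w
    show y (fun j => pr (Submodule.inclusion (VP_mono (Finset.subset_insert a P)) (w j))) = y w
    congr 1
    ext j l
    show ((w j : Fin d → k) - θ a (w j) • u) l = (w j : Fin d → k) l
    rw [(w j).2 a (Finset.mem_insert_self a P), zero_smul, sub_zero]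

/-- restriction maps into. -/
theorem rstr_mem {θ : Fin n → ((Fin d → k) →ₗ[k] k)} {i : ℕ} {P A : Finset (Fin n)}
    {a : Fin n} {x : Alt θ i P} (hx : x ∈ XX θ i P A) :
    rstr θ i (Finset.subset_insert a P) x ∈ XX θ i (insert a P) A := by
  intro v hv w hw
  show x (fun j => Submodule.inclusion (VP_mono (Finset.subset_insert a P)) (w j)) = 0
  exact hx v hv _ hw

/-- kernel of restriction. -/
theorem rstr_ker {θ : Fin n → ((Fin d → k) →ₗ[k] k)} {i : ℕ} {P A : Finset (Fin n)}
    {a : Fin n} {x : Alt θ i P} (hx : x ∈ XX θ i P A) :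
    rstr θ i (Finset.subset_insert a P) x = 0 ↔ x ∈ XX θ i P (insert a A) := by
  constructor
  · intro h v hv w hw
    rcases Finset.mem_insert.1 hv with rfl | hv
    · have hw' : ∀ j, (w j : Fin d → k) ∈ VP θ (insert v P) := by
        intro j u hu
        rcases Finset.mem_insert.1 hu with rfl | hu
        · exact hw j
        · exact (w j).2 u hu
      have h2 := DFunLike.congr_fun h (fun j => (⟨w j, hw' j⟩ : VP θ (insert v P)))
      exact h2
    · exact hx v hv w hw
  · intro h
    ext w
    show x (fun j => Submodule.inclusion (VP_mono (Finset.subset_insert a P)) (w j)) = 0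
    apply h a (Finset.mem_insert_self _ _)
    intro j
    exact (w j).2 a (Finset.mem_insert_self _ _)

theorem finrank_VP {θ : Fin n → ((Fin d → k) →ₗ[k] k)} {P : Finset (Fin n)} (hP : Ind θ P) :
    Module.finrank k (VP θ P) + P.card = d := by
  classical
  let f : (Fin d → k) →ₗ[k] (P → k) := LinearMap.pi (fun v => θ v)
  have hker : LinearMap.ker f = VP θ P := by
    ext w
    rw [LinearMap.mem_ker, mem_VP]
    constructor
    · intro h v hv
      exact congrFun h ⟨v, hv⟩
    · intro h
      funext v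
      exact h v v.2
  have hsurj : Function.Surjective f := by
    intro g
    have hex : ∀ a : P, ∃ u : Fin d → k, θ a u = 1 ∧ ∀ v ∈ P, v ≠ a → θ v u = 0 :=
      fun a => hP a a.2
    choose u hu1 hu2 using hex
    refine ⟨∑ a : P, g a • u a, ?_⟩
    funext v
    show θ v (∑ a : P, g a • u a) = g v
    rw [map_sum, Finset.sum_eq_single v]
    · rw [map_smul, hu1, smul_eq_mul, mul_one]
    · intro b _ hb
      rw [map_smul, hu2 b v v.2 (fun h => hb (Subtype.ext h.symm)), smul_zero]
    · intro h; exact absurd (Finset.mem_univ _) h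
  have h1 := LinearMap.finrank_range_add_finrank_ker f
  rw [LinearMap.range_eq_top.2 hsurj, finrank_top, hker, Module.finrank_fintype_fun_eq_card,
    Module.finrank_fintype_fun_eq_card, Fintype.card_coe, Fintype.card_fin] at h1
  omega

theorem finrank_Alt {θ : Fin n → ((Fin d → k) →ₗ[k] k)} {i : ℕ} {P : Finset (Fin n)}
    (hP : Ind θ P) : Module.finrank k (Alt θ i P) = Nat.choose (d - P.card) i := by
  have h1 := (exteriorPower.alternatingMapLinearEquiv (R := k) (M := VP θ P)
    (N := k) (n := i)).finrank_eq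
  rw [h1]
  have h2 : Module.finrank k ((⋀[k]^i (VP θ P)) →ₗ[k] k) =
      Module.finrank k (⋀[k]^i (VP θ P)) := Subspace.dual_finrank_eq
  rw [h2, exteriorPower.finrank_eq]
  have := finrank_VP hP
  congr 1
  omega

/-- dimension of the coefficient spaces. -/
theorem finrank_XX {θ : Fin n → ((Fin d → k) →ₗ[k] k)} {i : ℕ} :
    ∀ (A P : Finset (Fin n)), Disjoint P A → Ind θ (P ∪ A) → A.card ≤ i →
    Module.finrank k (XX θ i P A) = Nat.choose (d - P.card - A.card) (i - A.card) := by
  classical
  intro A
  induction A using Finset.induction_on with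
  | empty =>
    intro P _ hind _
    rw [XX_empty, finrank_top, finrank_Alt (hind.mono Finset.subset_union_left)]
    simp
  | insert a A ha ih =>
    intro P hdisj hind hcard
    rw [Finset.card_insert_of_notMem ha] at hcard
    have haP : a ∉ P := fun h => Finset.disjoint_left.1 hdisj h (Finset.mem_insert_self _ _)
    have hPA : Disjoint P A := hdisj.mono_right (Finset.subset_insert _ _)
    have h1 := ih P hPA (hind.mono (Finset.union_subset_union_right (Finset.subset_insert _ _)))
      (by omega)
    have h2 := ih (insert a P) (by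
      rw [Finset.disjoint_insert_left]; exact ⟨ha, hPA⟩) (hind.mono (by
      intro x hx
      simp only [Finset.mem_union, Finset.mem_insert] at hx ⊢
      tauto)) (by omega)
    -- the restriction map on XX
    let g : XX θ i P A →ₗ[k] XX θ i (insert a P) A :=
      ((rstr θ i (Finset.subset_insert a P)).comp (XX θ i P A).subtype).codRestrict _
        (fun x => rstr_mem x.2)
    have hgs : Function.Surjective g := by
      intro y
      have hex : ∃ u : Fin d → k, θ a u = 1 ∧ (∀ v ∈ P, θ v u = 0) ∧ ∀ v ∈ A, θ v u = 0 := by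
        obtain ⟨u, hu1, hu2⟩ := hind a (by simp)
        refine ⟨u, hu1, ?_, ?_⟩
        · intro v hv
          apply hu2 v (by simp [hv])
          rintro rfl
          exact haP hv
        · intro v hv
          apply hu2 v (by simp [hv])
          rintro rfl
          exact ha hv
      obtain ⟨x, hx, hxy⟩ := rstr_surj ha hex y.1 y.2
      exact ⟨⟨x, hx⟩, Subtype.ext hxy⟩
    have hgk : Module.finrank k (LinearMap.ker g) = Module.finrank k (XX θ i P (insert a A)) := by
      have hle : XX θ i P (insert a A) ≤ XX θ i P A := XX_anti (Finset.subset_insert _ _)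
      have hker : LinearMap.ker g = (XX θ i P (insert a A)).comap (XX θ i P A).subtype := by
        ext x
        rw [LinearMap.mem_ker, Submodule.mem_comap]
        have := rstr_ker (a := a) x.2
        rw [Submodule.subtype_apply, ← this]
        constructor
        · intro h
          exact congrArg Subtype.val h
        · intro h
          exact Subtype.ext h
      rw [hker]
      exact (Submodule.comapSubtypeEquivOfLe hle).finrank_eq
    have h3 := LinearMap.finrank_range_add_finrank_ker (K := k) (V := XX θ i P A)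
      (V₂ := XX θ i (insert a P) A) g
    rw [LinearMap.range_eq_top.2 hgs, finrank_top, hgk, h1, h2,
      Finset.card_insert_of_notMem haP] at h3
    rw [Finset.card_insert_of_notMem ha]
    have hcd : P.card + A.card + 1 ≤ d := by
      have h4 := finrank_VP hind
      rw [Finset.card_union_of_disjoint hdisj, Finset.card_insert_of_notMem ha] at h4
      omega
    obtain ⟨r, hr⟩ : ∃ r, d = P.card + A.card + 1 + r := ⟨d - (P.card + A.card + 1), by omega⟩
    obtain ⟨s, hs⟩ : ∃ s, i = A.card + 1 + s := ⟨i - (A.card + 1), by omega⟩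
    have e1 : d - (P.card + 1) - A.card = r := by omega
    have e2 : i - A.card = s + 1 := by omega
    have e3 : d - P.card - A.card = r + 1 := by omega
    have e4 : d - P.card - (A.card + 1) = r := by omega
    have e5 : i - (A.card + 1) = s := by omega
    rw [e1, e2, e3, Nat.choose_succ_succ'] at h3
    rw [e4, e5]
    omega

end

end Pool.Agent.H43
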