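import Pool.Agent.Lib_helper43.C2297.Extract

set_option autoImplicit false
set_option linter.unusedSectionVars false

open Finset

namespace Pool.Agent.H43

section
variable {k : Type*} [Field k] [CharP k 2]
variable {n d : ℕ} {Γ : Set (Finset (Fin n))} {σ : Finset (Fin n) → Finset (Fin d)}

open Classical in
/-- unique extension in an acyclic family of height one. -/
theorem one_of_ex {R : Set (Finset (Fin n))} {H : Finset (Fin n)} (hH : H ∈ R)
    (hmin : ∀ H' ∈ R, H ⊆ H') (hmax : ∀ H' ∈ R, H'.card ≤ H.card + 1)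
    (h1 : Ex k R H.card) (h2 : Ex k R (H.card + 1)) :
    ∃ v, v ∉ H ∧ insert v H ∈ R ∧ ∀ u, u ∉ H → insert u H ∈ R → u = v := by
  obtain ⟨w, _, hwR, _, hw⟩ := h1 (fun G => if G = H then 1 else 0)
    (fun _ => Submodule.mem_top) (by
      intro G hG
      refine if_neg (fun h => hG ?_)
      rw [h]
      exact hH)
    (by
      intro G hG
      exact if_neg (fun h => hG (by rw [h])))
    (by
      intro H' hH'
      apply Finset.sum_eq_zero
      intro v hv
      rw [if_neg]
      intro h
      rw [Finset.mem_compl] at hv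
      apply hv
      apply hmin H' hH'
      rw [← h]
      exact Finset.mem_insert_self v H')
  have h3 := hw H hH
  simp only [if_true] at h3
  obtain ⟨v, hv, hv0⟩ : ∃ v ∈ Hᶜ, w (insert v H) ≠ 0 := by
    by_contra hcon
    push Not at hcon
    rw [Finset.sum_eq_zero hcon] at h3
    exact zero_ne_one h3
  rw [Finset.mem_compl] at hv
  have hvR : insert v H ∈ R := by
    by_contra h
    exact hv0 (hwR _ h)
  refine ⟨v, hv, hvR, ?_⟩
  intro u hu huR
  by_contra huv
  obtain ⟨w', _, hwR', _, hw'⟩ := h2 (fun G => if G = insert v H ∨ G = insert u H then 1 else 0)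
    (fun _ => Submodule.mem_top) (by
      intro G hG
      apply if_neg
      rintro (h | h)
      · exact hG (h ▸ hvR)
      · exact hG (h ▸ huR))
    (by
      intro G hG
      apply if_neg
      rintro (h | h)
      · exact hG (by rw [h, Finset.card_insert_of_notMem hv])
      · exact hG (by rw [h, Finset.card_insert_of_notMem hu]))
    (by
      intro H' hH'
      by_cases hHH : H' = H
      · subst hHH
        have hvc : v ∈ H'ᶜ := Finset.mem_compl.2 hv
        have huc : u ∈ H'ᶜ.erase v := Finset.mem_erase.2 ⟨huv, Finset.mem_compl.2 hu⟩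
        rw [← Finset.add_sum_erase _ _ hvc, ← Finset.add_sum_erase _ _ huc,
          Finset.sum_eq_zero]
        · simp only [true_or, or_true, if_true, add_zero]
          exact dbl (k := k) k (1 : k)
        · intro x hx
          simp only [Finset.mem_erase, Finset.mem_compl] at hx
          apply if_neg
          rintro (h | h)
          · have : x ∈ insert v H' := by rw [← h]; simp
            rcases Finset.mem_insert.1 this with h' | h'
            · exact hx.2.1 h'
            · exact hx.2.2 h'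
          · have : x ∈ insert u H' := by rw [← h]; simp
            rcases Finset.mem_insert.1 this with h' | h'
            · exact hx.1 h'
            · exact hx.2.2 h'
      · apply Finset.sum_eq_zero
        intro x hx
        rw [Finset.mem_compl] at hx
        have hlt : H.card < H'.card :=
          Finset.card_lt_card (Finset.ssubset_iff_subset_ne.2 ⟨hmin H' hH', fun e => hHH e.symm⟩)
        have hc := Finset.card_insert_of_notMem hx
        apply if_neg
        rintro (h | h)
        · rw [h, Finset.card_insert_of_notMem hv] at hc; omega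
        · rw [h, Finset.card_insert_of_notMem hu] at hc; omega)
  have h4 := hw' (insert v H) hvR
  simp only [true_or, if_true] at h4
  rw [Finset.sum_eq_zero] at h4
  · exact zero_ne_one h4
  · intro x hx
    rw [Finset.mem_compl] at hx
    apply hwR'
    intro h
    have h5 := hmax _ h
    rw [Finset.card_insert_of_notMem hx, Finset.card_insert_of_notMem hv] at h5
    omega

open Classical in
theorem not_ex_singleton (F : Finset (Fin n)) : ¬ Ex k {F} F.card := by
  intro h
  obtain ⟨w, _, hwR, _, hw⟩ := h (fun G => if G = F then 1 else 0)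
    (fun _ => Submodule.mem_top) (by
      intro G hG
      exact if_neg hG) (by
      intro G hG
      exact if_neg (fun h => hG (by rw [h]))) (by
      intro H' hH'
      rw [Set.mem_singleton_iff] at hH'
      subst hH'
      apply Finset.sum_eq_zero
      intro v hv
      rw [Finset.mem_compl] at hv
      rw [if_neg]
      intro h
      apply hv
      rw [← h]
      simp)
  have h3 := hw F rfl
  simp only [if_true] at h3
  rw [Finset.sum_eq_zero] at h3
  · exact zero_ne_one h3
  · intro v hv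
    rw [Finset.mem_compl] at hv
    apply hwR
    intro h
    apply hv
    rw [Set.mem_singleton_iff] at h
    rw [← h]
    simp

theorem ex_of_zero {R : Set (Finset (Fin n))} {m : ℕ} (h : ∀ G ∈ R, G.card ≠ m) :
    Ex k R m := by
  intro z _ hzR hzm _
  refine ⟨fun _ => 0, fun _ => Submodule.zero_mem _, fun _ _ => rfl, fun _ _ => rfl, ?_⟩
  intro H hH
  rw [hzm H (h H hH)]
  simp

theorem card_ins {v : Fin n} {H : Finset (Fin n)} (h : v ∉ H) :
    (insert v H).card = H.card + 1 := Finset.card_insert_of_notMem h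

variable (hS : Sph k Γ σ)

include hS

open Classical in
/-- an interior ridge is in an even number of facets. -/
theorem ridge_int {W : Finset (Fin d)} (hW : W.Nonempty) {H : Finset (Fin n)}
    (hσ : σ H = W) (hmax : ∀ H' ∈ Γ, σ H' ⊆ W → H ⊆ H' → H'.card ≤ H.card + 1)
    (hex : ∃ v, v ∉ H ∧ insert v H ∈ Γ ∧ σ (insert v H) ⊆ W) :
    ∑ v ∈ Hᶜ, (if insert v H ∈ Γ ∧ σ (insert v H) ⊆ W then (1 : k) else 0) = 0 := by
  obtain ⟨vF, hvF, hFΓ, hFW⟩ := hex
  set F := insert vF H with hFdef
  have hHF : H ⊆ F := Finset.subset_insert _ _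
  have hHΓ : H ∈ Γ := hS.down F hFΓ H hHF
  have hC := hS.exC W hW H F hFΓ hFW hHF hσ
  have hHR : H ∈ {H' | H' ∈ Γ ∧ σ H' ⊆ W ∧ ¬ F ⊆ H' ∧ H ⊆ H'} := by
    refine ⟨hHΓ, hσ.le, ?_, subset_rfl⟩
    intro h
    exact hvF (h (Finset.mem_insert_self _ _))
  obtain ⟨v0, hv0, hv0R, huniq⟩ := one_of_ex hHR (fun H' h => h.2.2.2)
    (fun H' h => hmax H' h.1 h.2.1 h.2.2.2) (hC _) (hC _)
  have hne : v0 ≠ vF := by
    rintro rfl
    exact hv0R.2.2.1 subset_rfl
  have hvc : vF ∈ Hᶜ := Finset.mem_compl.2 hvF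
  have huc : v0 ∈ Hᶜ.erase vF := Finset.mem_erase.2 ⟨hne, Finset.mem_compl.2 hv0⟩
  rw [← Finset.add_sum_erase _ _ hvc, ← Finset.add_sum_erase _ _ huc, Finset.sum_eq_zero]
  · rw [if_pos ⟨hFΓ, hFW⟩, if_pos ⟨hv0R.1, hv0R.2.1⟩, add_zero]
    exact dbl (k := k) k (1 : k)
  · intro x hx
    simp only [Finset.mem_erase, Finset.mem_compl] at hx
    apply if_neg
    rintro ⟨h1, h2⟩
    apply hx.1
    apply huniq x hx.2.2
    refine ⟨h1, h2, ?_, Finset.subset_insert _ _⟩
    intro h
    have : vF ∈ insert x H := h (Finset.mem_insert_self _ _)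
    rcases Finset.mem_insert.1 this with h' | h'
    · exact hx.2.1 h'.symm
    · exact hvF h'

/-- (F1) dimension bound. -/
theorem card_le_of : ∀ (W : Finset (Fin d)) (G : Finset (Fin n)), G ∈ Γ → σ G ⊆ W →
    G.card ≤ W.card := by
  classical
  intro W
  induction W using Finset.strongInduction with
  | _ W ih =>
    intro G hG hGW
    rcases W.eq_empty_or_nonempty with rfl | hW
    · have := hS.nz G hG (Finset.subset_empty.1 hGW)
      rw [this]
      simp
    · by_contra hcon
      push Not at hcon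
      obtain ⟨G0, hG0, hmax⟩ := Finset.exists_max_image
        (Finset.univ.filter (fun F : Finset (Fin n) => F ∈ Γ ∧ σ F ⊆ W)) Finset.card
        ⟨G, by simp [hG, hGW]⟩
      simp only [Finset.mem_filter, Finset.mem_univ, true_and] at hG0 hmax
      have hm : W.card < G0.card := lt_of_lt_of_le hcon (hmax G ⟨hG, hGW⟩)
      have hA := hS.exAB W hW ∅ hS.emp (by rw [hS.s0]; simp)
        (by rw [hS.s0]; exact hW.ne_empty.symm) G0.card
      obtain ⟨w, _, hwR, hwm, hw⟩ := hA
        (fun F => if (F ∈ Γ ∧ σ F ⊆ W) ∧ F.card = G0.card then 1 else 0)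
        (fun _ => Submodule.mem_top) (by
          intro F hF
          apply if_neg
          rintro ⟨⟨h1, h2⟩, _⟩
          exact hF ⟨h1, h2, by simp⟩) (by
          intro F hF
          exact if_neg (fun h => hF h.2)) (by
          rintro H ⟨hHΓ, hHW, _⟩
          by_cases hHc : H.card + 1 = G0.card
          · have hσH : σ H = W := by
              by_contra hne
              have hss : σ H ⊂ W := Finset.ssubset_iff_subset_ne.2 ⟨hHW, hne⟩
              have h1 := ih (σ H) hss H hHΓ subset_rfl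
              have h2 := Finset.card_lt_card hss
              omega
            have hrw : ∀ v ∈ Hᶜ, (if (insert v H ∈ Γ ∧ σ (insert v H) ⊆ W) ∧
                (insert v H).card = G0.card then (1 : k) else 0) =
                (if insert v H ∈ Γ ∧ σ (insert v H) ⊆ W then (1 : k) else 0) := by
              intro v hv
              rw [Finset.mem_compl] at hv
              simp only [card_ins hv, hHc, and_true]
            rw [Finset.sum_congr rfl hrw]
            by_cases hex : ∃ v, v ∉ H ∧ insert v H ∈ Γ ∧ σ (insert v H) ⊆ W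
            · apply ridge_int hS hW hσH _ hex
              intro H' h1 h2 _
              have := hmax H' ⟨h1, h2⟩
              omega
            · apply Finset.sum_eq_zero
              intro v hv
              rw [Finset.mem_compl] at hv
              exact if_neg (fun h => hex ⟨v, hv, h⟩)
          · apply Finset.sum_eq_zero
            intro v hv
            rw [Finset.mem_compl] at hv
            apply if_neg
            rintro ⟨_, h⟩
            rw [card_ins hv] at h
            exact hHc h)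
      have h3 := hw G0 ⟨hG0.1, hG0.2, by simp⟩
      rw [if_pos ⟨hG0, rfl⟩, Finset.sum_eq_zero] at h3
      · exact zero_ne_one h3
      · intro v hv
        rw [Finset.mem_compl] at hv
        apply hwR
        rintro ⟨h1, h2, _⟩
        have := hmax _ ⟨h1, h2⟩
        rw [card_ins hv] at this
        omega

omit hS in
/-- faces with carrier between `U` and `W` containing `G`. -/
def CC (Γ : Set (Finset (Fin n))) (σ : Finset (Fin n) → Finset (Fin d)) (G : Finset (Fin n))
    (W U : Finset (Fin d)) : Set (Finset (Fin n)) :=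
  {H | H ∈ Γ ∧ σ H ⊆ W ∧ G ⊆ H ∧ U ⊆ σ H}

theorem conv_CC (G : Finset (Fin n)) (W U : Finset (Fin d)) : Conv (CC Γ σ G W U) := by
  intro A hA C hC B hAB hBC
  have hB : B ∈ Γ := hS.down C hC.1 B hBC
  exact ⟨hB, (hS.mono C hC.1 B hBC).trans hC.2.1, hA.2.2.1.trans hAB,
    hA.2.2.2.trans (hS.mono B hB A hAB)⟩

theorem cc_ind (G : Finset (Fin n))
    (hbase : ∀ W : Finset (Fin d), ∀ m, m < W.card → Ex k (CC Γ σ G W ∅) m) :
    ∀ (U W : Finset (Fin d)), U ⊆ W → ∀ m, m < W.card → Ex k (CC Γ σ G W U) m := by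
  classical
  intro U
  induction U using Finset.induction_on with
  | empty => intro W _ m hm; exact hbase W m hm
  | insert u U hu ih =>
    intro W hUW m hm
    have huW : u ∈ W := hUW (Finset.mem_insert_self _ _)
    have hUW' : U ⊆ W := (Finset.subset_insert _ _).trans hUW
    have hUWe : U ⊆ W.erase u := by
      intro x hx
      rw [Finset.mem_erase]
      exact ⟨fun e => hu (e ▸ hx), hUW' hx⟩
    have hset : CC Γ σ G W (insert u U) = CC Γ σ G W U \ CC Γ σ G (W.erase u) U := by
      ext H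
      constructor
      · rintro ⟨h1, h2, h3, h4⟩
        refine ⟨⟨h1, h2, h3, (Finset.subset_insert _ _).trans h4⟩, ?_⟩
        rintro ⟨_, h5, _, _⟩
        have := h5 (h4 (Finset.mem_insert_self _ _))
        simp at this
      · rintro ⟨⟨h1, h2, h3, h4⟩, h5⟩
        refine ⟨h1, h2, h3, Finset.insert_subset ?_ h4⟩
        by_contra hcon
        apply h5
        refine ⟨h1, ?_, h3, h4⟩
        intro x hx
        rw [Finset.mem_erase]
        exact ⟨fun e => hcon (e ▸ hx), h2 hx⟩
    rw [hset]
    apply exF_quot (fun _ _ _ => le_rfl) (conv_CC hS G W U)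
    · rintro H ⟨h1, h2, h3, h4⟩
      exact ⟨h1, h2.trans (Finset.erase_subset _ _), h3, h4⟩
    · rintro H ⟨h1, h2, h3, h4⟩ H' ⟨h1', h2', h3', h4'⟩ hH'
      exact ⟨h1', (hS.mono H h1 H' hH').trans h2, h3', h4'⟩
    · exact ih W hUW' m hm
    · intro m' hm'
      apply ih (W.erase u) hUWe m'
      rw [Finset.card_erase_of_mem huW]
      omega

omit hS in
/-- maximal faces over `W`. -/
def Mx (Γ : Set (Finset (Fin n))) (σ : Finset (Fin n) → Finset (Fin d)) (W : Finset (Fin d))
    (F : Finset (Fin n)) : Prop :=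
  F ∈ Γ ∧ σ F ⊆ W ∧ ∀ F' ∈ Γ, σ F' ⊆ W → F ⊆ F' → F' = F

omit hS in
theorem exists_mx {W : Finset (Fin d)} {G : Finset (Fin n)} (hG : G ∈ Γ) (hGW : σ G ⊆ W) :
    ∃ F, Mx Γ σ W F ∧ G ⊆ F := by
  classical
  obtain ⟨F, hF, hmax⟩ := Finset.exists_max_image
    (Finset.univ.filter (fun F : Finset (Fin n) => F ∈ Γ ∧ σ F ⊆ W ∧ G ⊆ F)) Finset.card
    ⟨G, by simp [hG, hGW]⟩
  simp only [Finset.mem_filter, Finset.mem_univ, true_and] at hF hmax
  refine ⟨F, ⟨hF.1, hF.2.1, ?_⟩, hF.2.2⟩
  intro F' h1 h2 h3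
  exact (Finset.eq_of_subset_of_card_le h3 (hmax F' ⟨h1, h2, hF.2.2.trans h3⟩)).symm

theorem mx_sigma {W : Finset (Fin d)} (hW : W.Nonempty) {F : Finset (Fin n)}
    (hF : Mx Γ σ W F) : σ F = W := by
  by_contra hne
  have h1 := hS.exAB W hW F hF.1 hF.2.1 hne F.card
  have hset : {H | H ∈ Γ ∧ σ H ⊆ W ∧ F ⊆ H} = {F} := by
    ext H
    simp only [Set.mem_ofPred_eq, Set.mem_singleton_iff]
    constructor
    · rintro ⟨h1, h2, h3⟩; exact hF.2.2 H h1 h2 h3
    · rintro rfl; exact ⟨hF.1, hF.2.1, subset_rfl⟩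
  rw [hset] at h1
  exact not_ex_singleton F h1

omit hS in
theorem star_diff {W : Finset (Fin d)} {F H : Finset (Fin n)}
    (hF : Mx Γ σ W F) (hHF : H ⊆ F) :
    CC Γ σ H W ∅ \ {H' | H' ∈ Γ ∧ σ H' ⊆ W ∧ ¬ F ⊆ H' ∧ H ⊆ H'} = {F} := by
  ext H'
  simp only [Set.mem_sdiff, Set.mem_ofPred_eq, Set.mem_singleton_iff, CC]
  constructor
  · rintro ⟨⟨h1, h2, h3, _⟩, h4⟩
    apply hF.2.2 H' h1 h2
    by_contra h
    exact h4 ⟨h1, h2, h, h3⟩
  · rintro rfl
    exact ⟨⟨hF.1, hF.2.1, hHF, by simp⟩, fun h => h.2.2.1 subset_rfl⟩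

theorem mx_ex {W : Finset (Fin d)} (hW : W.Nonempty) {F H : Finset (Fin n)}
    (hF : Mx Γ σ W F) (hHF : H ⊆ F) (hσ : σ H = W) :
    (∀ m, m ≠ F.card → Ex k (CC Γ σ H W ∅) m) ∧ ¬ Ex k (CC Γ σ H W ∅) F.card := by
  have hC := hS.exC W hW H F hF.1 hF.2.1 hHF hσ
  have hsub : {H' | H' ∈ Γ ∧ σ H' ⊆ W ∧ ¬ F ⊆ H' ∧ H ⊆ H'} ⊆ CC Γ σ H W ∅ :=
    fun H' h => ⟨h.1, h.2.1, h.2.2.2, by simp⟩
  have hdown : ∀ G ∈ {H' | H' ∈ Γ ∧ σ H' ⊆ W ∧ ¬ F ⊆ H' ∧ H ⊆ H'}, ∀ G' ∈ CC Γ σ H W ∅,
      G' ⊆ G → G' ∈ {H' | H' ∈ Γ ∧ σ H' ⊆ W ∧ ¬ F ⊆ H' ∧ H ⊆ H'} := by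
    intro G hG G' hG' hsub'
    exact ⟨hG'.1, hG'.2.1, fun h => hG.2.2.1 (h.trans hsub'), hG'.2.2.1⟩
  constructor
  · intro m hm
    apply exF_glue (fun _ _ _ => le_rfl) (conv_CC hS H W ∅) hsub hdown (hC m)
    rw [star_diff hF hHF]
    apply ex_of_zero
    intro G hG
    rw [Set.mem_singleton_iff] at hG
    rw [hG]
    exact hm.symm
  · intro h
    have := exF_quot (fun _ _ _ => le_rfl) (conv_CC hS H W ∅) hsub hdown h (fun m' _ => hC m')
    rw [star_diff hF hHF] at this
    exact not_ex_singleton F this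

theorem mx_card_eq {W : Finset (Fin d)} (hW : W.Nonempty) {F F' H : Finset (Fin n)}
    (hF : Mx Γ σ W F) (hF' : Mx Γ σ W F') (hHF : H ⊆ F) (hHF' : H ⊆ F') (hσ : σ H = W) :
    F.card = F'.card := by
  by_contra hne
  exact (mx_ex hS hW hF hHF hσ).2 ((mx_ex hS hW hF' hHF' hσ).1 _ hne)

theorem ex_KK (W : Finset (Fin d)) (m : ℕ) (hm : m < W.card) : Ex k (CC Γ σ ∅ W ∅) m := by
  have hW : W.Nonempty := by
    rw [← Finset.card_pos]; omega
  have h := hS.exAB W hW ∅ hS.emp (by rw [hS.s0]; simp)
    (by rw [hS.s0]; exact hW.ne_empty.symm) m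
  have hset : CC Γ σ ∅ W ∅ = {H | H ∈ Γ ∧ σ H ⊆ W ∧ ∅ ⊆ H} := by
    ext H
    simp [CC]
  rw [hset]
  exact h

/-- (F2) purity. -/
theorem mx_card {W : Finset (Fin d)} {F : Finset (Fin n)} (hF : Mx Γ σ W F) :
    F.card = W.card := by
  classical
  rcases W.eq_empty_or_nonempty with rfl | hW
  · have := hS.nz F hF.1 (Finset.subset_empty.1 hF.2.1)
    rw [this]
    simp
  · by_contra hne
    have hlt : F.card < W.card := lt_of_le_of_ne (card_le_of hS W F hF.1 hF.2.1) hne
    have hEx := cc_ind hS ∅ (ex_KK hS) W W subset_rfl F.card hlt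
    obtain ⟨w, _, hwR, hwm, hw⟩ := hEx
      (fun F' => if Mx Γ σ W F' ∧ F'.card = F.card then 1 else 0)
      (fun _ => Submodule.mem_top) (by
        intro F' hF'
        apply if_neg
        rintro ⟨h1, _⟩
        exact hF' ⟨h1.1, h1.2.1, by simp, (mx_sigma hS hW h1).ge⟩) (by
        intro F' hF'
        exact if_neg (fun h => hF' h.2)) (by
        rintro H ⟨hHΓ, hHW, _, hWH⟩
        have hσH : σ H = W := Finset.Subset.antisymm hHW hWH
        by_cases hex : ∃ v, v ∉ H ∧ Mx Γ σ W (insert v H) ∧ (insert v H).card = F.card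
        · obtain ⟨v0, hv0, hM0, hc0⟩ := hex
          have hmax : ∀ H' ∈ Γ, σ H' ⊆ W → H ⊆ H' → H'.card ≤ H.card + 1 := by
            intro H' h1 h2 h3
            obtain ⟨F2, hF2, hsub2⟩ := exists_mx h1 h2
            have h4 := mx_card_eq hS hW hF2 hM0 (h3.trans hsub2) (Finset.subset_insert _ _) hσH
            have h5 := Finset.card_le_card hsub2
            rw [card_ins hv0] at h4
            omega
          have hrw : ∀ v ∈ Hᶜ, (if Mx Γ σ W (insert v H) ∧
              (insert v H).card = F.card then (1 : k) else 0) =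
              (if insert v H ∈ Γ ∧ σ (insert v H) ⊆ W then (1 : k) else 0) := by
            intro v hv
            rw [Finset.mem_compl] at hv
            have hiff : (Mx Γ σ W (insert v H) ∧ (insert v H).card = F.card) ↔
                (insert v H ∈ Γ ∧ σ (insert v H) ⊆ W) := by
              constructor
              · rintro ⟨h1, _⟩; exact ⟨h1.1, h1.2.1⟩
              · rintro ⟨h1, h2⟩
                rw [card_ins hv0] at hc0
                refine ⟨⟨h1, h2, ?_⟩, by rw [card_ins hv, hc0]⟩
                intro F' h3 h4 h5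
                refine (Finset.eq_of_subset_of_card_le h5 ?_).symm
                rw [card_ins hv]
                exact hmax F' h3 h4 ((Finset.subset_insert _ _).trans h5)
            simp only [hiff]
          rw [Finset.sum_congr rfl hrw]
          exact ridge_int hS hW hσH hmax ⟨v0, hv0, hM0.1, hM0.2.1⟩
        · apply Finset.sum_eq_zero
          intro v hv
          rw [Finset.mem_compl] at hv
          exact if_neg (fun h => hex ⟨v, hv, h⟩))
    have h3 := hw F ⟨hF.1, hF.2.1, by simp, (mx_sigma hS hW hF).ge⟩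
    rw [if_pos ⟨hF, rfl⟩, Finset.sum_eq_zero] at h3
    · exact zero_ne_one h3
    · intro v hv
      rw [Finset.mem_compl] at hv
      apply hwR
      rintro ⟨h1, h2, _⟩
      have := hF.2.2 _ h1 h2 (Finset.subset_insert _ _)
      apply hv
      rw [← this]
      simp

/-- exactness below the top for all relative stars. -/
theorem ex_CC (G : Finset (Fin n)) (U W : Finset (Fin d)) (hUW : U ⊆ W) (m : ℕ)
    (hm : m < W.card) : Ex k (CC Γ σ G W U) m := by
  apply cc_ind hS G _ U W hUW m hm
  clear hm m hUW W U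
  intro W m hm
  have hW : W.Nonempty := by
    rw [← Finset.card_pos]; omega
  by_cases hG : G ∈ Γ ∧ σ G ⊆ W
  · by_cases hσ : σ G = W
    · obtain ⟨F, hF, hGF⟩ := exists_mx hG.1 hG.2
      apply (mx_ex hS hW hF hGF hσ).1
      rw [mx_card hS hF]
      omega
    · have h := hS.exAB W hW G hG.1 hG.2 hσ m
      have hset : CC Γ σ G W ∅ = {H | H ∈ Γ ∧ σ H ⊆ W ∧ G ⊆ H} := by
        ext H
        simp [CC]
      rw [hset]
      exact h
  · apply ex_of_zero
    rintro H ⟨h1, h2, h3, _⟩
    exact absurd ⟨hS.down H h1 G h3, (hS.mono H h1 G h3).trans h2⟩ hG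

end

end Pool.Agent.H43
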