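import Pool.Agent.Lib_helper43.C2297.Coef

set_option autoImplicit false
set_option linter.unusedSectionVars false

open Finset

namespace Pool.Agent.H43

section
variable {k : Type*} [Field k] [CharP k 2]
variable {n d : ℕ} {Γ : Set (Finset (Fin n))} {σ : Finset (Fin n) → Finset (Fin d)}

/-- coefficient system with cut-off. -/
def FF (θ : Fin n → ((Fin d → k) →ₗ[k] k)) (i : ℕ) (P : Finset (Fin n)) (a : ℕ)
    (G : Finset (Fin n)) : Submodule k (Alt θ i P) :=
  XX θ i P ((G \ P).filter (fun v => v.val < a))

theorem alt_zero {θ : Fin n → ((Fin d → k) →ₗ[k] k)} {i : ℕ} {P : Finset (Fin n)}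
    (h : Module.finrank k (VP θ P) < i) (α : Alt θ i P) : α = 0 := by
  ext w
  apply AlternatingMap.map_linearDependent
  intro hli
  have := hli.fintype_card_le_finrank
  rw [Fintype.card_fin] at this
  omega

theorem coefEx (hS : Sph k Γ σ) {θ : Fin n → ((Fin d → k) →ₗ[k] k)}
    (hθ : ∀ G ∈ Γ, Ind θ G) (S : Finset (Fin d)) (i : ℕ) :
    ∀ (a : ℕ) (P : Finset (Fin n)) (m : ℕ), m < P.card + i →
      ExF (CC Γ σ P Finset.univ S) (FF θ i P a) m := by
  classical
  intro a
  induction a with
  | zero =>
    intro P m hm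
    have hFF : FF θ i P 0 = fun _ => (⊤ : Submodule k (Alt θ i P)) := by
      funext G
      have : (G \ P).filter (fun v => v.val < 0) = ∅ := by
        ext v; simp
      rw [FF, this, XX_empty]
    rw [hFF]
    by_cases hle : P.card + i ≤ d
    · apply exF_const
      apply ex_CC hS P S Finset.univ (Finset.subset_univ _)
      rw [Finset.card_univ, Fintype.card_fin]
      omega
    · by_cases hP : P ∈ Γ
      · have h1 := finrank_VP (hθ P hP)
        have h2 : ∀ α : Alt θ i P, α = 0 := alt_zero (by omega)
        intro z _ _ _ _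
        refine ⟨fun _ => 0, fun _ => Submodule.mem_top, fun _ _ => rfl, fun _ _ => rfl, ?_⟩
        intro H _
        rw [h2 (z H)]
        simp
      · intro z _ hzR _ _
        refine ⟨fun _ => 0, fun _ => Submodule.mem_top, fun _ _ => rfl, fun _ _ => rfl, ?_⟩
        intro H hH
        exact absurd (hS.down H hH.1 P hH.2.2.1) hP
  | succ a ih =>
    intro P m hm
    by_cases ha : ∃ v0 : Fin n, v0.val = a ∧ v0 ∉ P
    · obtain ⟨v0, hv0, hv0P⟩ := ha
      apply exF_ses (conv_CC hS P Finset.univ S) v0 (FF θ i P a) (FF θ i P (a + 1))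
        (FF θ i (insert v0 P) a) (rstr θ i (Finset.subset_insert v0 P))
      · intro G H hGH
        apply XX_anti
        intro v hv
        simp only [Finset.mem_filter, Finset.mem_sdiff] at hv ⊢
        exact ⟨⟨hGH hv.1.1, hv.1.2⟩, hv.2⟩
      · intro G
        apply XX_anti
        intro v hv
        simp only [Finset.mem_filter, Finset.mem_sdiff] at hv ⊢
        exact ⟨hv.1, by omega⟩
      · intro G _ _ x hx
        have hset : (G \ insert v0 P).filter (fun v => v.val < a) =
            (G \ P).filter (fun v => v.val < a) := by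
          ext v
          simp only [Finset.mem_filter, Finset.mem_sdiff, Finset.mem_insert, not_or]
          constructor
          · rintro ⟨⟨h1, _, h2⟩, h3⟩; exact ⟨⟨h1, h2⟩, h3⟩
          · rintro ⟨⟨h1, h2⟩, h3⟩
            refine ⟨⟨h1, ?_, h2⟩, h3⟩
            rintro rfl
            omega
        rw [FF, hset]
        exact rstr_mem hx
      · intro G hG hv0G y hy
        have hset : (G \ insert v0 P).filter (fun v => v.val < a) =
            (G \ P).filter (fun v => v.val < a) := by
          ext v
          simp only [Finset.mem_filter, Finset.mem_sdiff, Finset.mem_insert, not_or]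
          constructor
          · rintro ⟨⟨h1, _, h2⟩, h3⟩; exact ⟨⟨h1, h2⟩, h3⟩
          · rintro ⟨⟨h1, h2⟩, h3⟩
            refine ⟨⟨h1, ?_, h2⟩, h3⟩
            rintro rfl
            omega
        rw [FF, hset] at hy
        apply rstr_surj _ _ y hy
        · simp only [Finset.mem_filter, Finset.mem_sdiff, not_and]
          intro _ h
          omega
        · obtain ⟨u, hu1, hu2⟩ := hθ G hG.1 v0 hv0G
          refine ⟨u, hu1, ?_, ?_⟩
          · intro v hv
            apply hu2 v (hG.2.2.1 hv)
            rintro rfl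
            exact hv0P hv
          · intro v hv
            simp only [Finset.mem_filter, Finset.mem_sdiff] at hv
            apply hu2 v hv.1.1
            rintro rfl
            omega
      · intro G hG hv0G x hx
        have hset : (G \ P).filter (fun v => v.val < a + 1) =
            insert v0 ((G \ P).filter (fun v => v.val < a)) := by
          ext v
          simp only [Finset.mem_filter, Finset.mem_sdiff, Finset.mem_insert]
          constructor
          · rintro ⟨h1, h2⟩
            by_cases hv : v = v0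
            · left; exact hv
            · right
              refine ⟨h1, ?_⟩
              have : v.val ≠ v0.val := fun h => hv (Fin.ext h)
              omega
          · rintro (rfl | ⟨h1, h2⟩)
            · exact ⟨⟨hv0G, hv0P⟩, by omega⟩
            · exact ⟨h1, by omega⟩
        rw [rstr_ker (a := v0) hx]
        rw [FF, hset]
      · intro G hG hv0G
        apply XX_anti
        intro v hv
        simp only [Finset.mem_filter, Finset.mem_sdiff] at hv ⊢
        refine ⟨hv.1, ?_⟩
        have : v.val ≠ v0.val := by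
          intro h
          exact hv0G (Fin.ext h ▸ hv.1.1)
        omega
      · exact ih P m hm
      · have hset : {G | G ∈ CC Γ σ P Finset.univ S ∧ v0 ∈ G} =
            CC Γ σ (insert v0 P) Finset.univ S := by
          ext G
          constructor
          · rintro ⟨⟨h1, h2, h3, h4⟩, h5⟩
            exact ⟨h1, h2, Finset.insert_subset h5 h3, h4⟩
          · rintro ⟨h1, h2, h3, h4⟩
            exact ⟨⟨h1, h2, (Finset.subset_insert _ _).trans h3, h4⟩,
              h3 (Finset.mem_insert_self _ _)⟩
        rw [hset]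
        apply ih
        rw [Finset.card_insert_of_notMem hv0P]
        omega
    · have hFF : FF θ i P (a + 1) = FF θ i P a := by
        funext G
        have : (G \ P).filter (fun v => v.val < a + 1) = (G \ P).filter (fun v => v.val < a) := by
          ext v
          simp only [Finset.mem_filter, Finset.mem_sdiff]
          constructor
          · rintro ⟨h1, h2⟩
            refine ⟨h1, ?_⟩
            by_contra h3
            exact ha ⟨v, by omega, h1.2⟩
          · rintro ⟨h1, h2⟩
            exact ⟨h1, by omega⟩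
        rw [FF, this, FF]
      rw [hFF]
      exact ih P m hm

/-- exactness with the full coefficient system. -/
theorem exXX (hS : Sph k Γ σ) {θ : Fin n → ((Fin d → k) →ₗ[k] k)}
    (hθ : ∀ G ∈ Γ, Ind θ G) (S : Finset (Fin d)) (i m : ℕ) (hm : m < i) :
    ExF (CC Γ σ ∅ Finset.univ S) (XX θ i ∅) m := by
  have h := coefEx hS hθ S i n ∅ m (by simpa using hm)
  have hFF : FF θ i ∅ n = XX θ i ∅ := by
    funext G
    have : (G \ ∅).filter (fun v => v.val < n) = G := by
      ext v
      simp
    rw [FF, this]
  rwa [hFF] at h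

open Classical in
/-- the space of chains of size `m`. -/
def Cm (R : Set (Finset (Fin n))) (θ : Fin n → ((Fin d → k) →ₗ[k] k)) (i m : ℕ) :
    Submodule k (Finset (Fin n) → Alt θ i ∅) where
  carrier := {z | (∀ G, z G ∈ XX θ i ∅ G) ∧ ∀ G, ¬ (G ∈ R ∧ G.card = m) → z G = 0}
  add_mem' := by
    rintro a b ⟨ha1, ha2⟩ ⟨hb1, hb2⟩
    exact ⟨fun G => Submodule.add_mem _ (ha1 G) (hb1 G), fun G hG => by
      rw [Pi.add_apply, ha2 G hG, hb2 G hG, add_zero]⟩
  zero_mem' := ⟨fun _ => Submodule.zero_mem _, fun _ _ => rfl⟩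
  smul_mem' := by
    rintro c a ⟨ha1, ha2⟩
    exact ⟨fun G => Submodule.smul_mem _ _ (ha1 G), fun G hG => by
      rw [Pi.smul_apply, ha2 G hG, smul_zero]⟩

/-- the boundary operator. -/
noncomputable def dR (R : Set (Finset (Fin n))) (θ : Fin n → ((Fin d → k) →ₗ[k] k)) (i : ℕ) :
    (Finset (Fin n) → Alt θ i ∅) →ₗ[k] (Finset (Fin n) → Alt θ i ∅) where
  toFun z := res R (up z)
  map_add' := by
    intro a b
    funext G
    by_cases hG : G ∈ R
    · rw [Pi.add_apply, res_of_mem hG, res_of_mem hG, res_of_mem hG]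
      exact up_add a b G
    · rw [Pi.add_apply, res_of_notMem hG, res_of_notMem hG, res_of_notMem hG, add_zero]
  map_smul' := by
    intro c a
    funext G
    by_cases hG : G ∈ R
    · rw [RingHom.id_apply, Pi.smul_apply, res_of_mem hG, res_of_mem hG]
      simp [up, Finset.smul_sum]
    · rw [RingHom.id_apply, Pi.smul_apply, res_of_notMem hG, res_of_notMem hG, smul_zero]

/-- cycles. -/
noncomputable def Zm (R : Set (Finset (Fin n))) (θ : Fin n → ((Fin d → k) →ₗ[k] k)) (i m : ℕ) :
    Submodule k (Finset (Fin n) → Alt θ i ∅) :=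
  Cm R θ i m ⊓ LinearMap.ker (dR R θ i)

open Classical in
theorem finrank_Cm {R : Set (Finset (Fin n))} {θ : Fin n → ((Fin d → k) →ₗ[k] k)} {i m : ℕ}
    (hm : m ≤ i) (hθ : ∀ G ∈ R, Ind θ G) :
    Module.finrank k (Cm R θ i m) =
      Nat.choose (d - m) (i - m) *
        (Finset.univ.filter (fun G : Finset (Fin n) => G ∈ R ∧ G.card = m)).card := by
  let e : Cm R θ i m ≃ₗ[k] (∀ G : {G : Finset (Fin n) // G ∈ R ∧ G.card = m}, XX θ i ∅ G.1) :=
    { toFun := fun z G => ⟨z.1 G.1, z.2.1 G.1⟩
      map_add' := fun _ _ => rfl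
      map_smul' := fun _ _ => rfl
      invFun := fun y => ⟨fun G => if h : G ∈ R ∧ G.card = m then (y ⟨G, h⟩).1 else 0, by
        constructor
        · intro G
          by_cases h : G ∈ R ∧ G.card = m
          · simp only [dif_pos h]; exact (y ⟨G, h⟩).2
          · simp only [dif_neg h]; exact Submodule.zero_mem _
        · intro G hG
          exact dif_neg hG⟩
      left_inv := by
        intro z
        apply Subtype.ext
        funext G
        by_cases h : G ∈ R ∧ G.card = m
        · simp only [dif_pos h]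
        · simp only [dif_neg h]
          exact (z.2.2 G h).symm
      right_inv := by
        intro y
        funext G
        apply Subtype.ext
        simp only [dif_pos G.2] }
  have : ∀ G : {G : Finset (Fin n) // G ∈ R ∧ G.card = m}, Module.Free k (XX θ i ∅ G.1) :=
    fun G => Module.Free.of_divisionRing k (XX θ i ∅ G.1)
  rw [e.finrank_eq, Module.finrank_pi_fintype]
  have h1 : ∀ G : {G : Finset (Fin n) // G ∈ R ∧ G.card = m},
      Module.finrank k (XX θ i ∅ G.1) = Nat.choose (d - m) (i - m) := by
    intro G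
    rw [finrank_XX G.1 ∅ (Finset.disjoint_empty_left _)
      (by rw [Finset.empty_union]; exact hθ G.1 G.2.1) (by rw [G.2.2]; exact hm), G.2.2]
    simp
  rw [Finset.sum_congr rfl (fun G _ => h1 G), Finset.sum_const, Finset.card_univ,
    Fintype.card_subtype, smul_eq_mul, mul_comm]

theorem mem_Cm {R : Set (Finset (Fin n))} {θ : Fin n → ((Fin d → k) →ₗ[k] k)} {i m : ℕ}
    {z : Finset (Fin n) → Alt θ i ∅} : z ∈ Cm R θ i m ↔
      (∀ G, z G ∈ XX θ i ∅ G) ∧ ∀ G, ¬ (G ∈ R ∧ G.card = m) → z G = 0 := Iff.rfl

theorem dR_apply {R : Set (Finset (Fin n))} {θ : Fin n → ((Fin d → k) →ₗ[k] k)} {i : ℕ}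
    (z : Finset (Fin n) → Alt θ i ∅) : dR R θ i z = res R (up z) := rfl

theorem Zm_succ {R : Set (Finset (Fin n))} (hR : Conv R)
    {θ : Fin n → ((Fin d → k) →ₗ[k] k)} {i m : ℕ}
    (hex : ExF R (XX θ i ∅) m) :
    Module.finrank k (Zm R θ i (m + 1)) + Module.finrank k (Zm R θ i m) =
      Module.finrank k (Cm R θ i (m + 1)) := by
  have h1 := LinearMap.finrank_range_add_finrank_ker (K := k) (V := Cm R θ i (m + 1))
      (V₂ := Finset (Fin n) → Alt θ i ∅) ((dR R θ i).domRestrict (Cm R θ i (m + 1)))
  have hrange : LinearMap.range ((dR R θ i).domRestrict (Cm R θ i (m + 1))) = Zm R θ i m := by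
    ext z
    constructor
    · rintro ⟨⟨w, hw⟩, rfl⟩
      rw [LinearMap.domRestrict_apply]
      rw [mem_Cm] at hw
      refine ⟨⟨?_, ?_⟩, ?_⟩
      · intro G
        rw [dR_apply]
        by_cases hG : G ∈ R
        · rw [res_of_mem hG]
          exact Submodule.sum_mem _ (fun v _ => XX_anti (Finset.subset_insert v G) (hw.1 _))
        · rw [res_of_notMem hG]; exact Submodule.zero_mem _
      · intro G hG
        rw [dR_apply]
        by_cases hGR : G ∈ R
        · rw [res_of_mem hGR]
          apply up_zero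
          intro v hv
          apply hw.2
          rintro ⟨_, h⟩
          rw [Finset.card_insert_of_notMem hv] at h
          exact hG ⟨hGR, by omega⟩
        · rw [res_of_notMem hGR]
      · show dR R θ i (dR R θ i w) = 0
        rw [dR_apply, dR_apply]
        funext G
        by_cases hGR : G ∈ R
        · rw [res_of_mem hGR]
          exact up_res_up k hR w (fun G hG => hw.2 G (fun h => hG h.1)) hGR
        · rw [res_of_notMem hGR]
          rfl
    · rintro ⟨hz, hz2⟩
      replace hz := mem_Cm.1 hz
      obtain ⟨w, hw1, hw2, hw3, hw4⟩ := hex z hz.1 (fun G hG => hz.2 G (fun h => hG h.1))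
        (fun G hG => hz.2 G (fun h => hG h.2)) (by
          intro H hH
          have := congrFun (LinearMap.mem_ker.1 hz2) H
          rw [dR_apply, res_of_mem hH] at this
          exact this)
      refine ⟨⟨w, mem_Cm.2 ⟨hw1, ?_⟩⟩, ?_⟩
      · intro G hG
        by_cases h : G ∈ R
        · exact hw3 G (fun h' => hG ⟨h, h'⟩)
        · exact hw2 G h
      · rw [LinearMap.domRestrict_apply, dR_apply]
        funext G
        by_cases hG : G ∈ R
        · rw [res_of_mem hG]
          exact hw4 G hG
        · rw [res_of_notMem hG]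
          exact (hz.2 G (fun h => hG h.1)).symm
  have hker : Module.finrank k (LinearMap.ker ((dR R θ i).domRestrict (Cm R θ i (m + 1)))) =
      Module.finrank k (Zm R θ i (m + 1)) := by
    have hle : Zm R θ i (m + 1) ≤ Cm R θ i (m + 1) := inf_le_left
    have hk : LinearMap.ker ((dR R θ i).domRestrict (Cm R θ i (m + 1))) =
        (Zm R θ i (m + 1)).comap (Cm R θ i (m + 1)).subtype := by
      ext x
      rw [LinearMap.mem_ker, Submodule.mem_comap, LinearMap.domRestrict_apply,
        Submodule.subtype_apply]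
      constructor
      · intro h
        exact ⟨x.2, LinearMap.mem_ker.2 h⟩
      · rintro ⟨_, h⟩
        exact LinearMap.mem_ker.1 h
    rw [hk]
    exact (Submodule.comapSubtypeEquivOfLe hle).finrank_eq
  rw [hrange, hker] at h1
  omega

theorem Zm_zero {R : Set (Finset (Fin n))}
    {θ : Fin n → ((Fin d → k) →ₗ[k] k)} {i : ℕ} : Zm R θ i 0 = Cm R θ i 0 := by
  apply le_antisymm inf_le_left
  apply le_inf le_rfl
  intro z hz
  rw [mem_Cm] at hz
  rw [LinearMap.mem_ker, dR_apply]
  funext G
  by_cases hG : G ∈ R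
  · rw [res_of_mem hG]
    apply up_zero
    intro v hv
    apply hz.2
    rintro ⟨_, h⟩
    rw [Finset.card_insert_of_notMem hv] at h
    omega
  · rw [res_of_notMem hG]
    rfl

/-- the alternating sum formula for the dimension of the cycles. -/
theorem finrank_Zm {R : Set (Finset (Fin n))} (hR : Conv R)
    {θ : Fin n → ((Fin d → k) →ₗ[k] k)} {i : ℕ}
    (hex : ∀ m, m < i → ExF R (XX θ i ∅) m) : ∀ m, m ≤ i →
    (Module.finrank k (Zm R θ i m) : ℤ) =
      ∑ j ∈ Finset.range (m + 1), (-1 : ℤ) ^ (m - j) * (Module.finrank k (Cm R θ i j) : ℤ) := by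
  intro m
  induction m with
  | zero =>
    intro _
    rw [Zm_zero]
    simp
  | succ m ih =>
    intro hm
    have h1 := Zm_succ hR (hex m (by omega))
    have h2 := ih (by omega)
    rw [Finset.sum_range_succ]
    have h3 : ∑ j ∈ Finset.range (m + 1), (-1 : ℤ) ^ (m + 1 - j) *
        (Module.finrank k (Cm R θ i j) : ℤ) = - (Module.finrank k (Zm R θ i m) : ℤ) := by
      rw [h2, ← Finset.sum_neg_distrib]
      apply Finset.sum_congr rfl
      intro j hj
      rw [Finset.mem_range] at hj
      have : m + 1 - j = (m - j) + 1 := by omega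
      rw [this, pow_succ]
      ring
    rw [h3]
    simp only [Nat.sub_self, pow_zero, one_mul]
    have : (Module.finrank k (Zm R θ i (m + 1)) : ℤ) + Module.finrank k (Zm R θ i m) =
      Module.finrank k (Cm R θ i (m + 1)) := by exact_mod_cast h1
    linarith

open Classical in
/-- positivity from a nonzero cycle. -/
theorem pos_of_cycle (hS : Sph k Γ σ) {θ : Fin n → ((Fin d → k) →ₗ[k] k)}
    (hθ : ∀ G ∈ Γ, Ind θ G) (S : Finset (Fin d)) (i : ℕ)
    (z : Finset (Fin n) → Alt θ i ∅) (hz : z ∈ Zm (CC Γ σ ∅ Finset.univ S) θ i i)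
    (hz0 : z ≠ 0) :
    0 < ∑ j ∈ Finset.range (i + 1), (-1 : ℤ) ^ (i - j) *
      ((Nat.choose (d - j) (i - j) : ℕ) : ℤ) *
      ((Finset.univ.filter (fun G : Finset (Fin n) => G ∈ Γ ∧ G.card = j ∧ S ⊆ σ G)).card : ℤ)
      := by
  have h1 := finrank_Zm (conv_CC hS ∅ Finset.univ S) (θ := θ) (i := i)
    (fun m hm => exXX hS hθ S i m hm) i le_rfl
  have h2 : 0 < Module.finrank k (Zm (CC Γ σ ∅ Finset.univ S) θ i i) := by
    apply (Module.finrank_pos_iff_exists_ne_zero (R := k)
      (M := Zm (CC Γ σ ∅ Finset.univ S) θ i i)).2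
    exact ⟨⟨z, hz⟩, fun h => hz0 (congrArg Subtype.val h)⟩
  have h3 : ∑ j ∈ Finset.range (i + 1), (-1 : ℤ) ^ (i - j) *
      ((Nat.choose (d - j) (i - j) : ℕ) : ℤ) *
      ((Finset.univ.filter (fun G : Finset (Fin n) => G ∈ Γ ∧ G.card = j ∧ S ⊆ σ G)).card : ℤ) =
      (Module.finrank k (Zm (CC Γ σ ∅ Finset.univ S) θ i i) : ℤ) := by
    rw [h1]
    apply Finset.sum_congr rfl
    intro j hj
    rw [Finset.mem_range] at hj
    rw [finrank_Cm (by omega) (fun G hG => hθ G hG.1)]
    have : (Finset.univ.filter (fun G : Finset (Fin n) => G ∈ Γ ∧ G.card = j ∧ S ⊆ σ G)) =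
        (Finset.univ.filter (fun G : Finset (Fin n) => G ∈ CC Γ σ ∅ Finset.univ S ∧
          G.card = j)) := by
      ext G
      simp only [Finset.mem_filter, Finset.mem_univ, true_and]
      constructor
      · rintro ⟨h1, h2, h3⟩; exact ⟨⟨h1, by simp, by simp, h3⟩, h2⟩
      · rintro ⟨⟨h1, _, _, h3⟩, h2⟩; exact ⟨h1, h2, h3⟩
    rw [this]
    push_cast
    ring
  rw [h3]
  exact_mod_cast h2

end

end Pool.Agent.H43
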