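import Pool.Agent.Lib_helper43.C2297.LocalC

set_option autoImplicit false
set_option linter.unusedSectionVars false

open Finset

namespace Pool.Agent.H43

/-- the homological facts extracted from a topological subdivision of a simplex. -/
structure Sph (k : Type*) [Field k] {n d : ℕ} (Γ : Set (Finset (Fin n)))
    (σ : Finset (Fin n) → Finset (Fin d)) : Prop where
  down : Down Γ
  emp : ∅ ∈ Γ
  s0 : σ ∅ = ∅
  mono : ∀ G ∈ Γ, ∀ H, H ⊆ G → σ H ⊆ σ G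
  nz : ∀ G ∈ Γ, σ G = ∅ → G = ∅
  exAB : ∀ W : Finset (Fin d), W.Nonempty → ∀ G ∈ Γ, σ G ⊆ W → σ G ≠ W →
    ∀ m, Ex k {H | H ∈ Γ ∧ σ H ⊆ W ∧ G ⊆ H} m
  exC : ∀ W : Finset (Fin d), W.Nonempty → ∀ G F, F ∈ Γ → σ F ⊆ W → G ⊆ F → σ G = W →
    ∀ m, Ex k {H | H ∈ Γ ∧ σ H ⊆ W ∧ ¬ F ⊆ H ∧ G ⊆ H} m

/-- the space of the statement. -/
def Spc {n d : ℕ} (Γ : Finset (Finset (Fin n))) (σ : Finset (Fin n) → Finset (Fin d))
    (F : Finset (Fin d)) : Set (Fin n → ℝ) :=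
  {x : Fin n → ℝ | (∀ j, 0 ≤ x j) ∧ ∑ j, x j = 1 ∧
    ∃ G ∈ Γ, σ G ⊆ F ∧ ∀ j, x j ≠ 0 → j ∈ G}

section
variable {n d : ℕ} {Γ : Finset (Finset (Fin n))} {σ : Finset (Fin n) → Finset (Fin d)}

/-- the subcomplex over a face. -/
def KK (Γ : Set (Finset (Fin n))) (σ : Finset (Fin n) → Finset (Fin d))
    (F : Finset (Fin d)) : Set (Finset (Fin n)) := {G | G ∈ Γ ∧ σ G ⊆ F}

theorem down_KK {Γ : Set (Finset (Fin n))} (h1 : Down Γ)
    (h2 : ∀ G ∈ Γ, ∀ H, H ⊆ G → σ H ⊆ σ G) (F : Finset (Fin d)) :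
    Down (KK Γ σ F) := fun G hG H hH => ⟨h1 G hG.1 H hH, (h2 G hG.1 H hH).trans hG.2⟩

theorem spc_eq (h1 : ∀ G ∈ Γ, ∀ H : Finset (Fin n), H ⊆ G → H ∈ Γ)
    (h2 : ∀ G ∈ Γ, ∀ H, H ⊆ G → σ H ⊆ σ G) (F : Finset (Fin d)) :
    Spc Γ σ F = Geo (KK (Γ : Set (Finset (Fin n))) σ F) := by
  ext x
  constructor
  · rintro ⟨hx1, hx2, G, hG, hGF, hx⟩
    have hs : spt x ⊆ G := fun j hj => hx j ((mem_spt x j).1 hj)
    exact ⟨hx1, hx2, h1 G hG _ hs, (h2 G hG _ hs).trans hGF⟩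
  · rintro ⟨hx1, hx2, hx3⟩
    exact ⟨hx1, hx2, spt x, hx3.1, hx3.2, fun j hj => (mem_spt x j).2 hj⟩

open Classical in
/-- the homeomorphism as ball data. -/
theorem ballData_of_homeo {E : Type*} [NormedAddCommGroup E] [NormedSpace ℝ E]
    {K : Set (Finset (Fin n))} (X : Set (Fin n → ℝ)) (hX : X = Geo K)
    (φ : X ≃ₜ (Metric.closedBall (0 : E) 1)) :
    ∃ B : BallData K E, ∀ x : X, B.Φ x = φ x := by
  subst hX
  have h0 : (0 : E) ∈ Metric.closedBall (0 : E) 1 := by simp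
  let Φ : (Fin n → ℝ) → E := fun x => if h : x ∈ Geo K then (φ ⟨x, h⟩ : E) else 0
  let Ψ : E → (Fin n → ℝ) := fun y =>
    if h : y ∈ Metric.closedBall (0 : E) 1 then (φ.symm ⟨y, h⟩ : Fin n → ℝ) else 0
  have hΦ : ∀ x : Geo K, Φ x = φ x := by
    intro x
    simp only [Φ]
    rw [dif_pos x.2]
  have hΨ : ∀ y : Metric.closedBall (0 : E) 1, Ψ y = φ.symm y := by
    intro y
    simp only [Ψ]
    rw [dif_pos y.2]
  refine ⟨⟨Φ, Ψ, ?_, ?_, ?_, ?_, ?_, ?_⟩, hΦ⟩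
  · rw [continuousOn_iff_continuous_domRestrict]
    have : Set.domRestrict (Geo K) Φ = fun x => (φ x : E) := by
      funext x
      exact hΦ x
    rw [this]
    exact continuous_subtype_val.comp φ.continuous
  · rw [continuousOn_iff_continuous_domRestrict]
    have : Set.domRestrict (Metric.closedBall (0 : E) 1) Ψ = fun y => (φ.symm y : Fin n → ℝ) := by
      funext y
      exact hΨ y
    rw [this]
    exact continuous_subtype_val.comp φ.symm.continuous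
  · intro x hx
    have h1 := hΦ ⟨x, hx⟩
    simp only at h1
    rw [h1]
    have := (φ ⟨x, hx⟩).2
    rwa [Metric.mem_closedBall, dist_zero_right] at this
  · intro y hy
    have hy' : y ∈ Metric.closedBall (0 : E) 1 := by
      rwa [Metric.mem_closedBall, dist_zero_right]
    have h1 := hΨ ⟨y, hy'⟩
    simp only at h1
    rw [h1]
    exact (φ.symm ⟨y, hy'⟩).2
  · intro x hx
    have h1 := hΦ ⟨x, hx⟩
    simp only at h1
    rw [h1, hΨ, φ.symm_apply_apply]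
  · intro y hy
    have hy' : y ∈ Metric.closedBall (0 : E) 1 := by
      rwa [Metric.mem_closedBall, dist_zero_right]
    have h1 := hΨ ⟨y, hy'⟩
    simp only at h1
    rw [h1, hΦ, φ.apply_symm_apply]

theorem sph_of_hyp (k : Type*) [Field k] [CharP k 2] (hd : 0 < d)
    (h1 : ∀ G ∈ Γ, ∀ H : Finset (Fin n), H ⊆ G → H ∈ Γ)
    (h2 : σ ∅ = ∅)
    (h3 : ∀ G ∈ Γ, ∀ H : Finset (Fin n), H ⊆ G → σ H ⊆ σ G)
    (h4 : ∀ F : Finset (Fin d), F.Nonempty →
      ∃ φ : ↥(Spc Γ σ F) ≃ₜ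
            ↥(Metric.closedBall (0 : EuclideanSpace ℝ (Fin (F.card - 1))) 1),
        ∀ G ∈ Γ, G.Nonempty → σ G ⊆ F →
          (σ G = F ↔
            ∀ y : ↥(Spc Γ σ F),
              (∀ j, 0 < (y : Fin n → ℝ) j ↔ j ∈ G) →
                ‖(φ y : EuclideanSpace ℝ (Fin (F.card - 1)))‖ < 1)) :
    Sph k (Γ : Set (Finset (Fin n))) σ := by
  have hdown : Down (Γ : Set (Finset (Fin n))) := h1
  -- points with given support
  have hpt : ∀ F : Finset (Fin d), ∀ G ∈ Γ, σ G ⊆ F → ∀ p : Fin n → ℝ, Bar p → spt p = G →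
      ∃ hp : p ∈ Spc Γ σ F, (∀ j, 0 < ((⟨p, hp⟩ : ↥(Spc Γ σ F)) : Fin n → ℝ) j ↔ j ∈ G) := by
    intro F G hG hGF p hp hpG
    refine ⟨⟨hp.1, hp.2, G, hG, hGF, ?_⟩, ?_⟩
    · intro j hj
      rw [← hpG]
      exact (mem_spt p j).2 hj
    · intro j
      simp only
      rw [← hpG, mem_spt]
      constructor
      · intro h; exact h.ne'
      · intro h; exact lt_of_le_of_ne (hp.1 j) (Ne.symm h)
  have hspt : ∀ F : Finset (Fin d), ∀ G : Finset (Fin n), ∀ y : ↥(Spc Γ σ F),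
      (∀ j, 0 < (y : Fin n → ℝ) j ↔ j ∈ G) → Bar (y : Fin n → ℝ) ∧ spt (y : Fin n → ℝ) = G := by
    intro F G y hy
    refine ⟨⟨y.2.1, y.2.2.1⟩, ?_⟩
    ext j
    rw [mem_spt, ← hy j]
    constructor
    · intro h; exact lt_of_le_of_ne (y.2.1 j) (Ne.symm h)
    · intro h; exact h.ne'
  refine ⟨hdown, ?_, h2, h3, ?_, ?_, ?_⟩
  · -- the empty face
    obtain ⟨φ, _⟩ := h4 {⟨0, hd⟩} (Finset.singleton_nonempty _)
    have h0 : (0 : EuclideanSpace ℝ (Fin (({⟨0, hd⟩} : Finset (Fin d)).card - 1))) ∈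
        Metric.closedBall (0 : EuclideanSpace ℝ
          (Fin (({⟨0, hd⟩} : Finset (Fin d)).card - 1))) 1 := by simp
    obtain ⟨_, _, G, hG, _⟩ := (φ.symm ⟨0, h0⟩).2
    exact h1 G hG ∅ (by simp)
  · intro G hG hσ
    by_contra hne
    have hGn : G.Nonempty := Finset.nonempty_iff_ne_empty.2 hne
    obtain ⟨φ, hφ⟩ := h4 {⟨0, hd⟩} (Finset.singleton_nonempty _)
    have h5 := (hφ G hG hGn (by rw [hσ]; simp)).2 (by
      intro y _
      have h6 : ∀ z : EuclideanSpace ℝ (Fin (({⟨0, hd⟩} : Finset (Fin d)).card - 1)), z = 0 := by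
        intro z
        ext i
        have := i.2
        simp at this
      rw [h6 (φ y)]
      simp)
    rw [hσ] at h5
    exact absurd h5.symm (by simp)
  · intro W hW G hG hGW hne m
    obtain ⟨φ, hφ⟩ := h4 W hW
    obtain ⟨B, hB⟩ := ballData_of_homeo (K := KK (Γ : Set (Finset (Fin n))) σ W)
      (Spc Γ σ W) (spc_eq h1 h3 W) φ
    have hKd : Down (KK (Γ : Set (Finset (Fin n))) σ W) := down_KK hdown h3 W
    rcases G.eq_empty_or_nonempty with rfl | hGn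
    · have := exA (k := k) hKd B m
      have hset : {H | H ∈ (Γ : Set (Finset (Fin n))) ∧ σ H ⊆ W ∧ ∅ ⊆ H} =
          KK (Γ : Set (Finset (Fin n))) σ W := by
        ext H
        simp [KK]
      rw [hset]
      exact this
    · have h5 := mt (hφ G hG hGn hGW).2 hne
      push Not at h5
      obtain ⟨y, hy, hy1⟩ := h5
      obtain ⟨hyb, hys⟩ := hspt W G y hy
      have := exB (k := k) hKd B G hGn ⟨hG, hGW⟩ (y : Fin n → ℝ) hyb hys (by rw [hB y]; exact hy1) m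
      have hset : {H | H ∈ (Γ : Set (Finset (Fin n))) ∧ σ H ⊆ W ∧ G ⊆ H} =
          {H | H ∈ KK (Γ : Set (Finset (Fin n))) σ W ∧ G ⊆ H} := by
        ext H
        simp [KK, and_assoc]
      rw [hset]
      exact this
  · intro W hW G F hF hFW hGF hGW m
    obtain ⟨φ, hφ⟩ := h4 W hW
    obtain ⟨B, hB⟩ := ballData_of_homeo (K := KK (Γ : Set (Finset (Fin n))) σ W)
      (Spc Γ σ W) (spc_eq h1 h3 W) φ
    have hKd : Down (KK (Γ : Set (Finset (Fin n))) σ W) := down_KK hdown h3 W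
    have hG : G ∈ Γ := h1 F hF G hGF
    have hGn : G.Nonempty := by
      rw [Finset.nonempty_iff_ne_empty]
      rintro rfl
      rw [h2] at hGW
      exact hW.ne_empty hGW.symm
    obtain ⟨p, hp, hpG⟩ := exists_bar G hGn
    obtain ⟨hpS, hpj⟩ := hpt W G hG hGW.le p hp hpG
    have h5 := (hφ G hG hGn hGW.le).1 hGW ⟨p, hpS⟩ hpj
    have := exC (k := k) hKd B G F hGn ⟨hF, hFW⟩ hGF p hp hpG (by
      have := hB ⟨p, hpS⟩
      simp only at this
      rw [this]; exact h5) m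
    have hset : {H | H ∈ (Γ : Set (Finset (Fin n))) ∧ σ H ⊆ W ∧ ¬ F ⊆ H ∧ G ⊆ H} =
        {H | H ∈ KK (Γ : Set (Finset (Fin n))) σ W ∧ ¬ F ⊆ H ∧ G ⊆ H} := by
      ext H
      simp [KK, and_assoc]
    rw [hset]
    exact this

end

end Pool.Agent.H43
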