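import Pool.Agent.Lib_helper43.C2297.Stress

set_option autoImplicit false
set_option linter.unusedSectionVars false

open Finset

namespace Pool.Agent.H43

section
variable {k : Type*} [Field k] [CharP k 2]
variable {n d : ℕ} {Γ : Set (Finset (Fin n))} {σ : Finset (Fin n) → Finset (Fin d)}

open Classical in
/-- the labelled sum. -/
noncomputable def LS (l : Fin n → Fin d) (S : Finset (Fin d)) (b : Finset (Fin n) → k) : k :=
  ∑ G ∈ Finset.univ.filter (fun G : Finset (Fin n) => G.card = S.card ∧ G.image l = S), b G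

open Classical in
theorem LS_step (hS : Sph k Γ σ) {θ : Fin n → ((Fin d → k) →ₗ[k] k)}
    (l : Fin n → Fin d) (hl : ∀ G ∈ Γ, ∀ v ∈ G, l v ∈ σ G)
    {j : Fin d} {S : Finset (Fin d)} (hj : j ∉ S) {i : ℕ} (hi : i = S.card)
    {b b' : Finset (Fin n) → k}
    (hb : IsStress Γ σ θ (insert j S) (i + 1) b) (hb' : IsStress Γ σ θ S i b')
    (h : ∀ G, G ∈ Γ → S ⊆ σ G → G.card = i → (∀ v ∈ G, l v ≠ j) →
        b' G = ∑ v ∈ Gᶜ, b (insert v G) * (if l v = j then 1 else 0)) :
    LS l S b' = LS l (insert j S) b := by
  have h1 : ∀ G ∈ Finset.univ.filter (fun G : Finset (Fin n) => G.card = S.card ∧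
      G.image l = S), b' G = ∑ v ∈ Gᶜ.filter (fun v => l v = j), b (insert v G) := by
    intro G hG
    simp only [Finset.mem_filter, Finset.mem_univ, true_and] at hG
    obtain ⟨hGc, hGi⟩ := hG
    have hno : ∀ v ∈ G, l v ≠ j := by
      rintro v hv rfl
      apply hj
      rw [← hGi]
      exact Finset.mem_image_of_mem l hv
    rw [Finset.sum_filter]
    by_cases hGΓ : G ∈ Γ
    · have hSG : S ⊆ σ G := by
        intro s hs
        rw [← hGi] at hs
        obtain ⟨v, hv, rfl⟩ := Finset.mem_image.1 hs
        exact hl G hGΓ v hv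
      rw [h G hGΓ hSG (by rw [hGc, hi]) hno]
      apply Finset.sum_congr rfl
      intro v _
      split_ifs
      · rw [mul_one]
      · rw [mul_zero]
    · rw [hb'.supp G (fun h' => hGΓ h'.1)]
      symm
      apply Finset.sum_eq_zero
      intro v _
      split_ifs
      · apply hb.supp
        intro h'
        exact hGΓ (hS.down _ h'.1 _ (Finset.subset_insert _ _))
      · rfl
  unfold LS
  rw [Finset.sum_congr rfl h1, Finset.sum_sigma']
  refine Finset.sum_bij (fun x _ => insert x.2 x.1) ?_ ?_ ?_ ?_
  · rintro ⟨G, v⟩ hx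
    simp only [Finset.mem_sigma, Finset.mem_filter, Finset.mem_univ, true_and,
      Finset.mem_compl] at hx ⊢
    obtain ⟨⟨h2, h3⟩, h4, h5⟩ := hx
    refine ⟨?_, ?_⟩
    · rw [Finset.card_insert_of_notMem h4, Finset.card_insert_of_notMem hj, h2]
    · rw [Finset.image_insert, h3, h5]
  · rintro ⟨G, v⟩ hx ⟨G', v'⟩ hx' heq
    simp only [Finset.mem_sigma, Finset.mem_filter, Finset.mem_univ, true_and,
      Finset.mem_compl] at hx hx' heq
    obtain ⟨⟨h2, h3⟩, h4, h5⟩ := hx
    obtain ⟨⟨h2', h3'⟩, h4', h5'⟩ := hx'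
    have hvv : v = v' := by
      have : v ∈ insert v' G' := by rw [← heq]; exact Finset.mem_insert_self _ _
      rcases Finset.mem_insert.1 this with h6 | h6
      · exact h6
      · exfalso
        apply hj
        rw [← h3', ← h5]
        exact Finset.mem_image_of_mem l h6
    subst hvv
    have hGG : G = G' := by
      rw [← Finset.erase_insert h4, ← Finset.erase_insert h4', heq]
    subst hGG
    rfl
  · intro F hF
    simp only [Finset.mem_filter, Finset.mem_univ, true_and] at hF
    obtain ⟨hFc, hFi⟩ := hF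
    have hjF : j ∈ F.image l := by rw [hFi]; exact Finset.mem_insert_self _ _
    obtain ⟨v, hv, hvj⟩ := Finset.mem_image.1 hjF
    have hinj : Set.InjOn l F := by
      apply Finset.card_image_iff.1
      rw [hFi, hFc]
    refine ⟨⟨F.erase v, v⟩, ?_, ?_⟩
    · simp only [Finset.mem_sigma, Finset.mem_filter, Finset.mem_univ, true_and,
        Finset.mem_compl]
      refine ⟨⟨?_, ?_⟩, Finset.notMem_erase _ _, hvj⟩
      · rw [Finset.card_erase_of_mem hv, hFc, Finset.card_insert_of_notMem hj]
        simp
      · ext y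
        constructor
        · intro hy
          obtain ⟨x, hx, rfl⟩ := Finset.mem_image.1 hy
          rw [Finset.mem_erase] at hx
          have h6 : l x ∈ insert j S := by
            rw [← hFi]; exact Finset.mem_image_of_mem l hx.2
          rcases Finset.mem_insert.1 h6 with h7 | h7
          · exfalso
            apply hx.1
            apply hinj hx.2 hv
            rw [h7, hvj]
          · exact h7
        · intro hy
          have h6 : y ∈ F.image l := by rw [hFi]; exact Finset.mem_insert_of_mem hy
          obtain ⟨x, hx, rfl⟩ := Finset.mem_image.1 h6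
          apply Finset.mem_image_of_mem
          rw [Finset.mem_erase]
          refine ⟨?_, hx⟩
          rintro rfl
          rw [hvj] at hy
          exact hj hy
    · exact Finset.insert_erase hv
  · rintro ⟨G, v⟩ _
    rfl

open Classical in
theorem exists_stress (hS : Sph k Γ σ) (hd : 0 < d) {θ : Fin n → ((Fin d → k) →ₗ[k] k)}
    (hθ : ∀ G ∈ Γ, Ind θ G)
    (hD : ∀ G ∈ Γ, ∀ h : G.card = d, Dt θ (enu G h) (fun q => Pi.single q 1) ≠ 0)
    (l : Fin n → Fin d) (hl : ∀ G ∈ Γ, ∀ v ∈ G, l v ∈ σ G)
    (hLS : LS l (Finset.univ : Finset (Fin d)) (mu Γ θ) ≠ 0) (T : Finset (Fin d)) :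
    ∃ b : Finset (Fin n) → k, IsStress Γ σ θ (Finset.univ \ T) (Finset.univ \ T).card b ∧
      LS l (Finset.univ \ T) b ≠ 0 := by
  induction T using Finset.induction_on with
  | empty =>
    refine ⟨mu Γ θ, ?_, ?_⟩
    · rw [Finset.sdiff_empty, Finset.card_univ, Fintype.card_fin]
      exact stress_mu hS hd hθ hD
    · rw [Finset.sdiff_empty]
      exact hLS
  | insert j T hj ih =>
    obtain ⟨b, hb, hb0⟩ := ih
    have hset : Finset.univ \ T = insert j (Finset.univ \ insert j T) := by
      ext x
      simp only [Finset.mem_sdiff, Finset.mem_univ, true_and, Finset.mem_insert, not_or]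
      constructor
      · intro hx
        by_cases hxj : x = j
        · left; exact hxj
        · right; exact ⟨hxj, hx⟩
      · rintro (rfl | h)
        · exact hj
        · exact h.2
    have hjn : j ∉ Finset.univ \ insert j T := by simp
    rw [hset, Finset.card_insert_of_notMem hjn] at hb
    rw [hset] at hb0
    obtain ⟨b', hb', hb'2⟩ := stress_mul hS hθ l hl j _ _ b hb
    refine ⟨b', hb', ?_⟩
    rw [LS_step hS l hl hjn rfl hb hb' hb'2]
    exact hb0

open Classical in
/-- volume forms. -/
noncomputable def vol (θ : Fin n → ((Fin d → k) →ₗ[k] k)) (i : ℕ) (G : Finset (Fin n)) :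
    Alt θ i ∅ :=
  if h : G.card = i then
    (Matrix.detRowAlternating (R := k) (n := Fin i)).compLinearMap
      (LinearMap.pi (fun p => (θ (enu G h p)).comp (VP θ ∅).subtype))
  else 0

theorem vol_apply (θ : Fin n → ((Fin d → k) →ₗ[k] k)) {i : ℕ} {G : Finset (Fin n)}
    (h : G.card = i) (w : Fin i → VP θ ∅) :
    vol θ i G w = Dt θ (enu G h) (fun q => (w q : Fin d → k)) := by
  rw [vol, dif_pos h, AlternatingMap.compLinearMap_apply]
  unfold Dt
  rw [← Matrix.det_transpose]
  rfl

/-- the cycle of a stress. -/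
theorem cycle_of_stress (hS : Sph k Γ σ) {θ : Fin n → ((Fin d → k) →ₗ[k] k)}
    (hθ : ∀ G ∈ Γ, Ind θ G) (S : Finset (Fin d)) (i : ℕ) (b : Finset (Fin n) → k)
    (hb : IsStress Γ σ θ S i b) (hb0 : ∃ G, b G ≠ 0) :
    ∃ z, z ∈ Zm (CC Γ σ ∅ Finset.univ S) θ i i ∧ z ≠ 0 := by
  classical
  refine ⟨fun G => b G • vol θ i G, ⟨mem_Cm.2 ⟨?_, ?_⟩, ?_⟩, ?_⟩
  · intro G
    by_cases hG : b G = 0
    · rw [hG, zero_smul]
      exact Submodule.zero_mem _
    · have hG' : G ∈ Γ ∧ S ⊆ σ G ∧ G.card = i := by
        by_contra h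
        exact hG (hb.supp G h)
      apply Submodule.smul_mem
      intro v hv w hw
      rw [vol_apply θ hG'.2.2]
      obtain ⟨p, hp⟩ := exists_enu G hG'.2.2 hv
      unfold Dt
      apply Matrix.det_eq_zero_of_row_eq_zero p
      intro q
      rw [Matrix.of_apply, hp]
      exact hw q
  · intro G hG
    have : b G = 0 := by
      apply hb.supp
      rintro ⟨h1, h2, h3⟩
      exact hG ⟨⟨h1, Finset.subset_univ _, Finset.empty_subset _, h2⟩, h3⟩
    simp only [this, zero_smul]
  · show dR (CC Γ σ ∅ Finset.univ S) θ i (fun G => b G • vol θ i G) = 0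
    rw [dR_apply]
    funext H
    by_cases hH : H ∈ CC Γ σ ∅ Finset.univ S
    · rw [res_of_mem hH]
      ext w
      have hup : (up (fun G => b G • vol θ i G) H) w =
          ∑ v ∈ Hᶜ, b (insert v H) * (vol θ i (insert v H) w) := by
        unfold up
        have hsum : ∀ (s : Finset (Fin n)) (g : Fin n → Alt θ i ∅),
            (∑ v ∈ s, g v) w = ∑ v ∈ s, g v w := by
          intro s g
          induction s using Finset.induction_on with
          | empty => simp
          | insert a s ha ih =>
            rw [Finset.sum_insert ha, Finset.sum_insert ha, AlternatingMap.add_apply, ih]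
        rw [hsum]
        rfl
      rw [hup]
      show _ = (0 : k)
      by_cases hc : H.card + 1 = i
      · by_cases hne : ∃ v1, v1 ∉ H
        · obtain ⟨v1, hv1⟩ := hne
          obtain ⟨u, hu1, hu2⟩ := Dt_ext θ hc hv1 (fun q => (w q : Fin d → k))
          rw [← hb.bal H hH.1 hH.2.2.2 hc u hu1]
          apply Finset.sum_congr rfl
          intro v hv
          rw [Finset.mem_compl] at hv
          have hcard : (insert v H).card = i := by rw [card_ins hv]; exact hc
          rw [vol_apply θ hcard, hu2 v hv hcard]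
        · apply Finset.sum_eq_zero
          intro v hv
          rw [Finset.mem_compl] at hv
          exact absurd ⟨v, hv⟩ hne
      · apply Finset.sum_eq_zero
        intro v hv
        rw [Finset.mem_compl] at hv
        rw [hb.supp, zero_mul]
        rintro ⟨_, _, h⟩
        rw [card_ins hv] at h
        exact hc h
    · rw [res_of_notMem hH]
      rfl
  · intro h0
    obtain ⟨G, hG⟩ := hb0
    have hG' : G ∈ Γ ∧ S ⊆ σ G ∧ G.card = i := by
      by_contra h
      exact hG (hb.supp G h)
    have hex : ∀ a : Fin n, ∃ u : Fin d → k, a ∈ G →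
        (θ a u = 1 ∧ ∀ v ∈ G, v ≠ a → θ v u = 0) := by
      intro a
      by_cases ha : a ∈ G
      · obtain ⟨u, hu⟩ := hθ G hG'.1 a ha
        exact ⟨u, fun _ => hu⟩
      · exact ⟨0, fun h => absurd h ha⟩
    choose u hu using hex
    have h1 := congrFun h0 G
    have h2 := DFunLike.congr_fun h1 (fun q => (⟨u (enu G hG'.2.2 q), by
      intro v hv; simp at hv⟩ : VP θ ∅))
    have h3 : b G * (vol θ i G (fun q => (⟨u (enu G hG'.2.2 q), by
      intro v hv; simp at hv⟩ : VP θ ∅))) = 0 := h2
    rw [vol_apply θ hG'.2.2] at h3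
    have h4 : Dt θ (enu G hG'.2.2) (fun q => u (enu G hG'.2.2 q)) = 1 := by
      unfold Dt
      have : Matrix.of (fun p q => θ (enu G hG'.2.2 p) (u (enu G hG'.2.2 q))) =
          (1 : Matrix (Fin i) (Fin i) k) := by
        ext p q
        rw [Matrix.of_apply]
        by_cases hpq : p = q
        · subst hpq
          rw [Matrix.one_apply_eq]
          exact (hu _ (enu_mem _ _ _)).1
        · rw [Matrix.one_apply_ne hpq]
          apply (hu _ (enu_mem _ _ _)).2 _ (enu_mem _ _ _)
          intro h
          exact hpq (enu_inj _ _ h)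
      rw [this, Matrix.det_one]
    rw [h4, mul_one] at h3
    exact hG h3

/-- the linear form with given coefficients. -/
noncomputable def lf (x : Fin n × Fin d → k) (v : Fin n) : (Fin d → k) →ₗ[k] k :=
  ∑ j, x (v, j) • LinearMap.proj j

theorem lf_single (x : Fin n × Fin d → k) (v : Fin n) (q : Fin d) :
    lf x v (Pi.single q 1) = x (v, q) := by
  classical
  simp [lf, LinearMap.sum_apply, Pi.single_apply]

theorem ind_of_det (hS : Sph k Γ σ) {θ : Fin n → ((Fin d → k) →ₗ[k] k)}
    (hD : ∀ G ∈ Γ, ∀ h : G.card = d, Dt θ (enu G h) (fun q => Pi.single q 1) ≠ 0) :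
    ∀ G ∈ Γ, Ind θ G := by
  classical
  intro G hG
  obtain ⟨F, hF, hGF⟩ := exists_mx hG (Finset.subset_univ (σ G))
  have hFc : F.card = d := by
    rw [mx_card hS hF, Finset.card_univ, Fintype.card_fin]
  apply Ind.mono _ hGF
  intro a ha
  let M : Matrix (Fin d) (Fin d) k :=
    Matrix.of (fun p q => θ (enu F hFc p) (Pi.single q 1))
  have hM : M.det ≠ 0 := hD F hF.1 hFc
  have hMM : M * M⁻¹ = 1 := Matrix.mul_nonsing_inv M (isUnit_iff_ne_zero.2 hM)
  obtain ⟨p, hp⟩ := exists_enu F hFc ha
  have key : ∀ p', θ (enu F hFc p') (fun q => M⁻¹ q p) = (1 : Matrix (Fin d) (Fin d) k) p' p := by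
    intro p'
    rw [← hMM, Matrix.mul_apply, LinearMap.pi_apply_eq_sum_univ]
    apply Finset.sum_congr rfl
    intro q _
    rw [smul_eq_mul, mul_comm]
    congr 1
    show _ = θ (enu F hFc p') (Pi.single q 1)
    congr 1
    ext j
    simp [Pi.single_apply, eq_comm]
  refine ⟨fun q => M⁻¹ q p, ?_, ?_⟩
  · rw [← hp, key, Matrix.one_apply_eq]
  · intro v hv hva
    obtain ⟨p', hp'⟩ := exists_enu F hFc hv
    rw [← hp', key, Matrix.one_apply_ne]
    rintro rfl
    exact hva (hp'.symm.trans hp)

open Classical in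
/-- generic choice of the linear forms. -/
theorem exists_theta [Infinite k] (hS : Sph k Γ σ)
    (l : Fin n → Fin d) (hl : ∀ G ∈ Γ, ∀ v ∈ G, l v ∈ σ G) :
    ∃ θ : Fin n → ((Fin d → k) →ₗ[k] k),
      (∀ G ∈ Γ, ∀ h : G.card = d, Dt θ (enu G h) (fun q => Pi.single q 1) ≠ 0) ∧
      LS l (Finset.univ : Finset (Fin d)) (mu Γ θ) ≠ 0 := by
  let detP : Finset (Fin n) → MvPolynomial (Fin n × Fin d) k := fun F =>
    if h : F.card = d then
      Matrix.det (Matrix.of (fun p q => (MvPolynomial.X (enu F h p, q) :
        MvPolynomial (Fin n × Fin d) k)))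
    else 1
  let D : (Fin n × Fin d → k) → Finset (Fin n) → k := fun x F =>
    if h : F.card = d then Dt (lf x) (enu F h) (fun q => Pi.single q 1) else 1
  have heval : ∀ x F, MvPolynomial.eval x (detP F) = D x F := by
    intro x F
    by_cases h : F.card = d
    · simp only [detP, D, dif_pos h]
      rw [RingHom.map_det]
      unfold Dt
      congr 1
      ext p q
      simp [lf_single]
    · simp only [detP, D, dif_neg h, map_one]
  let FF1 : Finset (Finset (Fin n)) := Finset.univ.filter (fun F => F ∈ Γ ∧ F.card = d)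
  let FL : Finset (Finset (Fin n)) :=
    Finset.univ.filter (fun F => F ∈ Γ ∧ F.card = d ∧ F.image l = Finset.univ)
  let Q : MvPolynomial (Fin n × Fin d) k :=
    (∏ F ∈ FF1, detP F) * ∑ F ∈ FL, ∏ F' ∈ FL.erase F, detP F'
  have hQ : Q ≠ 0 := by
    apply mul_ne_zero
    · rw [Finset.prod_ne_zero_iff]
      intro F hF
      simp only [FF1, Finset.mem_filter, Finset.mem_univ, true_and] at hF
      intro h0
      have h1 := heval (fun a => if a.1 = enu F hF.2 a.2 then 1 else 0) F
      rw [h0, map_zero] at h1
      simp only [D, dif_pos hF.2] at h1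
      have h2 : Dt (lf (fun a : Fin n × Fin d => if a.1 = enu F hF.2 a.2 then (1 : k) else 0))
          (enu F hF.2) (fun q => Pi.single q 1) = 1 := by
        unfold Dt
        have : Matrix.of (fun p q => lf (fun a : Fin n × Fin d =>
            if a.1 = enu F hF.2 a.2 then (1 : k) else 0) (enu F hF.2 p) (Pi.single q 1)) =
            (1 : Matrix (Fin d) (Fin d) k) := by
          ext p q
          rw [Matrix.of_apply, lf_single]
          by_cases hpq : p = q
          · subst hpq; simp
          · rw [Matrix.one_apply_ne hpq]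
            apply if_neg
            intro h
            exact hpq (enu_inj _ _ h)
        rw [this, Matrix.det_one]
      rw [h2] at h1
      exact zero_ne_one h1
    · intro h0
      have h1 := congrArg (MvPolynomial.eval (fun a : Fin n × Fin d =>
        if l a.1 = a.2 then (1 : k) else 0)) h0
      rw [map_zero, map_sum] at h1
      have h2 : ∀ F ∈ FL, MvPolynomial.eval (fun a : Fin n × Fin d =>
        if l a.1 = a.2 then (1 : k) else 0) (detP F) = 1 := by
        intro F hF
        simp only [FL, Finset.mem_filter, Finset.mem_univ, true_and] at hF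
        rw [heval]
        simp only [D, dif_pos hF.2.1]
        have hbij : Function.Bijective (fun p => l (enu F hF.2.1 p)) := by
          apply Finite.surjective_iff_bijective.1
          intro q
          have hq : q ∈ F.image l := by rw [hF.2.2]; exact Finset.mem_univ _
          obtain ⟨v, hv, rfl⟩ := Finset.mem_image.1 hq
          obtain ⟨p, hp⟩ := exists_enu F hF.2.1 hv
          exact ⟨p, by simp only [hp]⟩
        let π : Equiv.Perm (Fin d) := Equiv.ofBijective _ hbij
        unfold Dt
        have : Matrix.of (fun p q => lf (fun a : Fin n × Fin d =>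
            if l a.1 = a.2 then (1 : k) else 0) (enu F hF.2.1 p) (Pi.single q 1)) =
            (1 : Matrix (Fin d) (Fin d) k).submatrix π id := by
          ext p q
          rw [Matrix.of_apply, lf_single, Matrix.submatrix_apply, id_eq]
          by_cases hpq : l (enu F hF.2.1 p) = q
          · rw [if_pos hpq]
            have : π p = q := hpq
            rw [this, Matrix.one_apply_eq]
          · rw [if_neg hpq, Matrix.one_apply_ne]
            exact hpq
        rw [this, Matrix.det_permute, sign_char_two, one_mul, Matrix.det_one]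
      have h3 : ∀ F ∈ FL, MvPolynomial.eval (fun a : Fin n × Fin d =>
        if l a.1 = a.2 then (1 : k) else 0) (∏ F' ∈ FL.erase F, detP F') = 1 := by
        intro F _
        rw [map_prod]
        apply Finset.prod_eq_one
        intro F' hF'
        exact h2 F' (Finset.mem_of_mem_erase hF')
      rw [Finset.sum_congr rfl h3] at h1
      have h4 := sperner hS l (by
        intro v hv
        exact hl {v} hv v (Finset.mem_singleton_self v))
      rw [h4] at h1
      exact one_ne_zero h1
  obtain ⟨x, hx⟩ : ∃ x, MvPolynomial.eval x Q ≠ 0 := by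
    by_contra hcon
    push Not at hcon
    apply hQ
    apply MvPolynomial.funext
    intro x
    rw [hcon x, map_zero]
  rw [map_mul, map_prod, map_sum] at hx
  simp only [map_prod, heval] at hx
  have hx1 := left_ne_zero_of_mul hx
  have hx2 := right_ne_zero_of_mul hx
  rw [Finset.prod_ne_zero_iff] at hx1
  have hDne : ∀ G ∈ Γ, ∀ h : G.card = d,
      Dt (lf x) (enu G h) (fun q => Pi.single q 1) ≠ 0 := by
    intro G hG h
    have := hx1 G (by simp only [FF1, Finset.mem_filter, Finset.mem_univ, true_and]; exact ⟨hG, h⟩)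
    simp only [D, dif_pos h] at this
    exact this
  refine ⟨lf x, hDne, ?_⟩
  have hLS : LS l (Finset.univ : Finset (Fin d)) (mu Γ (lf x)) = ∑ F ∈ FL, (D x F)⁻¹ := by
    unfold LS
    rw [Finset.sum_filter]
    simp only [FL]
    rw [Finset.sum_filter]
    apply Finset.sum_congr rfl
    intro F _
    rw [Finset.card_univ, Fintype.card_fin]
    by_cases h1 : F.card = d
    · by_cases h2 : F.image l = Finset.univ
      · rw [if_pos ⟨h1, h2⟩]
        by_cases h3 : F ∈ Γ
        · rw [if_pos ⟨h3, h1, h2⟩, mu, dif_pos ⟨h3, h1⟩]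
          simp only [D, dif_pos h1]
        · rw [if_neg (fun h => h3 h.1), mu, dif_neg (fun h => h3 h.1)]
      · rw [if_neg (fun h => h2 h.2), if_neg (fun h => h2 h.2.2)]
    · rw [if_neg (fun h => h1 h.1), if_neg (fun h => h1 h.2.1)]
  rw [hLS]
  have hDF : ∀ F ∈ FL, D x F ≠ 0 := by
    intro F hF
    simp only [FL, Finset.mem_filter, Finset.mem_univ, true_and] at hF
    exact hx1 F (by simp only [FF1, Finset.mem_filter, Finset.mem_univ, true_and]; exact ⟨hF.1, hF.2.1⟩)
  have hprod : ∑ F ∈ FL, ∏ F' ∈ FL.erase F, D x F' =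
      (∏ F ∈ FL, D x F) * ∑ F ∈ FL, (D x F)⁻¹ := by
    rw [Finset.mul_sum]
    apply Finset.sum_congr rfl
    intro F hF
    rw [← Finset.mul_prod_erase _ _ hF]
    have := hDF F hF
    field_simp
  rw [hprod] at hx2
  exact right_ne_zero_of_mul hx2

end

end Pool.Agent.H43
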