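import Pool.Agent.Lib_helper43.C2297.TopLemma

set_option autoImplicit false
set_option linter.unusedSectionVars false

open Finset

namespace Pool.Agent.H43

section
variable {k : Type*} [Field k]
variable {n : ℕ} {M : Type*} [AddCommGroup M] [Module k M]

/-- convex families of finite sets. -/
def Conv (R : Set (Finset (Fin n))) : Prop :=
  ∀ A ∈ R, ∀ C ∈ R, ∀ B, A ⊆ B → B ⊆ C → B ∈ R

/-- sum over the one point extensions. -/
def up (w : Finset (Fin n) → M) (H : Finset (Fin n)) : M := ∑ v ∈ Hᶜ, w (insert v H)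

theorem up_add (w w' : Finset (Fin n) → M) (H : Finset (Fin n)) :
    up (fun G => w G + w' G) H = up w H + up w' H := by
  simp [up, Finset.sum_add_distrib]

theorem up_sub (w w' : Finset (Fin n) → M) (H : Finset (Fin n)) :
    up (fun G => w G - w' G) H = up w H - up w' H := by
  simp [up, Finset.sum_sub_distrib]

theorem up_congr {w w' : Finset (Fin n) → M} {H : Finset (Fin n)}
    (h : ∀ v, v ∉ H → w (insert v H) = w' (insert v H)) : up w H = up w' H := by
  apply Finset.sum_congr rfl
  intro v hv
  exact h v (by simpa using hv)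

theorem up_zero {w : Finset (Fin n) → M} {H : Finset (Fin n)}
    (h : ∀ v, v ∉ H → w (insert v H) = 0) : up w H = 0 := by
  apply Finset.sum_eq_zero
  intro v hv
  exact h v (by simpa using hv)

include k in
variable (k) in
theorem up_up [CharP k 2] (w : Finset (Fin n) → M) (H : Finset (Fin n)) :
    up (up w) H = 0 := by
  unfold up
  rw [Finset.sum_sigma']
  refine Finset.sum_involution (fun p _ => ⟨p.2, p.1⟩) ?_ ?_ ?_ ?_
  · rintro ⟨a, b⟩ h
    simp only
    rw [Finset.insert_comm]
    exact dbl (k := k) _ _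
  · rintro ⟨a, b⟩ h _ heq
    simp only [Finset.mem_sigma, Finset.mem_compl, Finset.mem_insert, not_or] at h
    simp only [Sigma.mk.injEq] at heq
    exact h.2.1 heq.1
  · rintro ⟨a, b⟩ h
    simp only [Finset.mem_sigma, Finset.mem_compl, Finset.mem_insert, not_or] at h ⊢
    exact ⟨h.2.2, fun e => h.2.1 e.symm, h.1⟩
  · rintro ⟨a, b⟩ h
    rfl

open Classical in
/-- restriction of a cochain to a family. -/
noncomputable def res (R : Set (Finset (Fin n))) (w : Finset (Fin n) → M) (G : Finset (Fin n)) :
    M := if G ∈ R then w G else 0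

theorem res_of_mem {R : Set (Finset (Fin n))} {w : Finset (Fin n) → M} {G : Finset (Fin n)}
    (h : G ∈ R) : res R w G = w G := if_pos h

theorem res_of_notMem {R : Set (Finset (Fin n))} {w : Finset (Fin n) → M}
    {G : Finset (Fin n)} (h : G ∉ R) : res R w G = 0 := if_neg h

include k in
variable (k) in
theorem up_res_up [CharP k 2] {R : Set (Finset (Fin n))} (hR : Conv R)
    (w : Finset (Fin n) → M) (hw : ∀ G, G ∉ R → w G = 0) {H : Finset (Fin n)} (hH : H ∈ R) :
    up (res R (up w)) H = 0 := by
  rw [← up_up k w H]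
  apply up_congr
  intro v hv
  by_cases h : insert v H ∈ R
  · rw [res_of_mem h]
  · rw [res_of_notMem h]
    symm
    apply up_zero
    intro u _
    apply hw
    intro h'
    exact h (hR H hH _ h' _ (Finset.subset_insert _ _) (Finset.subset_insert _ _))

theorem exF_iff {R : Set (Finset (Fin n))} {F : Finset (Fin n) → Submodule k M} {m : ℕ} :
    ExF R F m ↔ ∀ z : Finset (Fin n) → M, (∀ G, z G ∈ F G) → (∀ G, G ∉ R → z G = 0) →
    (∀ G, G.card ≠ m → z G = 0) →
    (∀ H ∈ R, up z H = 0) →
    ∃ w : Finset (Fin n) → M, (∀ G, w G ∈ F G) ∧ (∀ G, G ∉ R → w G = 0) ∧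
      (∀ G, G.card ≠ m + 1 → w G = 0) ∧ ∀ H ∈ R, up w H = z H := Iff.rfl

/-- gluing exactness. -/
theorem exF_glue [CharP k 2] {R R' : Set (Finset (Fin n))}
    {F : Finset (Fin n) → Submodule k M} (hF : ∀ G H, G ⊆ H → F H ≤ F G) (hR : Conv R)
    (hsub : R' ⊆ R) (hdown : ∀ G ∈ R', ∀ H ∈ R, H ⊆ G → H ∈ R') {m : ℕ}
    (h1 : ExF R' F m) (h2 : ExF (R \ R') F m) : ExF R F m := by
  rw [exF_iff] at *
  intro z hzF hzR hzm hzc
  obtain ⟨w2, hw2F, hw2R, hw2m, hw2⟩ := h2 (res (R \ R') z) (by
      intro G
      by_cases h : G ∈ R \ R'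
      · rw [res_of_mem h]; exact hzF G
      · rw [res_of_notMem h]; exact Submodule.zero_mem _)
    (fun G hG => res_of_notMem hG) (by
      intro G hG
      by_cases h : G ∈ R \ R'
      · rw [res_of_mem h]; exact hzm G hG
      · rw [res_of_notMem h]) (by
      intro H hH
      rw [← hzc H hH.1]
      apply up_congr
      intro v _
      by_cases h : insert v H ∈ R \ R'
      · rw [res_of_mem h]
      · rw [res_of_notMem h]
        symm
        apply hzR
        intro h'
        apply h
        exact ⟨h', fun h'' => hH.2 (hdown _ h'' H hH.1 (Finset.subset_insert _ _))⟩)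
  have hupF : ∀ G, up w2 G ∈ F G := fun G => Submodule.sum_mem _ (fun v _ =>
    hF _ _ (Finset.subset_insert v G) (hw2F _))
  have hw2R' : ∀ G, G ∉ R → w2 G = 0 := fun G hG => hw2R G (fun h => hG h.1)
  obtain ⟨w1, hw1F, hw1R, hw1m, hw1⟩ := h1 (fun G => z G - res R (up w2) G) (by
      intro G
      refine Submodule.sub_mem _ (hzF G) ?_
      by_cases h : G ∈ R
      · rw [res_of_mem h]; exact hupF G
      · rw [res_of_notMem h]; exact Submodule.zero_mem _)
    (by
      intro G hG
      by_cases h : G ∈ R
      · rw [res_of_mem h, hw2 G ⟨h, hG⟩, res_of_mem (show G ∈ R \ R' from ⟨h, hG⟩), sub_self]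
      · rw [res_of_notMem h, hzR G h, sub_zero])
    (by
      intro G hG
      rw [hzm G hG, zero_sub, neg_eq_zero]
      by_cases h : G ∈ R
      · rw [res_of_mem h]
        apply up_zero
        intro v hv
        apply hw2m
        rw [Finset.card_insert_of_notMem hv]
        omega
      · rw [res_of_notMem h])
    (by
      intro H hH
      rw [up_sub, hzc H (hsub hH), up_res_up k hR w2 hw2R' (hsub hH), sub_self])
  refine ⟨fun G => w1 G + w2 G, fun G => Submodule.add_mem _ (hw1F G) (hw2F G), ?_, ?_, ?_⟩
  · intro G hG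
    simp only
    rw [hw1R G (fun h => hG (hsub h)), hw2R' G hG, add_zero]
  · intro G hG
    simp only
    rw [hw1m G hG, hw2m G hG, add_zero]
  · intro H hH
    rw [up_add]
    by_cases h : H ∈ R'
    · rw [hw1 H h, res_of_mem hH, sub_add_cancel]
    · rw [hw2 H ⟨hH, h⟩, res_of_mem (show H ∈ R \ R' from ⟨hH, h⟩)]
      rw [up_zero, zero_add]
      intro v _
      apply hw1R
      intro h'
      exact h (hdown _ h' H hH (Finset.subset_insert _ _))

/-- exactness of the quotient. -/
theorem exF_quot [CharP k 2] {R R' : Set (Finset (Fin n))}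
    {F : Finset (Fin n) → Submodule k M} (hF : ∀ G H, G ⊆ H → F H ≤ F G) (hR : Conv R)
    (hsub : R' ⊆ R) (hdown : ∀ G ∈ R', ∀ H ∈ R, H ⊆ G → H ∈ R') {m : ℕ}
    (h1 : ExF R F m) (h2 : ∀ m', m' + 1 = m → ExF R' F m') : ExF (R \ R') F m := by
  rw [exF_iff] at *
  intro z hzF hzR hzm hzc
  have hzR' : ∀ G, G ∉ R → z G = 0 := fun G hG => hzR G (fun h => hG h.1)
  have hupF : ∀ G, up z G ∈ F G := fun G => Submodule.sum_mem _ (fun v _ =>
    hF _ _ (Finset.subset_insert v G) (hzF _))
  -- the chain y
  obtain ⟨y, hyF, hyR, hym, hy⟩ : ∃ y : Finset (Fin n) → M, (∀ G, y G ∈ F G) ∧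
      (∀ G, G ∉ R' → y G = 0) ∧ (∀ G, G.card ≠ m → y G = 0) ∧ ∀ H ∈ R', up y H = up z H := by
    rcases Nat.eq_zero_or_pos m with rfl | hm
    · refine ⟨fun _ => 0, fun _ => Submodule.zero_mem _, fun _ _ => rfl, fun _ _ => rfl, ?_⟩
      intro H _
      rw [up_zero (fun _ _ => rfl)]
      symm
      apply up_zero
      intro v hv
      apply hzm
      rw [Finset.card_insert_of_notMem hv]
      omega
    · obtain ⟨m', rfl⟩ : ∃ m', m = m' + 1 := ⟨m - 1, by omega⟩
      have h3 := h2 m' rfl
      rw [exF_iff] at h3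
      obtain ⟨y, hyF, hyR, hym, hy⟩ := h3 (res R' (up z)) (by
        intro G
        by_cases h : G ∈ R'
        · rw [res_of_mem h]; exact hupF G
        · rw [res_of_notMem h]; exact Submodule.zero_mem _)
        (fun G hG => res_of_notMem hG) (by
          intro G hG
          by_cases h : G ∈ R'
          · rw [res_of_mem h]
            apply up_zero
            intro v hv
            apply hzm
            rw [Finset.card_insert_of_notMem hv]
            omega
          · rw [res_of_notMem h]) (by
          intro H hH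
          rw [← up_res_up k hR z hzR' (hsub hH)]
          apply up_congr
          intro v _
          by_cases h : insert v H ∈ R'
          · rw [res_of_mem h, res_of_mem (hsub h)]
          · rw [res_of_notMem h]
            by_cases h' : insert v H ∈ R
            · rw [res_of_mem h', hzc _ ⟨h', h⟩]
            · rw [res_of_notMem h'])
      refine ⟨y, hyF, hyR, hym, ?_⟩
      intro H hH
      rw [hy H hH, res_of_mem hH]
  obtain ⟨w, hwF, hwR, hwm, hw⟩ := h1 (fun G => z G - y G)
    (fun G => Submodule.sub_mem _ (hzF G) (hyF G))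
    (by
      intro G hG
      rw [hzR' G hG, hyR G (fun h => hG (hsub h)), sub_self])
    (by
      intro G hG
      rw [hzm G hG, hym G hG, sub_self])
    (by
      intro H hH
      rw [up_sub]
      by_cases h : H ∈ R'
      · rw [hy H h, sub_self]
      · rw [hzc H ⟨hH, h⟩, zero_sub, neg_eq_zero]
        apply up_zero
        intro v _
        apply hyR
        intro h'
        exact h (hdown _ h' H hH (Finset.subset_insert _ _)))
  refine ⟨res (R \ R') w, ?_, fun G hG => res_of_notMem hG, ?_, ?_⟩
  · intro G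
    by_cases h : G ∈ R \ R'
    · rw [res_of_mem h]; exact hwF G
    · rw [res_of_notMem h]; exact Submodule.zero_mem _
  · intro G hG
    by_cases h : G ∈ R \ R'
    · rw [res_of_mem h]; exact hwm G hG
    · rw [res_of_notMem h]
  · intro H hH
    have h3 := hw H hH.1
    simp only [hyR H hH.2, sub_zero] at h3
    rw [← h3]
    apply up_congr
    intro v _
    by_cases h : insert v H ∈ R \ R'
    · rw [res_of_mem h]
    · rw [res_of_notMem h]
      symm
      by_cases h' : insert v H ∈ R
      · exfalso
        apply h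
        exact ⟨h', fun h'' => hH.2 (hdown _ h'' H hH.1 (Finset.subset_insert _ _))⟩
      · exact hwR _ h'

/-- exactness of a subcomplex. -/
theorem exF_sub [CharP k 2] {R R' : Set (Finset (Fin n))}
    {F : Finset (Fin n) → Submodule k M} (hF : ∀ G H, G ⊆ H → F H ≤ F G) (hR : Conv R)
    (hsub : R' ⊆ R) (hdown : ∀ G ∈ R', ∀ H ∈ R, H ⊆ G → H ∈ R') {m : ℕ}
    (h1 : ExF R F m) (h2 : ExF (R \ R') F (m + 1)) : ExF R' F m := by
  rw [exF_iff] at *
  intro z hzF hzR hzm hzc
  obtain ⟨w, hwF, hwR, hwm, hw⟩ := h1 z hzF (fun G hG => hzR G (fun h => hG (hsub h))) hzm (by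
    intro H hH
    by_cases h : H ∈ R'
    · exact hzc H h
    · apply up_zero
      intro v _
      apply hzR
      intro h'
      exact h (hdown _ h' H hH (Finset.subset_insert _ _)))
  obtain ⟨u, huF, huR, hum, hu⟩ := h2 (res (R \ R') w) (by
      intro G
      by_cases h : G ∈ R \ R'
      · rw [res_of_mem h]; exact hwF G
      · rw [res_of_notMem h]; exact Submodule.zero_mem _)
    (fun G hG => res_of_notMem hG) (by
      intro G hG
      by_cases h : G ∈ R \ R'
      · rw [res_of_mem h]; exact hwm G hG
      · rw [res_of_notMem h]) (by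
      intro H hH
      rw [← hzR H hH.2, ← hw H hH.1]
      apply up_congr
      intro v _
      by_cases h : insert v H ∈ R \ R'
      · rw [res_of_mem h]
      · rw [res_of_notMem h]
        symm
        apply hwR
        intro h'
        apply h
        exact ⟨h', fun h'' => hH.2 (hdown _ h'' H hH.1 (Finset.subset_insert _ _))⟩)
  have huR' : ∀ G, G ∉ R → u G = 0 := fun G hG => huR G (fun h => hG h.1)
  have hupF : ∀ G, up u G ∈ F G := fun G => Submodule.sum_mem _ (fun v _ =>
    hF _ _ (Finset.subset_insert v G) (huF _))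
  refine ⟨fun G => w G - res R (up u) G, ?_, ?_, ?_, ?_⟩
  · intro G
    refine Submodule.sub_mem _ (hwF G) ?_
    by_cases h : G ∈ R
    · rw [res_of_mem h]; exact hupF G
    · rw [res_of_notMem h]; exact Submodule.zero_mem _
  · intro G hG
    simp only
    by_cases h : G ∈ R
    · rw [res_of_mem h, hu G ⟨h, hG⟩, res_of_mem (show G ∈ R \ R' from ⟨h, hG⟩), sub_self]
    · rw [res_of_notMem h, hwR G h, sub_zero]
  · intro G hG
    simp only
    rw [hwm G hG, zero_sub, neg_eq_zero]
    by_cases h : G ∈ R
    · rw [res_of_mem h]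
      apply up_zero
      intro v hv
      apply hum
      rw [Finset.card_insert_of_notMem hv]
      omega
    · rw [res_of_notMem h]
  · intro H hH
    rw [up_sub, hw H (hsub hH), up_res_up k hR u huR' (hsub hH), sub_zero]

end

end Pool.Agent.H43
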