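import Pool.Agent.Lib_helper43.C2297.Homol

set_option autoImplicit false
set_option linter.unusedSectionVars false

open Finset

namespace Pool.Agent.H43

section
variable {n : ℕ}

/-- the largest multiple of `p` below `x` on `G`. -/
noncomputable def lam (G : Finset (Fin n)) (hG : G.Nonempty) (p x : Fin n → ℝ) : ℝ :=
  G.inf' hG (fun v => x v / p v)

/-- barycentric type coordinates. -/
def Bar (x : Fin n → ℝ) : Prop := (∀ j, 0 ≤ x j) ∧ ∑ j, x j = 1

theorem geo_bar {K : Set (Finset (Fin n))} {x : Fin n → ℝ} (hx : x ∈ Geo K) : Bar x :=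
  ⟨hx.1, hx.2.1⟩

variable {G : Finset (Fin n)} {hG : G.Nonempty} {p x : Fin n → ℝ}

theorem pos_of_spt (hp : Bar p) (hpG : spt p = G) {v : Fin n} (hv : v ∈ G) : 0 < p v := by
  rw [← hpG, mem_spt] at hv
  exact lt_of_le_of_ne (hp.1 v) (Ne.symm hv)

theorem zero_of_spt (hpG : spt p = G) {v : Fin n} (hv : v ∉ G) : p v = 0 := by
  rw [← hpG, mem_spt, not_not] at hv
  exact hv

theorem lam_nonneg (hp : Bar p) (hx : Bar x) : 0 ≤ lam G hG p x := by
  apply Finset.le_inf'
  intro v _
  exact div_nonneg (hx.1 v) (hp.1 v)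

theorem lam_mul_le (hp : Bar p) (hpG : spt p = G) (hx : Bar x) (v : Fin n) :
    lam G hG p x * p v ≤ x v := by
  by_cases hv : v ∈ G
  · have h1 : lam G hG p x ≤ x v / p v := Finset.inf'_le _ hv
    rwa [le_div_iff₀ (pos_of_spt hp hpG hv)] at h1
  · rw [zero_of_spt hpG hv, mul_zero]
    exact hx.1 v

theorem lam_le_one (hp : Bar p) (hpG : spt p = G) (hx : Bar x) : lam G hG p x ≤ 1 := by
  have h : ∑ v, lam G hG p x * p v ≤ ∑ v, x v :=
    Finset.sum_le_sum (fun v _ => lam_mul_le hp hpG hx v)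
  rwa [← Finset.mul_sum, hp.2, hx.2, mul_one] at h

theorem eq_of_lam_eq_one (hp : Bar p) (hpG : spt p = G) (hx : Bar x)
    (h : lam G hG p x = 1) : x = p := by
  have h1 : ∀ v ∈ (Finset.univ : Finset (Fin n)), p v ≤ x v := by
    intro v _
    have := lam_mul_le (hG := hG) hp hpG hx v
    rwa [h, one_mul] at this
  have h2 : ∑ v, p v = ∑ v, x v := by rw [hp.2, hx.2]
  have h3 := (Finset.sum_eq_sum_iff_of_le h1).1 h2
  ext v
  exact (h3 v (Finset.mem_univ v)).symm

theorem lam_eq_zero (hp : Bar p) (hx : Bar x) (h : ¬ G ⊆ spt x) : lam G hG p x = 0 := by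
  rw [Finset.not_subset] at h
  obtain ⟨v, hv, hvx⟩ := h
  rw [mem_spt, not_not] at hvx
  apply le_antisymm _ (lam_nonneg hp hx)
  have : lam G hG p x ≤ x v / p v := Finset.inf'_le _ hv
  rwa [hvx, zero_div] at this

theorem continuous_lam (G : Finset (Fin n)) (hG : G.Nonempty) (p : Fin n → ℝ) :
    Continuous (lam G hG p) := by
  unfold lam
  apply Continuous.finset_inf'_apply
  intro v _
  exact (continuous_apply v).div_const _

/-- pushing away from `p`. -/
noncomputable def psh (G : Finset (Fin n)) (hG : G.Nonempty) (p : Fin n → ℝ) (s : ℝ)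
    (x : Fin n → ℝ) : Fin n → ℝ :=
  (1 - s * lam G hG p x)⁻¹ • (x - (s * lam G hG p x) • p)

theorem mul_lt_one_of_ne (hp : Bar p) (hpG : spt p = G) (hx : Bar x) {s : ℝ} (hs0 : 0 ≤ s)
    (hs1 : s ≤ 1) (h : x ≠ p ∨ s ≠ 1) : s * lam G hG p x < 1 := by
  have h0 := lam_nonneg (hG := hG) hp hx
  have h1 := lam_le_one (hG := hG) hp hpG hx
  rcases h with h | h
  · have h2 : lam G hG p x < 1 :=
      lt_of_le_of_ne h1 (fun e => h (eq_of_lam_eq_one hp hpG hx e))
    nlinarith
  · have h2 : s < 1 := lt_of_le_of_ne hs1 h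
    nlinarith

theorem psh_bar (hp : Bar p) (hpG : spt p = G) (hx : Bar x) {s : ℝ} (hs0 : 0 ≤ s)
    (hs1 : s ≤ 1) (h : s * lam G hG p x < 1) :
    Bar (psh G hG p s x) ∧ spt (psh G hG p s x) ⊆ spt x := by
  have hpos : 0 < 1 - s * lam G hG p x := by linarith
  have h0 := lam_nonneg (hG := hG) hp hx
  have hle : ∀ v, s * lam G hG p x * p v ≤ x v := by
    intro v
    have h1 := lam_mul_le (hG := hG) hp hpG hx v
    have h2 : 0 ≤ lam G hG p x * p v := mul_nonneg h0 (hp.1 v)
    nlinarith
  refine ⟨⟨?_, ?_⟩, ?_⟩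
  · intro v
    simp only [psh, Pi.smul_apply, Pi.sub_apply, smul_eq_mul]
    exact mul_nonneg (inv_nonneg.2 hpos.le) (sub_nonneg.2 (hle v))
  · simp only [psh, Pi.smul_apply, Pi.sub_apply, smul_eq_mul]
    rw [← Finset.mul_sum, Finset.sum_sub_distrib, ← Finset.mul_sum, hp.2, hx.2, mul_one]
    exact inv_mul_cancel₀ hpos.ne'
  · intro v hv
    rw [mem_spt] at hv ⊢
    intro hxv
    apply hv
    simp only [psh, Pi.smul_apply, Pi.sub_apply, smul_eq_mul]
    have h1 := hle v
    have h2 : 0 ≤ s * lam G hG p x * p v := mul_nonneg (mul_nonneg hs0 h0) (hp.1 v)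
    rw [hxv] at h1 ⊢
    have : s * lam G hG p x * p v = 0 := le_antisymm h1 h2
    rw [this, sub_zero, mul_zero]

theorem psh_not (hp : Bar p) (hpG : spt p = G) :
    ¬ G ⊆ spt (psh G hG p 1 x) := by
  obtain ⟨v, hv, h⟩ := Finset.exists_mem_eq_inf' hG (fun v => x v / p v)
  intro hsub
  have h1 := hsub hv
  rw [mem_spt] at h1
  apply h1
  have hpv := pos_of_spt hp hpG hv
  have h2 : lam G hG p x = x v / p v := h
  simp only [psh, Pi.smul_apply, Pi.sub_apply, smul_eq_mul, one_mul]
  have h3 : lam G hG p x * p v = x v := by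
    rw [h2, div_mul_cancel₀ _ hpv.ne']
  rw [h3, sub_self, mul_zero]

theorem psh_id (hp : Bar p) (hx : Bar x) {s : ℝ} (h : ¬ G ⊆ spt x) :
    psh G hG p s x = x := by
  simp [psh, lam_eq_zero hp hx h]

theorem psh_zero : psh G hG p 0 x = x := by simp [psh]

theorem psh_ne {s : ℝ} (h : s * lam G hG p x < 1) (hxp : x ≠ p) : psh G hG p s x ≠ p := by
  intro he
  apply hxp
  have hpos : 1 - s * lam G hG p x ≠ 0 := by linarith
  have h2 : x - (s * lam G hG p x) • p = (1 - s * lam G hG p x) • p := by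
    rwa [psh, inv_smul_eq_iff₀ hpos] at he
  rw [sub_smul, one_smul] at h2
  exact sub_left_injective h2

theorem continuousOn_psh (G : Finset (Fin n)) (hG : G.Nonempty) (p : Fin n → ℝ)
    {Z : Type*} [TopologicalSpace Z] {D : Set Z} {s : Z → ℝ} {y : Z → (Fin n → ℝ)}
    (hs : ContinuousOn s D) (hy : ContinuousOn y D)
    (h : ∀ z ∈ D, s z * lam G hG p (y z) < 1) :
    ContinuousOn (fun z => psh G hG p (s z) (y z)) D := by
  have hl : ContinuousOn (fun z => s z * lam G hG p (y z)) D :=
    hs.mul ((continuous_lam G hG p).comp_continuousOn hy)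
  unfold psh
  apply ContinuousOn.fun_smul
  · apply ContinuousOn.inv₀
    · exact continuousOn_const.sub hl
    · intro z hz
      have := h z hz
      linarith
  · exact hy.sub (hl.smul continuousOn_const)

/-- a parametrization of the realization by the unit ball of a normed space. -/
structure BallData (K : Set (Finset (Fin n))) (E : Type*) [NormedAddCommGroup E]
    [NormedSpace ℝ E] where
  /-- forward map -/
  Φ : (Fin n → ℝ) → E
  /-- backward map -/
  Ψ : E → (Fin n → ℝ)
  cΦ : ContinuousOn Φ (Geo K)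
  cΨ : ContinuousOn Ψ (Metric.closedBall 0 1)
  mΦ : ∀ x ∈ Geo K, ‖Φ x‖ ≤ 1
  mΨ : ∀ y, ‖y‖ ≤ 1 → Ψ y ∈ Geo K
  left : ∀ x ∈ Geo K, Ψ (Φ x) = x
  right : ∀ y, ‖y‖ ≤ 1 → Φ (Ψ y) = y

variable {k : Type*} [Field k] [CharP k 2]
variable {K : Set (Finset (Fin n))}
variable {E : Type*} [NormedAddCommGroup E] [NormedSpace ℝ E]

theorem conv_sdiff {K L : Set (Finset (Fin n))} (hK : Down K) (hL : Down L) :
    Conv (K \ L) := by
  intro A hA C hC B hAB hBC
  exact ⟨hK C hC.1 B hBC, fun h => hA.2 (hL B h A hAB)⟩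

theorem conv_of_down {K : Set (Finset (Fin n))} (hK : Down K) : Conv K := by
  intro A _ C hC B _ hBC
  exact hK C hC B hBC

theorem norm_comb_le {a b : E} (ha : ‖a‖ ≤ 1) (hb : ‖b‖ ≤ 1) {t : ℝ} (ht : t ∈ Set.Icc (0:ℝ) 1) :
    ‖(1 - t) • a + t • b‖ ≤ 1 := by
  have h1 : 0 ≤ 1 - t := by linarith [ht.2]
  calc ‖(1 - t) • a + t • b‖ ≤ ‖(1 - t) • a‖ + ‖t • b‖ := norm_add_le _ _
    _ = (1 - t) * ‖a‖ + t * ‖b‖ := by
        rw [norm_smul, norm_smul, Real.norm_of_nonneg h1, Real.norm_of_nonneg ht.1]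
    _ ≤ (1 - t) * 1 + t * 1 := by
        gcongr
        exact ht.1
    _ = 1 := by ring

/-- (A): the complex is acyclic. -/
theorem exA (hK : Down K) (B : BallData K E) (m : ℕ) : Ex k K m := by
  -- a vertex
  have hx0 : B.Ψ 0 ∈ Geo K := B.mΨ 0 (by simp)
  obtain ⟨c, hc⟩ : ∃ c, c ∈ spt (B.Ψ 0) := by
    by_contra h
    push Not at h
    have : ∑ j, B.Ψ 0 j = 0 := by
      apply Finset.sum_eq_zero
      intro j _
      have := h j
      rwa [mem_spt, not_not] at this
    rw [hx0.2.1] at this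
    exact one_ne_zero this
  have hcK : {c} ∈ K := hK _ hx0.2.2 _ (by simpa using hc)
  have h0K : ∅ ∈ K := hK _ hx0.2.2 _ (by simp)
  set L : Set (Finset (Fin n)) := {∅, {c}} with hLdef
  have hL : Down L := by
    intro G hG H hH
    rcases hG with rfl | hG
    · left; exact Finset.subset_empty.1 hH
    · rw [Set.mem_singleton_iff] at hG
      subst hG
      rcases Finset.subset_singleton_iff.1 hH with h | h
      · left; exact h
      · right; exact h
  have hLK : L ⊆ K := by
    rintro G (rfl | hG)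
    · exact h0K
    · rw [Set.mem_singleton_iff] at hG
      subst hG
      exact hcK
  have hvK : vx c ∈ Geo K := fac_subset_geo hK hcK (vx_mem_fac (Finset.mem_singleton_self c))
  have hvL : vx c ∈ Geo L :=
    fac_subset_geo hL (Or.inr rfl) (vx_mem_fac (Finset.mem_singleton_self c))
  have hLpt : ∀ x ∈ Geo L, x = vx c := by
    intro x hx
    have h1 : spt x ⊆ {c} := by
      rcases hx.2.2 with h | h
      · rw [h]; simp
      · rw [Set.mem_singleton_iff] at h
        rw [h]
    have h2 : ∀ j, j ≠ c → x j = 0 := by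
      intro j hj
      by_contra h
      exact hj (Finset.mem_singleton.1 (h1 ((mem_spt x j).2 h)))
    have h3 : x c = 1 := by
      rw [← hx.2.1]
      exact (Finset.sum_eq_single c (fun j _ hj => h2 j hj) (by simp)).symm
    ext j
    by_cases hj : j = c
    · subst hj; simp [vx, h3]
    · rw [h2 j hj]
      simp [vx, hj]
  have hbd : ∀ t ∈ Set.Icc (0:ℝ) 1, ∀ x ∈ Geo K,
      ‖(1 - t) • B.Φ x + t • B.Φ (vx c)‖ ≤ 1 := fun t ht x hx =>
    norm_comb_le (B.mΦ x hx) (B.mΦ _ hvK) ht
  have hquot : ∀ m, Ex k (K \ L) m := by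
    intro m
    refine topLemma K L hK hL hLK (Or.inl rfl)
      (fun q => B.Ψ ((1 - q.1) • B.Φ q.2 + q.1 • B.Φ (vx c))) ?_ ?_ ?_ ?_ ?_ m
    · apply B.cΨ.comp
      · apply ContinuousOn.add
        · apply ContinuousOn.smul
          · exact (continuous_const.sub continuous_fst).continuousOn
          · exact B.cΦ.comp continuous_snd.continuousOn (fun q hq => hq.2)
        · exact continuous_fst.continuousOn.smul continuousOn_const
      · intro q hq
        rw [Metric.mem_closedBall, dist_zero_right]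
        exact hbd q.1 hq.1 q.2 hq.2
    · intro t ht x hx
      exact B.mΨ _ (hbd t ht x hx)
    · intro t ht x hx
      have : x = vx c := hLpt x hx
      subst this
      simp only
      rw [← add_smul, sub_add_cancel, one_smul, B.left _ hvK]
      exact hvL
    · intro x hx
      simp only [sub_zero, one_smul, zero_smul, add_zero]
      rw [B.left x hx]
    · intro x _
      simp only [sub_self, zero_smul, one_smul, zero_add]
      rw [B.left _ hvK]
      exact hvL
  have hsub : Ex k L m := by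
    intro z _ hzR hzm hzc
    rcases Nat.eq_zero_or_pos m with rfl | hm
    · refine ⟨fun G => if G = {c} then z ∅ else 0, fun _ => Submodule.mem_top, ?_, ?_, ?_⟩
      · intro G hG
        refine if_neg (fun h => hG ?_)
        rw [h]
        exact Or.inr rfl
      · intro G hG
        refine if_neg (fun h => hG ?_)
        rw [h]; simp
      · intro H hH
        simp only
        rcases hH with rfl | hH
        · rw [Finset.sum_eq_single c]
          · simp
          · intro b _ hb
            rw [if_neg]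
            intro h
            exact hb (by simpa using h)
          · simp
        · rw [Set.mem_singleton_iff] at hH
          subst hH
          rw [hzm {c} (by simp)]
          apply Finset.sum_eq_zero
          intro v hv
          rw [if_neg]
          intro h
          have : v ∈ ({c} : Finset (Fin n)) := by rw [← h]; simp
          simp at hv this
          exact hv this
    · have hz0 : ∀ G, z G = 0 := by
        intro G
        by_cases hG : G ∈ L
        · rcases hG with rfl | hG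
          · apply hzm; simp; omega
          · rw [Set.mem_singleton_iff] at hG
            subst hG
            have := hzc ∅ (Or.inl rfl)
            rw [Finset.sum_eq_single c] at this
            · simpa using this
            · intro b _ hb
              apply hzR
              rintro (h | h)
              · simp at h
              · rw [Set.mem_singleton_iff] at h
                exact hb (by simpa using h)
            · simp
        · exact hzR G hG
      refine ⟨fun _ => 0, fun _ => Submodule.zero_mem _, fun _ _ => rfl, fun _ _ => rfl, ?_⟩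
      intro H _
      simp [hz0]
  apply exF_glue (fun _ _ _ => le_rfl) (conv_of_down hK) hLK _ hsub (hquot m)
  intro G hG H _ hH
  exact hL G hG H hH

/-- (B): stars of boundary faces are acyclic. -/
theorem exB (hK : Down K) (B : BallData K E) (G : Finset (Fin n)) (hG : G.Nonempty)
    (hGK : G ∈ K) (p : Fin n → ℝ) (hp : Bar p) (hpG : spt p = G) (hpB : 1 ≤ ‖B.Φ p‖)
    (m : ℕ) : Ex k {H | H ∈ K ∧ G ⊆ H} m := by
  set L : Set (Finset (Fin n)) := {H | H ∈ K ∧ ¬ G ⊆ H} with hLdef
  have hL : Down L := fun A hA H hH => ⟨hK A hA.1 H hH, fun h => hA.2 (h.trans hH)⟩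
  have hLK : L ⊆ K := fun A hA => hA.1
  have h0L : ∅ ∈ L := by
    refine ⟨hK G hGK ∅ (by simp), ?_⟩
    rw [Finset.subset_empty]
    exact hG.ne_empty
  have hpK : p ∈ Geo K := ⟨hp.1, hp.2, by rw [hpG]; exact hGK⟩
  have hset : {H | H ∈ K ∧ G ⊆ H} = K \ L := by
    ext H
    constructor
    · rintro ⟨h1, h2⟩
      exact ⟨h1, fun h => h.2 h2⟩
    · rintro ⟨h1, h2⟩
      refine ⟨h1, ?_⟩
      by_contra h
      exact h2 ⟨h1, h⟩
  rw [hset]
  have hbd : ∀ t ∈ Set.Icc (0:ℝ) 1, ∀ x ∈ Geo K, ‖(1 - t) • B.Φ x‖ ≤ 1 := by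
    intro t ht x hx
    have := norm_comb_le (B.mΦ x hx) (b := (0 : E)) (by simp) ht
    simpa using this
  -- the first homotopy
  let y : ℝ × (Fin n → ℝ) → (Fin n → ℝ) := fun q => B.Ψ ((1 - q.1) • B.Φ q.2)
  have hyc : ContinuousOn y (Set.Icc 0 1 ×ˢ Geo K) := by
    apply B.cΨ.comp
    · apply ContinuousOn.smul
      · exact (continuous_const.sub continuous_fst).continuousOn
      · exact B.cΦ.comp continuous_snd.continuousOn (fun q hq => hq.2)
    · intro q hq
      rw [Metric.mem_closedBall, dist_zero_right]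
      exact hbd q.1 hq.1 q.2 hq.2
  have hyK : ∀ t ∈ Set.Icc (0:ℝ) 1, ∀ x ∈ Geo K, y (t, x) ∈ Geo K := fun t ht x hx =>
    B.mΨ _ (hbd t ht x hx)
  have hyne : ∀ t ∈ Set.Icc (0:ℝ) 1, ∀ x ∈ Geo K, (x ≠ p ∨ t = 1) → y (t, x) ≠ p := by
    intro t ht x hx hor he
    have h1 : (1 - t) • B.Φ x = B.Φ p := by
      rw [← he]
      exact (B.right _ (hbd t ht x hx)).symm
    have h2 : ‖(1 - t) • B.Φ x‖ ≤ (1 - t) * 1 := by
      rw [norm_smul, Real.norm_of_nonneg (by linarith [ht.2])]
      have := B.mΦ x hx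
      have h1t : 0 ≤ 1 - t := by linarith [ht.2]
      gcongr
    rw [h1] at h2
    have ht0 : t = 0 := le_antisymm (by linarith) ht.1
    rcases hor with h | h
    · apply h
      rw [ht0, sub_zero, one_smul] at h1
      rw [← B.left x hx, h1, B.left p hpK]
    · rw [ht0] at h
      exact zero_ne_one h
  -- the compact set of values to be kept away from p
  set S : Set (Fin n → ℝ) := y '' (Set.Icc 0 1 ×ˢ Geo L ∪ {1} ×ˢ Geo K) with hSdef
  have hScomp : IsCompact S := by
    apply IsCompact.image_of_continuousOn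
    · exact (isCompact_Icc.prod (isCompact_geo hL)).union
        (isCompact_singleton.prod (isCompact_geo hK))
    · apply hyc.mono
      rintro q (hq | hq)
      · exact ⟨hq.1, geo_mono hLK hq.2⟩
      · refine ⟨?_, hq.2⟩
        rw [hq.1]
        simp
  have hpS : p ∉ S := by
    rintro ⟨⟨t, x⟩, hq, he⟩
    rcases hq with hq | hq
    · refine hyne t hq.1 x (geo_mono hLK hq.2) (Or.inl ?_) he
      rintro rfl
      apply hq.2.2.2.2
      rw [hpG]
    · have ht : t = 1 := hq.1
      refine hyne t (by rw [ht]; simp) x hq.2 (Or.inr ht) he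
  obtain ⟨δ, hδ, hball⟩ := Metric.mem_nhds_iff.1 (hScomp.isClosed.isOpen_compl.mem_nhds hpS)
  have hfar : ∀ z ∈ S, δ ≤ dist z p := by
    intro z hz
    by_contra h
    push Not at h
    exact hball (Metric.mem_ball.2 h) hz
  let s : ℝ × (Fin n → ℝ) → ℝ := fun q => min 1 (dist (y q) p / δ)
  have hs0 : ∀ q, 0 ≤ s q := fun q => le_min zero_le_one (by positivity)
  have hs1 : ∀ q, s q ≤ 1 := fun q => min_le_left _ _
  have hsS : ∀ q, y q ∈ S → s q = 1 := by
    intro q hq
    apply min_eq_left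
    rw [le_div_iff₀ hδ, one_mul]
    exact hfar _ hq
  have hlt : ∀ q ∈ Set.Icc (0:ℝ) 1 ×ˢ Geo K, s q * lam G hG p (y q) < 1 := by
    intro q hq
    apply mul_lt_one_of_ne hp hpG (geo_bar (hyK q.1 hq.1 q.2 hq.2)) (hs0 q) (hs1 q)
    by_cases h : y q = p
    · right
      simp [s, h]
    · left; exact h
  refine topLemma K L hK hL hLK h0L (fun q => psh G hG p (s q) (y q)) ?_ ?_ ?_ ?_ ?_ m
  · apply continuousOn_psh G hG p _ hyc hlt
    apply ContinuousOn.inf continuousOn_const
    have hd : Continuous (fun z : Fin n → ℝ => dist z p / δ) :=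
      (continuous_id.dist continuous_const).div_const _
    exact hd.comp_continuousOn hyc
  · intro t ht x hx
    have h1 := psh_bar (hG := hG) hp hpG (geo_bar (hyK t ht x hx)) (hs0 (t, x)) (hs1 (t, x))
      (hlt (t, x) ⟨ht, hx⟩)
    exact ⟨h1.1.1, h1.1.2, hK _ (hyK t ht x hx).2.2 _ h1.2⟩
  · intro t ht x hx
    have hxK := geo_mono hLK hx
    have h1 := psh_bar (hG := hG) hp hpG (geo_bar (hyK t ht x hxK)) (hs0 (t, x)) (hs1 (t, x))
      (hlt (t, x) ⟨ht, hxK⟩)
    refine ⟨h1.1.1, h1.1.2, hK _ (hyK t ht x hxK).2.2 _ h1.2, ?_⟩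
    rw [hsS (t, x) ⟨(t, x), Or.inl ⟨ht, hx⟩, rfl⟩]
    exact psh_not hp hpG
  · intro x hx
    have h0I : (0:ℝ) ∈ Set.Icc (0:ℝ) 1 := by simp
    have h1 := psh_bar (hG := hG) hp hpG (geo_bar (hyK 0 h0I x hx)) (hs0 (0, x)) (hs1 (0, x))
      (hlt (0, x) ⟨h0I, hx⟩)
    refine h1.2.trans ?_
    simp only [y, sub_zero, one_smul]
    rw [B.left x hx]
  · intro x hx
    have h1I : (1:ℝ) ∈ Set.Icc (0:ℝ) 1 := by simp
    have h1 := psh_bar (hG := hG) hp hpG (geo_bar (hyK 1 h1I x hx)) (hs0 (1, x)) (hs1 (1, x))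
      (hlt (1, x) ⟨h1I, hx⟩)
    refine ⟨h1.1.1, h1.1.2, hK _ (hyK 1 h1I x hx).2.2 _ h1.2, ?_⟩
    rw [hsS (1, x) ⟨(1, x), Or.inr ⟨rfl, hx⟩, rfl⟩]
    exact psh_not hp hpG

end

end Pool.Agent.H43
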