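import Pool.Agent.Lib_helper43.C2297.Local

set_option autoImplicit false
set_option linter.unusedSectionVars false

open Finset

namespace Pool.Agent.H43

section
variable {n : ℕ}
variable {k : Type*} [Field k] [CharP k 2]
variable {K : Set (Finset (Fin n))}
variable {E : Type*} [NormedAddCommGroup E] [NormedSpace ℝ E]

/-- distance away from a compact set. -/
theorem exists_far {X : Type*} [MetricSpace X] {S : Set X} (hS : IsCompact S) {p : X}
    (hp : p ∉ S) : ∃ δ > 0, ∀ z ∈ S, δ ≤ dist z p := by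
  obtain ⟨δ, hδ, hball⟩ := Metric.mem_nhds_iff.1 (hS.isClosed.isOpen_compl.mem_nhds hp)
  refine ⟨δ, hδ, ?_⟩
  intro z hz
  by_contra h
  push Not at h
  exact hball (Metric.mem_ball.2 h) hz

open Classical in
/-- barycentre of a face. -/
theorem exists_bar (F : Finset (Fin n)) (hF : F.Nonempty) :
    ∃ b : Fin n → ℝ, Bar b ∧ spt b = F := by
  have hc : (0 : ℝ) < F.card := by exact_mod_cast hF.card_pos
  refine ⟨fun v => if v ∈ F then (F.card : ℝ)⁻¹ else 0, ⟨?_, ?_⟩, ?_⟩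
  · intro j
    simp only
    split_ifs
    · positivity
    · exact le_rfl
  · rw [Finset.sum_ite_mem, Finset.univ_inter, Finset.sum_const, nsmul_eq_mul]
    exact mul_inv_cancel₀ hc.ne'
  · ext v
    rw [mem_spt]
    by_cases h : v ∈ F
    · simp [h, hc.ne']
    · simp [h]

/-- (C): moving inside the interior. -/
theorem exC (hK : Down K) (B : BallData K E) (G F : Finset (Fin n)) (hG : G.Nonempty)
    (hFK : F ∈ K) (hGF : G ⊆ F) (p : Fin n → ℝ) (hp : Bar p) (hpG : spt p = G)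
    (hpB : ‖B.Φ p‖ < 1) (m : ℕ) : Ex k {H | H ∈ K ∧ ¬ F ⊆ H ∧ G ⊆ H} m := by
  have hF : F.Nonempty := hG.mono hGF
  have hGK : G ∈ K := hK F hFK G hGF
  set K' : Set (Finset (Fin n)) := {H | H ∈ K ∧ ¬ F ⊆ H} with hK'def
  set L : Set (Finset (Fin n)) := {H | H ∈ K ∧ ¬ G ⊆ H} with hLdef
  have hL : Down L := fun A hA H hH => ⟨hK A hA.1 H hH, fun h => hA.2 (h.trans hH)⟩
  have hK' : Down K' := fun A hA H hH => ⟨hK A hA.1 H hH, fun h => hA.2 (h.trans hH)⟩
  have hLK' : L ⊆ K' := fun A hA => ⟨hA.1, fun h => hA.2 (hGF.trans h)⟩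
  have hLK : L ⊆ K := fun A hA => hA.1
  have hK'K : K' ⊆ K := fun A hA => hA.1
  have h0L : ∅ ∈ L := by
    refine ⟨hK G hGK ∅ (by simp), ?_⟩
    rw [Finset.subset_empty]
    exact hG.ne_empty
  have hpK : p ∈ Geo K := ⟨hp.1, hp.2, by rw [hpG]; exact hGK⟩
  have hset : {H | H ∈ K ∧ ¬ F ⊆ H ∧ G ⊆ H} = K' \ L := by
    ext H
    constructor
    · rintro ⟨h1, h2, h3⟩
      exact ⟨⟨h1, h2⟩, fun h => h.2 h3⟩
    · rintro ⟨⟨h1, h2⟩, h3⟩
      refine ⟨h1, h2, ?_⟩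
      by_contra h
      exact h3 ⟨h1, h⟩
  rw [hset]
  have hinj : ∀ x ∈ Geo K, ∀ y ∈ Geo K, B.Φ x = B.Φ y → x = y := by
    intro x hx y hy h
    rw [← B.left x hx, h, B.left y hy]
  set c := B.Φ p with hcdef
  -- the radius r
  obtain ⟨r, hr, hr1, hrL⟩ : ∃ r > 0, r ≤ 1 - ‖c‖ ∧ ∀ x ∈ Geo L, r ≤ dist (B.Φ x) c := by
    have h1 : IsCompact (B.Φ '' Geo L) :=
      (isCompact_geo hL).image_of_continuousOn (B.cΦ.mono (geo_mono hLK))
    have h2 : c ∉ B.Φ '' Geo L := by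
      rintro ⟨x, hx, he⟩
      have := hinj x (geo_mono hLK hx) p hpK he
      subst this
      apply hx.2.2.2
      rw [hpG]
    obtain ⟨r1, hr1, hfar⟩ := exists_far h1 h2
    refine ⟨min r1 (1 - ‖c‖), lt_min hr1 (by linarith), min_le_right _ _, ?_⟩
    intro x hx
    exact (min_le_left _ _).trans (hfar _ ⟨x, hx, rfl⟩)
  -- the compact set Mset
  set Mset : Set (Fin n → ℝ) := Geo K ∩ B.Φ ⁻¹' {y | r / 4 ≤ dist y c} with hMdef
  have hMclosed : IsClosed Mset := by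
    apply B.cΦ.preimage_isClosed_of_isClosed (isCompact_geo hK).isClosed
    exact isClosed_le continuous_const (continuous_id.dist continuous_const)
  have hMcomp : IsCompact Mset :=
    (isCompact_geo hK).of_isClosed_subset hMclosed Set.inter_subset_left
  have hMp : ∀ y ∈ Mset, y ≠ p := by
    rintro y hy rfl
    have : r / 4 ≤ dist (B.Φ y) c := hy.2
    rw [hcdef, dist_self] at this
    linarith
  set T : Set (Fin n → ℝ) := (fun q : ℝ × (Fin n → ℝ) => psh G hG p q.1 q.2) ''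
    (Set.Icc 0 1 ×ˢ Mset) with hTdef
  have hltM : ∀ q ∈ Set.Icc (0:ℝ) 1 ×ˢ Mset, q.1 * lam G hG p q.2 < 1 := by
    intro q hq
    exact mul_lt_one_of_ne hp hpG (geo_bar hq.2.1) hq.1.1 hq.1.2 (Or.inl (hMp _ hq.2))
  have hTcomp : IsCompact T := by
    apply (isCompact_Icc.prod hMcomp).image_of_continuousOn
    exact continuousOn_psh G hG p continuous_fst.continuousOn continuous_snd.continuousOn hltM
  have hpT : p ∉ T := by
    rintro ⟨q, hq, he⟩
    exact psh_ne (hltM q hq) (hMp _ hq.2) he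
  obtain ⟨δ, hδ, hfar⟩ := exists_far hTcomp hpT
  -- the point p'
  obtain ⟨b, hb, hbF⟩ := exists_bar F hF
  obtain ⟨p', hp', hp'F, hp'd, hp'c⟩ : ∃ p' : Fin n → ℝ, Bar p' ∧ spt p' = F ∧
      dist p' p < δ ∧ dist (B.Φ p') c < r / 4 := by
    let g : ℝ → (Fin n → ℝ) := fun s => (1 - s) • p + s • b
    have hg : Continuous g := by
      apply Continuous.add
      · exact (continuous_const.sub continuous_id).smul continuous_const
      · exact continuous_id.smul continuous_const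
    have hgF : ∀ s ∈ Set.Icc (0:ℝ) 1, g s ∈ Fac F := by
      intro s hs
      apply convex_fac F _ _ (by linarith [hs.2]) hs.1 (by ring)
      · exact ⟨hp.1, hp.2, fun j hj => zero_of_spt hpG (fun h => hj (hGF h))⟩
      · exact ⟨hb.1, hb.2, fun j hj => zero_of_spt hbF hj⟩
    have hgK : ∀ s ∈ Set.Icc (0:ℝ) 1, g s ∈ Geo K := fun s hs =>
      fac_subset_geo hK hFK (hgF s hs)
    have hg0 : g 0 = p := by simp [g]
    have hcont : ContinuousOn (fun s => B.Φ (g s)) (Set.Icc 0 1) :=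
      B.cΦ.comp hg.continuousOn hgK
    rw [Metric.continuousOn_iff] at hcont
    obtain ⟨d1, hd1, hd1'⟩ := hcont 0 (by simp) (r / 4) (by positivity)
    obtain ⟨d2, hd2, hd2'⟩ := Metric.continuous_iff.1 hg 0 δ hδ
    set s := min 1 (min (d1 / 2) (d2 / 2)) with hsdef
    have hs0 : 0 < s := lt_min one_pos (lt_min (by positivity) (by positivity))
    have hs1 : s ≤ 1 := min_le_left _ _
    have hsd1 : s < d1 := by
      have : s ≤ d1 / 2 := (min_le_right _ _).trans (min_le_left _ _)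
      linarith
    have hsd2 : s < d2 := by
      have : s ≤ d2 / 2 := (min_le_right _ _).trans (min_le_right _ _)
      linarith
    have hsI : s ∈ Set.Icc (0:ℝ) 1 := ⟨hs0.le, hs1⟩
    have hdist : dist s 0 = s := by rw [Real.dist_eq, sub_zero, abs_of_pos hs0]
    refine ⟨g s, ⟨(hgF s hsI).1, (hgF s hsI).2.1⟩, ?_, ?_, ?_⟩
    · apply Finset.Subset.antisymm (spt_subset_of_fac (hgF s hsI))
      intro v hv
      rw [mem_spt]
      have h1 : 0 < b v := pos_of_spt hb hbF hv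
      have h2 : 0 ≤ (1 - s) * p v := mul_nonneg (by linarith) (hp.1 v)
      have h3 : 0 < s * b v := mul_pos hs0 h1
      simp only [g, Pi.add_apply, Pi.smul_apply, smul_eq_mul]
      linarith
    · have := hd2' s (by rw [hdist]; exact hsd2)
      rwa [hg0] at this
    · have := hd1' s hsI (by rw [hdist]; exact hsd1)
      simpa [hg0, hcdef] using this
  have hp'K : p' ∈ Geo K := ⟨hp'.1, hp'.2, by rw [hp'F]; exact hFK⟩
  set a := B.Φ p' with hadef
  -- first homotopy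
  let κ : ℝ × (Fin n → ℝ) → ℝ := fun q =>
    1 - q.1 + q.1 * max 1 ((r / 2) / ‖B.Φ q.2 - a‖)
  let z : ℝ × (Fin n → ℝ) → E := fun q => a + κ q • (B.Φ q.2 - a)
  have hne : ∀ x ∈ Geo K', x ≠ p' := by
    rintro x hx rfl
    apply hx.2.2.2
    rw [hp'F]
  have hΦne : ∀ x ∈ Geo K', B.Φ x - a ≠ 0 := by
    intro x hx h
    rw [sub_eq_zero] at h
    exact hne x hx (hinj x (geo_mono hK'K hx) p' hp'K h)
  have hzc : ContinuousOn z (Set.Icc 0 1 ×ˢ Geo K') := by
    have hΦc : ContinuousOn (fun q : ℝ × (Fin n → ℝ) => B.Φ q.2 - a) (Set.Icc 0 1 ×ˢ Geo K') :=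
      (B.cΦ.comp continuous_snd.continuousOn (fun q hq => geo_mono hK'K hq.2)).sub
        continuousOn_const
    apply ContinuousOn.add continuousOn_const
    apply ContinuousOn.fun_smul _ hΦc
    apply ContinuousOn.add
    · exact (continuous_const.sub continuous_fst).continuousOn
    · apply ContinuousOn.mul continuous_fst.continuousOn
      apply ContinuousOn.sup continuousOn_const
      apply ContinuousOn.div continuousOn_const hΦc.norm
      intro q hq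
      exact norm_ne_zero_iff.2 (hΦne q.2 hq.2)
  have hκ : ∀ q ∈ Set.Icc (0:ℝ) 1 ×ˢ Geo K', 1 ≤ κ q := by
    intro q hq
    have h1 : 1 ≤ max 1 ((r / 2) / ‖B.Φ q.2 - a‖) := le_max_left _ _
    have h2 := hq.1.1
    simp only [κ]
    nlinarith
  have hac : dist a c < r / 4 := hp'c
  have hnorma : ‖a‖ < ‖c‖ + r / 4 := by
    have : ‖a‖ ≤ ‖c‖ + ‖a - c‖ := by
      calc ‖a‖ = ‖c + (a - c)‖ := by rw [add_sub_cancel]
        _ ≤ _ := norm_add_le _ _
    rw [dist_eq_norm] at hac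
    linarith
  have hzfar : ∀ x ∈ Geo K', r / 2 ≤ ‖B.Φ x - a‖ → ∀ t, z (t, x) = B.Φ x := by
    intro x hx h t
    have hpos : 0 < ‖B.Φ x - a‖ := norm_pos_iff.2 (hΦne x hx)
    have : max 1 ((r / 2) / ‖B.Φ x - a‖) = 1 := by
      apply max_eq_left
      rw [div_le_one hpos]
      exact h
    simp only [z, κ, this, mul_one, sub_add_cancel, one_smul, add_sub_cancel]
  have hz1 : ∀ t ∈ Set.Icc (0:ℝ) 1, ∀ x ∈ Geo K', ‖z (t, x)‖ ≤ 1 := by
    intro t ht x hx
    rcases le_or_gt (r / 2) ‖B.Φ x - a‖ with h | h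
    · rw [hzfar x hx h t]
      exact B.mΦ x (geo_mono hK'K hx)
    · have hpos : 0 < ‖B.Φ x - a‖ := norm_pos_iff.2 (hΦne x hx)
      have hρ : max 1 ((r / 2) / ‖B.Φ x - a‖) = (r / 2) / ‖B.Φ x - a‖ := by
        apply max_eq_right
        rw [one_le_div hpos]
        exact h.le
      have h2 : ‖κ (t, x) • (B.Φ x - a)‖ ≤ r / 2 := by
        rw [norm_smul]
        have hκ0 : 0 ≤ κ (t, x) := le_trans zero_le_one (hκ (t, x) ⟨ht, hx⟩)
        rw [Real.norm_of_nonneg hκ0]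
        simp only [κ, hρ]
        have h3 : (1 - t + t * ((r / 2) / ‖B.Φ x - a‖)) * ‖B.Φ x - a‖
            = (1 - t) * ‖B.Φ x - a‖ + t * (r / 2) := by
          field_simp
        rw [h3]
        have h1t : 0 ≤ 1 - t := by linarith [ht.2]
        nlinarith
      calc ‖z (t, x)‖ ≤ ‖a‖ + ‖κ (t, x) • (B.Φ x - a)‖ := norm_add_le _ _
        _ ≤ 1 := by linarith
  have hzne : ∀ t ∈ Set.Icc (0:ℝ) 1, ∀ x ∈ Geo K', z (t, x) ≠ a := by
    intro t ht x hx h
    have h1 : κ (t, x) • (B.Φ x - a) = 0 := by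
      have : a + κ (t, x) • (B.Φ x - a) = a := h
      simpa using this
    rcases smul_eq_zero.1 h1 with h2 | h2
    · have := hκ (t, x) ⟨ht, hx⟩
      rw [h2] at this
      linarith
    · exact hΦne x hx h2
  have hzone : ∀ x ∈ Geo K', r / 2 ≤ dist (z (1, x)) a := by
    intro x hx
    have hpos : 0 < ‖B.Φ x - a‖ := norm_pos_iff.2 (hΦne x hx)
    have h1 : κ (1, x) = max 1 ((r / 2) / ‖B.Φ x - a‖) := by simp [κ]
    have h2 : z (1, x) - a = κ (1, x) • (B.Φ x - a) := by simp [z]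
    rw [dist_eq_norm, h2, norm_smul, h1]
    have h3 : (r / 2) / ‖B.Φ x - a‖ ≤ max 1 ((r / 2) / ‖B.Φ x - a‖) := le_max_right _ _
    have h4 : 0 ≤ max 1 ((r / 2) / ‖B.Φ x - a‖) := le_trans zero_le_one (le_max_left _ _)
    rw [Real.norm_of_nonneg h4]
    rwa [div_le_iff₀ hpos] at h3
  let y : ℝ × (Fin n → ℝ) → (Fin n → ℝ) := fun q => B.Ψ (z q)
  have hyc : ContinuousOn y (Set.Icc 0 1 ×ˢ Geo K') := by
    apply B.cΨ.comp hzc
    intro q hq
    rw [Metric.mem_closedBall, dist_zero_right]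
    exact hz1 q.1 hq.1 q.2 hq.2
  have hyK : ∀ t ∈ Set.Icc (0:ℝ) 1, ∀ x ∈ Geo K', y (t, x) ∈ Geo K := fun t ht x hx =>
    B.mΨ _ (hz1 t ht x hx)
  have hΦy : ∀ t ∈ Set.Icc (0:ℝ) 1, ∀ x ∈ Geo K', B.Φ (y (t, x)) = z (t, x) :=
    fun t ht x hx => B.right _ (hz1 t ht x hx)
  have hyne : ∀ t ∈ Set.Icc (0:ℝ) 1, ∀ x ∈ Geo K', y (t, x) ≠ p' := by
    intro t ht x hx h
    apply hzne t ht x hx
    rw [← hΦy t ht x hx, h]
  have h1I : (1:ℝ) ∈ Set.Icc (0:ℝ) 1 := by simp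
  have h0I : (0:ℝ) ∈ Set.Icc (0:ℝ) 1 := by simp
  have hyM : ∀ x ∈ Geo K', y (1, x) ∈ Mset := by
    intro x hx
    refine ⟨hyK 1 h1I x hx, ?_⟩
    have h1 : B.Φ (y (1, x)) = z (1, x) := hΦy 1 h1I x hx
    have h2 := hzone x hx
    have h3 : dist (z (1, x)) a ≤ dist (z (1, x)) c + dist c a := dist_triangle _ _ _
    rw [dist_comm c a] at h3
    simp only [Set.mem_preimage, h1]
    show r / 4 ≤ dist (z (1, x)) c
    linarith
  have hyL : ∀ x ∈ Geo L, ∀ t ∈ Set.Icc (0:ℝ) 1, y (t, x) = x := by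
    intro x hx t _
    have hxK' := geo_mono hLK' hx
    have h1 := hrL x hx
    have h2 : dist (B.Φ x) c ≤ dist (B.Φ x) a + dist a c := dist_triangle _ _ _
    have h3 : r / 2 ≤ ‖B.Φ x - a‖ := by
      rw [← dist_eq_norm]
      linarith
    simp only [y]
    rw [hzfar x hxK' h3 t, B.left x (geo_mono hLK hx)]
  -- second homotopy
  let σ : ℝ × (Fin n → ℝ) → ℝ := fun q => max 0 (2 * q.1 - 1)
  let τ : ℝ × (Fin n → ℝ) → ℝ × (Fin n → ℝ) := fun q => (min 1 (2 * q.1), q.2)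
  have hσc : Continuous σ :=
    continuous_const.max ((continuous_const.mul continuous_fst).sub continuous_const)
  have hτc : Continuous τ :=
    (continuous_const.min (continuous_const.mul continuous_fst)).prodMk continuous_snd
  have hτm : ∀ q ∈ Set.Icc (0:ℝ) 1 ×ˢ Geo K', τ q ∈ Set.Icc (0:ℝ) 1 ×ˢ Geo K' := by
    intro q hq
    refine ⟨⟨le_min zero_le_one (by linarith [hq.1.1]), min_le_left _ _⟩, hq.2⟩
  have hσ0 : ∀ q, 0 ≤ σ q := fun q => le_max_left _ _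
  have hσ1 : ∀ q ∈ Set.Icc (0:ℝ) 1 ×ˢ Geo K', σ q ≤ 1 := by
    intro q hq
    exact max_le zero_le_one (by linarith [hq.1.2])
  have hcase : ∀ q ∈ Set.Icc (0:ℝ) 1 ×ˢ Geo K', σ q = 0 ∨ τ q = (1, q.2) := by
    intro q hq
    rcases le_or_gt q.1 (1 / 2) with h | h
    · left
      exact max_eq_left (by linarith)
    · right
      simp only [τ]
      rw [min_eq_left (by linarith)]
  let U : ℝ × (Fin n → ℝ) → (Fin n → ℝ) := fun q => psh G hG p (σ q) (y (τ q))
  have hyτK : ∀ q ∈ Set.Icc (0:ℝ) 1 ×ˢ Geo K', y (τ q) ∈ Geo K := by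
    intro q hq
    have := hτm q hq
    exact hyK (τ q).1 this.1 (τ q).2 this.2
  have hltU : ∀ q ∈ Set.Icc (0:ℝ) 1 ×ˢ Geo K', σ q * lam G hG p (y (τ q)) < 1 := by
    intro q hq
    apply mul_lt_one_of_ne hp hpG (geo_bar (hyτK q hq)) (hσ0 q) (hσ1 q hq)
    rcases hcase q hq with h | h
    · right; rw [h]; exact zero_ne_one
    · left
      rw [h]
      exact hMp _ (hyM q.2 hq.2)
  have hUc : ContinuousOn U (Set.Icc 0 1 ×ˢ Geo K') :=
    continuousOn_psh G hG p hσc.continuousOn (hyc.comp hτc.continuousOn hτm) hltU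
  have hUbar : ∀ q ∈ Set.Icc (0:ℝ) 1 ×ˢ Geo K', Bar (U q) ∧ spt (U q) ⊆ spt (y (τ q)) := by
    intro q hq
    exact psh_bar hp hpG (geo_bar (hyτK q hq)) (hσ0 q) (hσ1 q hq) (hltU q hq)
  have hUK : ∀ q ∈ Set.Icc (0:ℝ) 1 ×ˢ Geo K', U q ∈ Geo K := by
    intro q hq
    have h1 := hUbar q hq
    exact ⟨h1.1.1, h1.1.2, hK _ (hyτK q hq).2.2 _ h1.2⟩
  have hUne : ∀ q ∈ Set.Icc (0:ℝ) 1 ×ˢ Geo K', U q ≠ p' := by
    intro q hq
    rcases hcase q hq with h | h
    · simp only [U, h, psh_zero]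
      have := hτm q hq
      exact hyne (τ q).1 this.1 (τ q).2 this.2
    · intro he
      have hUT : U q ∈ T := by
        refine ⟨(σ q, y (τ q)), ⟨⟨hσ0 q, hσ1 q hq⟩, ?_⟩, rfl⟩
        rw [h]
        exact hyM q.2 hq.2
      have := hfar _ hUT
      rw [he] at this
      linarith
  have hUL : ∀ t ∈ Set.Icc (0:ℝ) 1, ∀ x ∈ Geo L, U (t, x) = x := by
    intro t ht x hx
    have hq : (t, x) ∈ Set.Icc (0:ℝ) 1 ×ˢ Geo K' := ⟨ht, geo_mono hLK' hx⟩
    have h1 : y (τ (t, x)) = x := hyL x hx _ (hτm (t, x) hq).1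
    simp only [U, h1]
    exact psh_id hp (geo_bar hx) hx.2.2.2
  have hltF : ∀ q ∈ Set.Icc (0:ℝ) 1 ×ˢ Geo K', (1 : ℝ) * lam F hF p' (U q) < 1 := by
    intro q hq
    exact mul_lt_one_of_ne hp' hp'F (geo_bar (hUK q hq)) zero_le_one le_rfl
      (Or.inl (hUne q hq))
  refine topLemma K' L hK' hL hLK' h0L (fun q => psh F hF p' 1 (U q)) ?_ ?_ ?_ ?_ ?_ m
  · exact continuousOn_psh F hF p' continuousOn_const hUc hltF
  · intro t ht x hx
    have hq : (t, x) ∈ Set.Icc (0:ℝ) 1 ×ˢ Geo K' := ⟨ht, hx⟩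
    have h1 := psh_bar (hG := hF) hp' hp'F (geo_bar (hUK _ hq)) zero_le_one le_rfl (hltF _ hq)
    exact ⟨h1.1.1, h1.1.2, hK _ (hUK _ hq).2.2 _ h1.2, psh_not hp' hp'F⟩
  · intro t ht x hx
    have hxK' := geo_mono hLK' hx
    rw [hUL t ht x hx, psh_id hp' (geo_bar hx) hxK'.2.2.2]
    exact hx
  · intro x hx
    have hq : ((0:ℝ), x) ∈ Set.Icc (0:ℝ) 1 ×ˢ Geo K' := ⟨h0I, hx⟩
    have h1 := psh_bar (hG := hF) hp' hp'F (geo_bar (hUK _ hq)) zero_le_one le_rfl (hltF _ hq)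
    refine h1.2.trans ((hUbar _ hq).2.trans ?_)
    have h2 : τ (0, x) = (0, x) := by simp [τ]
    have h3 : y (0, x) = x := by
      simp only [y, z, κ, sub_zero, zero_mul, add_zero, one_smul, add_sub_cancel]
      exact B.left x (geo_mono hK'K hx)
    rw [h2, h3]
  · intro x hx
    have hq : ((1:ℝ), x) ∈ Set.Icc (0:ℝ) 1 ×ˢ Geo K' := ⟨h1I, hx⟩
    have h1 := psh_bar (hG := hF) hp' hp'F (geo_bar (hUK _ hq)) zero_le_one le_rfl (hltF _ hq)
    have hσ : σ (1, x) = 1 := by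
      simp only [σ]
      norm_num
    have h2 : ¬ G ⊆ spt (U (1, x)) := by
      simp only [U, hσ]
      exact psh_not hp hpG
    have h3 : spt (U (1, x)) ∈ L := ⟨(hUK _ hq).2.2, h2⟩
    exact ⟨h1.1.1, h1.1.2, hL _ h3 _ h1.2⟩

end

end Pool.Agent.H43
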