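import Pool.Agent.Lib_helper43.C2297.Chains

set_option autoImplicit false
set_option linter.unusedSectionVars false

open Finset

namespace Pool.Agent.H43

section
variable {k : Type*} [Field k]
variable {X Y : Type*} [DecidableEq X] [DecidableEq Y]

open Classical in
variable (k) in
/-- the homotopy between two contiguous maps, on basis elements. -/
noncomputable def pr (f g : X → Y) (A : Finset X) : Ch k Y :=
  if h : A.Nonempty then
    cone k (f h.choose) (mp k f (bs k A) + mp k g (bs k A) +
      ∑ a ∈ A.attach, pr f g (A.erase a.1))
  else 0
termination_by A.card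
decreasing_by exact Finset.card_erase_lt_of_mem a.2

variable (k) in
/-- linear extension of `pr`. -/
noncomputable def prL (f g : X → Y) : Ch k X →ₗ[k] Ch k Y :=
  Finsupp.linearCombination k (pr k f g)

theorem prL_bs (f g : X → Y) (A : Finset X) : prL k f g (bs k A) = pr k f g A := by
  simp [prL, bs]

theorem pr_nonempty (f g : X → Y) (A : Finset X) (h : A.Nonempty) :
    ∃ a ∈ A, pr k f g A = cone k (f a) (mp k f (bs k A) + mp k g (bs k A) +
      prL k f g (bd k X (bs k A))) := by
  refine ⟨h.choose, h.choose_spec, ?_⟩
  rw [pr, dif_pos h]
  congr 2
  rw [bd_bs, map_sum]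
  simp only [prL_bs]
  exact Finset.sum_attach A (fun a => pr k f g (A.erase a))

theorem pr_empty (f g : X → Y) : pr k f g ∅ = 0 := by
  rw [pr, dif_neg]
  simp

variable [CharP k 2]

theorem bd_pr (f g : X → Y) (A : Finset X) :
    bd k Y (pr k f g A) = mp k f (bs k A) + mp k g (bs k A) + prL k f g (bd k X (bs k A)) := by
  induction hn : A.card using Nat.strong_induction_on generalizing A with
  | _ n ih =>
    rcases A.eq_empty_or_nonempty with rfl | hA
    · rw [pr_empty, map_zero, mp_bs, mp_bs, bd_bs]
      simp only [image_empty, card_empty, if_true, sum_empty, map_zero, add_zero]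
      exact (dbl (k := k) _ _).symm
    · obtain ⟨a, ha, hpr⟩ := pr_nonempty (k := k) f g A hA
      rw [hpr, bd_cone]
      have key : bd k Y (mp k f (bs k A) + mp k g (bs k A) + prL k f g (bd k X (bs k A))) = 0 := by
        rw [map_add, map_add, bd_mp, bd_mp]
        have h2 : bd k Y (prL k f g (bd k X (bs k A))) =
            mp k f (bd k X (bs k A)) + mp k g (bd k X (bs k A)) +
              prL k f g (bd k X (bd k X (bs k A))) := by
          conv_lhs => rw [bd_bs, map_sum, map_sum]
          conv_rhs => rw [bd_bs, map_sum, map_sum, map_sum, map_sum]
          rw [← Finset.sum_add_distrib, ← Finset.sum_add_distrib]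
          apply Finset.sum_congr rfl
          intro b hb
          rw [prL_bs]
          exact ih _ (by rw [← hn]; exact Finset.card_erase_lt_of_mem hb) _ rfl
        rw [h2, bd_bd, map_zero, add_zero]
        exact dbl (k := k) _ _
      rw [key, map_zero, add_zero]

theorem bd_prL (f g : X → Y) (c : Ch k X) :
    bd k Y (prL k f g c) = mp k f c + mp k g c + prL k f g (bd k X c) := by
  have : (bd k Y) ∘ₗ (prL k f g) = mp k f + mp k g + (prL k f g) ∘ₗ (bd k X) := by
    apply lin_ext
    intro A
    simp only [LinearMap.comp_apply, LinearMap.add_apply, prL_bs, bd_pr]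
  exact LinearMap.congr_fun this c

omit [CharP k 2] in
theorem supp_cone {P : Finset X → Prop} {x : X} {c : Ch k X} (hc : Supp P c)
    {Q : Finset X → Prop} (h : ∀ A, P A → x ∉ A → Q (insert x A)) : Supp Q (cone k x c) := by
  apply hc.lin
  intro A hA
  rw [cone_bs]
  split_ifs with hx
  · exact Supp.zero
  · exact Supp.bs (h A hA hx)

omit [CharP k 2] in
theorem supp_pr (f g : X → Y) (A : Finset X) :
    Supp (fun B => B ⊆ A.image f ∪ A.image g) (pr k f g A) := by
  induction hn : A.card using Nat.strong_induction_on generalizing A with
  | _ n ih =>
    rcases A.eq_empty_or_nonempty with rfl | hA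
    · rw [pr_empty]; exact Supp.zero
    · obtain ⟨a, ha, hpr⟩ := pr_nonempty (k := k) f g A hA
      rw [hpr]
      apply supp_cone (P := fun B => B ⊆ A.image f ∪ A.image g)
      · apply Supp.add
        · apply Supp.add
          · rw [mp_bs]
            split_ifs
            · exact Supp.bs (P := fun B => B ⊆ A.image f ∪ A.image g) subset_union_left
            · exact Supp.zero
          · rw [mp_bs]
            split_ifs
            · exact Supp.bs (P := fun B => B ⊆ A.image f ∪ A.image g) subset_union_right
            · exact Supp.zero
        · rw [bd_bs, map_sum]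
          apply Supp.sum
          intro b hb
          rw [prL_bs]
          refine (ih _ (by rw [← hn]; exact Finset.card_erase_lt_of_mem hb) _ rfl).mono ?_
          intro B hB
          exact hB.trans (Finset.union_subset_union (Finset.image_subset_image (erase_subset _ _))
            (Finset.image_subset_image (erase_subset _ _)))
      · intro B hB _
        refine Finset.insert_subset ?_ hB
        exact Finset.mem_union_left _ (Finset.mem_image_of_mem f ha)

/-- a size preserving carried chain map is the identity. -/
theorem carried_id (T : Ch k X →ₗ[k] Ch k X) (hT : ∀ c, bd k X (T c) = T (bd k X c))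
    (P : Finset X → Prop) (hP : ∀ A, P A → ∀ a ∈ A, P (A.erase a))
    (h0 : T (bs k ∅) = bs k ∅)
    (hs : ∀ A, P A → Supp (fun B => B ⊆ A ∧ B.card = A.card) (T (bs k A)))
    (A : Finset X) (hA : P A) : T (bs k A) = bs k A := by
  induction hn : A.card using Nat.strong_induction_on generalizing A with
  | _ n ih =>
    rcases A.eq_empty_or_nonempty with rfl | hne
    · exact h0
    · obtain ⟨a, ha⟩ := hne
      have h1 : T (bs k A) = (T (bs k A) A) • bs k A := by
        ext B
        by_cases hB : B = A
        · subst hB
          simp [bs]
        · have : ¬ (B ⊆ A ∧ B.card = A.card) := by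
            rintro ⟨h, h'⟩
            exact hB (Finset.eq_of_subset_of_card_le h h'.ge)
          rw [hs A hA B this]
          have : A ≠ B := fun h => hB h.symm
          simp [bs, this]
      have h2 := hT (bs k A)
      have h3 : T (bd k X (bs k A)) = bd k X (bs k A) := by
        rw [bd_bs, map_sum]
        apply Finset.sum_congr rfl
        intro b hb
        exact ih _ (by rw [← hn]; exact Finset.card_erase_lt_of_mem hb) _ (hP A hA b hb) rfl
      rw [h3, h1, map_smul] at h2
      have h4 : (bd k X (bs k A)) (A.erase a) = 1 := by
        rw [bd_bs, Finsupp.finsetSum_apply, Finset.sum_eq_single a]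
        · simp [bs]
        · intro b hb hba
          have : A.erase b ≠ A.erase a := by
            intro h
            have : b ∈ A.erase a := by simp [hb, hba]
            rw [← h] at this
            simp at this
          simp [bs, this]
        · intro h; exact absurd ha h
      have h5 := DFunLike.congr_fun h2 (A.erase a)
      rw [Finsupp.smul_apply, h4, smul_eq_mul, mul_one] at h5
      rw [h1, h5, one_smul]

end

end Pool.Agent.H43
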