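import Pool.Agent.Lib_helper43.C2297.Combi

set_option autoImplicit false
set_option linter.unusedSectionVars false

open Finset

namespace Pool.Agent.H43

section
variable {k : Type*} [Field k] [CharP k 2]
variable {n d : ℕ} {Γ : Set (Finset (Fin n))} {σ : Finset (Fin n) → Finset (Fin d)}

open Classical in
variable (k) in
/-- the fundamental chain over `W`. -/
noncomputable def zW (Γ : Set (Finset (Fin n))) (σ : Finset (Fin n) → Finset (Fin d))
    (W : Finset (Fin d)) : Ch k (Fin n) :=
  Finsupp.equivFunOnFinite.symm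
    (fun F => if (F ∈ Γ ∧ σ F ⊆ W) ∧ F.card = W.card then (1 : k) else 0)

open Classical in
theorem zW_apply (W : Finset (Fin d)) (F : Finset (Fin n)) :
    zW k Γ σ W F = if (F ∈ Γ ∧ σ F ⊆ W) ∧ F.card = W.card then (1 : k) else 0 := rfl

variable (hS : Sph k Γ σ)

include hS

/-- a boundary ridge is in exactly one facet. -/
theorem ridge_bdry {W : Finset (Fin d)} {H : Finset (Fin n)} (hH : H ∈ Γ) (hHW : σ H ⊆ W)
    (hσ : σ H ≠ W) (hc : H.card + 1 = W.card) :
    ∃ v, v ∉ H ∧ (insert v H ∈ Γ ∧ σ (insert v H) ⊆ W) ∧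
      ∀ u, u ∉ H → (insert u H ∈ Γ ∧ σ (insert u H) ⊆ W) → u = v := by
  have hW : W.Nonempty := by
    rw [← Finset.card_pos]; omega
  have hA := hS.exAB W hW H hH hHW hσ
  obtain ⟨v, hv, hvR, hu⟩ := one_of_ex
    (show H ∈ {H' | H' ∈ Γ ∧ σ H' ⊆ W ∧ H ⊆ H'} from ⟨hH, hHW, subset_rfl⟩)
    (fun H' h => h.2.2) (by
      intro H' h
      have := card_le_of hS W H' h.1 h.2.1
      omega) (hA _) (hA _)
  refine ⟨v, hv, ⟨hvR.1, hvR.2.1⟩, ?_⟩
  intro u huH h
  exact hu u huH ⟨h.1, h.2, Finset.subset_insert _ _⟩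

open Classical in
/-- an interior ridge is in an even number of facets. -/
theorem ridge_even {W : Finset (Fin d)} (hW : W.Nonempty) {H : Finset (Fin n)} (hH : H ∈ Γ)
    (hσ : σ H = W) (hc : H.card + 1 = W.card) :
    ∑ v ∈ Hᶜ, (if insert v H ∈ Γ ∧ σ (insert v H) ⊆ W then (1 : k) else 0) = 0 := by
  apply ridge_int hS hW hσ
  · intro H' h1 h2 _
    have := card_le_of hS W H' h1 h2
    omega
  · obtain ⟨F, hF, hHF⟩ := exists_mx hH hσ.le
    have hFc := mx_card hS hF
    have : H ⊂ F := by
      refine Finset.ssubset_iff_subset_ne.2 ⟨hHF, ?_⟩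
      rintro rfl
      omega
    obtain ⟨v, hvF, hvH⟩ := Finset.exists_of_ssubset this
    have hins : insert v H ⊆ F := Finset.insert_subset hvF hHF
    exact ⟨v, hvH, hS.down F hF.1 _ hins, (hS.mono F hF.1 _ hins).trans hF.2.1⟩

theorem bd_zW {W : Finset (Fin d)} (hW : W.Nonempty) :
    bd k (Fin n) (zW k Γ σ W) = ∑ w ∈ W, zW k Γ σ (W.erase w) := by
  classical
  ext H
  rw [bd_apply, Finsupp.finsetSum_apply]
  simp only [zW_apply]
  have hce : ∀ w ∈ W, (W.erase w).card + 1 = W.card := by
    intro w hw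
    rw [Finset.card_erase_of_mem hw]
    have := hW.card_pos
    omega
  by_cases hc : H.card + 1 = W.card
  · by_cases hHK : H ∈ Γ ∧ σ H ⊆ W
    · have hrw : ∀ v ∈ Hᶜ, (if (insert v H ∈ Γ ∧ σ (insert v H) ⊆ W) ∧
          (insert v H).card = W.card then (1 : k) else 0) =
          (if insert v H ∈ Γ ∧ σ (insert v H) ⊆ W then (1 : k) else 0) := by
        intro v hv
        rw [Finset.mem_compl] at hv
        simp only [card_ins hv, hc, and_true]
      rw [Finset.sum_congr rfl hrw]
      by_cases hσ : σ H = W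
      · rw [ridge_even hS hW hHK.1 hσ hc]
        symm
        apply Finset.sum_eq_zero
        intro w hw
        apply if_neg
        rintro ⟨⟨_, h⟩, _⟩
        rw [hσ] at h
        have := h hw
        simp at this
      · obtain ⟨v, hv, hvK, huniq⟩ := ridge_bdry hS hHK.1 hHK.2 hσ hc
        rw [Finset.sum_eq_single v]
        · rw [if_pos hvK]
          have hss : σ H ⊂ W := Finset.ssubset_iff_subset_ne.2 ⟨hHK.2, hσ⟩
          obtain ⟨w0, hw0W, hw0⟩ := Finset.exists_of_ssubset hss
          have hle := card_le_of hS (σ H) H hHK.1 subset_rfl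
          have hσe : σ H = W.erase w0 := by
            apply Finset.eq_of_subset_of_card_le
            · intro x hx
              rw [Finset.mem_erase]
              exact ⟨fun e => hw0 (e ▸ hx), hHK.2 hx⟩
            · have := hce w0 hw0W
              omega
          rw [Finset.sum_eq_single w0]
          · rw [if_pos]
            refine ⟨⟨hHK.1, hσe.le⟩, ?_⟩
            have := hce w0 hw0W
            omega
          · intro w hw hne
            apply if_neg
            rintro ⟨⟨_, h⟩, _⟩
            rw [hσe] at h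
            have h1 : w ∈ W.erase w0 := Finset.mem_erase.2 ⟨hne, hw⟩
            have := h h1
            simp at this
          · intro h; exact absurd hw0W h
        · intro u hu hne
          rw [Finset.mem_compl] at hu
          exact if_neg (fun h => hne (huniq u hu h))
        · intro h
          exact absurd (Finset.mem_compl.2 hv) h
    · rw [Finset.sum_eq_zero, Finset.sum_eq_zero]
      · intro w hw
        apply if_neg
        rintro ⟨⟨h1, h2⟩, _⟩
        exact hHK ⟨h1, h2.trans (Finset.erase_subset _ _)⟩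
      · intro v _
        apply if_neg
        rintro ⟨⟨h1, h2⟩, _⟩
        exact hHK ⟨hS.down _ h1 H (Finset.subset_insert _ _),
          (hS.mono _ h1 H (Finset.subset_insert _ _)).trans h2⟩
  · rw [Finset.sum_eq_zero, Finset.sum_eq_zero]
    · intro w hw
      apply if_neg
      rintro ⟨_, h⟩
      have := hce w hw
      omega
    · intro v hv
      rw [Finset.mem_compl] at hv
      apply if_neg
      rintro ⟨_, h⟩
      rw [card_ins hv] at h
      exact hc h

/-- Sperner's lemma, modulo two. -/
theorem sperner_chain (l : Fin n → Fin d) (hl : ∀ v, {v} ∈ Γ → l v ∈ σ {v})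
    (W : Finset (Fin d)) : mp k l (zW k Γ σ W) = bs k W := by
  classical
  let T : Ch k (Fin d) →ₗ[k] Ch k (Fin d) :=
    Finsupp.linearCombination k (fun W : Finset (Fin d) => mp k l (zW k Γ σ W))
  have hT : ∀ W, T (bs k W) = mp k l (zW k Γ σ W) := by
    intro W
    simp [T, bs]
  have hz0 : zW k Γ σ (∅ : Finset (Fin d)) = bs k ∅ := by
    ext F
    rw [zW_apply]
    by_cases hF : F = ∅
    · subst hF
      rw [if_pos]
      · simp [bs]
      · exact ⟨⟨hS.emp, by rw [hS.s0]⟩, by simp⟩
    · rw [if_neg]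
      · simp [bs, Ne.symm hF]
      · rintro ⟨_, h⟩
        exact hF (Finset.card_eq_zero.1 (by simpa using h))
  rw [← hT]
  apply carried_id T _ (fun _ => True)
  · intro _ _ _ _; trivial
  · rw [hT, hz0, mp_bs]
    simp
  · intro A _
    rw [hT]
    have hsupp : Supp (fun F => (F ∈ Γ ∧ σ F ⊆ A) ∧ F.card = A.card) (zW k Γ σ A) := by
      intro F hF
      rw [zW_apply, if_neg hF]
    apply hsupp.lin
    rintro F ⟨⟨h1, h2⟩, h3⟩
    rw [mp_bs]
    split_ifs with hc
    · apply Supp.bs (P := fun B => B ⊆ A ∧ B.card = A.card)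
      refine ⟨?_, hc.trans h3⟩
      intro y hy
      obtain ⟨v, hv, rfl⟩ := Finset.mem_image.1 hy
      have hvF : ({v} : Finset (Fin n)) ⊆ F := by simpa using hv
      exact h2 (hS.mono F h1 {v} hvF (hl v (hS.down F h1 _ hvF)))
    · exact Supp.zero
  · trivial
  · intro c
    have : (bd k (Fin d)) ∘ₗ T = T ∘ₗ (bd k (Fin d)) := by
      apply lin_ext
      intro A
      simp only [LinearMap.comp_apply, hT, bd_mp]
      rcases A.eq_empty_or_nonempty with rfl | hA
      · rw [hz0, bd_bs, bd_bs]
        simp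
      · rw [bd_zW hS hA, bd_bs, map_sum, map_sum]
        simp only [hT]
    exact LinearMap.congr_fun this c

open Classical in
/-- the number of fully labelled facets is odd. -/
theorem sperner (l : Fin n → Fin d) (hl : ∀ v, {v} ∈ Γ → l v ∈ σ {v}) :
    ∑ F ∈ Finset.univ.filter (fun F : Finset (Fin n) => F ∈ Γ ∧ F.card = d ∧
      F.image l = Finset.univ), (1 : k) = 1 := by
  have h := sperner_chain hS l hl (Finset.univ : Finset (Fin d))
  have h1 := DFunLike.congr_fun h (Finset.univ : Finset (Fin d))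
  have h2 : (bs k (Finset.univ : Finset (Fin d))) Finset.univ = 1 := by simp [bs]
  rw [h2] at h1
  refine Eq.trans ?_ h1
  have hlin : (mp k l (zW k Γ σ (Finset.univ : Finset (Fin d)))) Finset.univ =
      ∑ F : Finset (Fin n), zW k Γ σ (Finset.univ : Finset (Fin d)) F *
        (mp k l (bs k F)) Finset.univ := by
    conv_lhs => rw [decomp (zW k Γ σ (Finset.univ : Finset (Fin d)))]
    rw [map_sum, Finsupp.finsetSum_apply]
    simp only [map_smul, Finsupp.smul_apply, smul_eq_mul]
    apply Finset.sum_subset (Finset.subset_univ _)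
    intro F _ hF
    rw [Finsupp.mem_support_iff, not_not] at hF
    rw [hF, zero_mul]
  rw [hlin, Finset.sum_filter]
  apply Finset.sum_congr rfl
  intro F _
  rw [zW_apply, mp_bs]
  have hcu : (Finset.univ : Finset (Fin d)).card = d := by simp
  by_cases h3 : F ∈ Γ ∧ F.card = d ∧ F.image l = Finset.univ
  · rw [if_pos h3, if_pos ⟨⟨h3.1, Finset.subset_univ _⟩, by rw [hcu]; exact h3.2.1⟩, if_pos]
    · rw [h3.2.2]
      simp [bs]
    · rw [h3.2.2, hcu]
      exact h3.2.1.symm
  · rw [if_neg h3]
    symm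
    by_cases h4 : (F ∈ Γ ∧ σ F ⊆ Finset.univ) ∧ F.card = (Finset.univ : Finset (Fin d)).card
    · rw [if_pos h4, one_mul]
      split_ifs with h5
      · have : F.image l ≠ Finset.univ := by
          intro h6
          exact h3 ⟨h4.1.1, by rw [h4.2, hcu], h6⟩
        simp [bs, this]
      · rfl
    · rw [if_neg h4, zero_mul]

end

end Pool.Agent.H43
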