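import Pool.Agent.Lib_helper43.C2297.Exact
import Pool.Agent.Lib_helper43.C2297.Sperner

set_option autoImplicit false
set_option linter.unusedSectionVars false

open Finset

namespace Pool.Agent.H43

section
variable {k : Type*} [Field k]
variable {n d : ℕ}

/-- the determinant of forms against vectors. -/
noncomputable def Dt (θ : Fin n → ((Fin d → k) →ₗ[k] k)) {i : ℕ} (e : Fin i → Fin n)
    (w : Fin i → (Fin d → k)) : k :=
  Matrix.det (Matrix.of (fun p q => θ (e p) (w q)))

theorem sign_char_two [CharP k 2] {i : ℕ} (π : Equiv.Perm (Fin i)) :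
    ((Equiv.Perm.sign π : ℤ) : k) = 1 := by
  rcases Int.units_eq_one_or (Equiv.Perm.sign π) with h | h
  · rw [h]; simp
  · rw [h]
    simp only [Units.val_neg, Units.val_one, Int.cast_neg, Int.cast_one]
    exact CharTwo.neg_eq 1

theorem Dt_perm [CharP k 2] (θ : Fin n → ((Fin d → k) →ₗ[k] k)) {i : ℕ}
    {e e' : Fin i → Fin n} (he : Function.Injective e) (he' : Function.Injective e')
    (h : Set.range e = Set.range e') (w : Fin i → (Fin d → k)) : Dt θ e w = Dt θ e' w := by
  have hex : ∀ p, ∃ q, e q = e' p := by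
    intro p
    have : e' p ∈ Set.range e := by rw [h]; exact ⟨p, rfl⟩
    exact this
  choose f hf using hex
  have hfi : Function.Injective f := by
    intro a b hab
    apply he'
    rw [← hf a, ← hf b, hab]
  let π : Equiv.Perm (Fin i) := Equiv.ofBijective f (Finite.injective_iff_bijective.1 hfi)
  have hM : Matrix.of (fun p q => θ (e' p) (w q)) =
      (Matrix.of (fun p q => θ (e p) (w q))).submatrix π id := by
    ext p q
    simp only [Matrix.of_apply, Matrix.submatrix_apply, id_eq]
    rw [← hf p]
    rfl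
  unfold Dt
  rw [hM, Matrix.det_permute, sign_char_two, one_mul]

theorem Dt_upd (θ : Fin n → ((Fin d → k) →ₗ[k] k)) {i : ℕ} (e : Fin i → Fin n)
    (p1 : Fin i) (w : Fin i → (Fin d → k)) :
    ∃ u : Fin d → k, (∀ v, Dt θ (Function.update e p1 v) w = θ v u) ∧
      ∀ p, p ≠ p1 → θ (e p) u = 0 := by
  classical
  let M : Matrix (Fin i) (Fin i) k := Matrix.of (fun p q => θ (e p) (w q))
  let ψ : (Fin i → k) →ₗ[k] k :=
    (Matrix.detRowAlternating (R := k) (n := Fin i)).toMultilinearMap.toLinearMap M p1
  have hψ : ∀ x, ψ x = Matrix.det (M.updateRow p1 x) := by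
    intro x
    rfl
  have hu : ∀ v, Dt θ (Function.update e p1 v) w = θ v (∑ q, ψ (Pi.single q 1) • w q) := by
    intro v
    have h1 : Matrix.of (fun p q => θ (Function.update e p1 v p) (w q)) =
        M.updateRow p1 (fun q => θ v (w q)) := by
      ext p q
      by_cases hp : p = p1
      · subst hp
        simp
      · simp [hp, M]
    unfold Dt
    rw [h1, ← hψ, LinearMap.pi_apply_eq_sum_univ ψ, map_sum]
    apply Finset.sum_congr rfl
    intro q _
    rw [map_smul, smul_eq_mul, smul_eq_mul, mul_comm]
    congr 2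
    ext j
    simp [Pi.single_apply, eq_comm]
  refine ⟨∑ q, ψ (Pi.single q 1) • w q, hu, ?_⟩
  intro p hp
  rw [← hu]
  unfold Dt
  apply Matrix.det_zero_of_row_eq hp
  ext q
  simp [hp]

/-- an enumeration of a finite set. -/
noncomputable def enu {i : ℕ} (G : Finset (Fin n)) (h : G.card = i) : Fin i → Fin n :=
  G.orderEmbOfFin h

theorem enu_inj {i : ℕ} (G : Finset (Fin n)) (h : G.card = i) :
    Function.Injective (enu G h) := (G.orderEmbOfFin h).injective

theorem enu_range {i : ℕ} (G : Finset (Fin n)) (h : G.card = i) :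
    Set.range (enu G h) = (G : Set (Fin n)) := Finset.range_orderEmbOfFin G h

theorem enu_mem {i : ℕ} (G : Finset (Fin n)) (h : G.card = i) (p : Fin i) : enu G h p ∈ G :=
  Finset.orderEmbOfFin_mem G h p

theorem exists_enu {i : ℕ} (G : Finset (Fin n)) (h : G.card = i) {v : Fin n} (hv : v ∈ G) :
    ∃ p, enu G h p = v := by
  have : v ∈ Set.range (enu G h) := by rw [enu_range]; exact hv
  exact this

theorem range_update {i : ℕ} {H : Finset (Fin n)} {v1 : Fin n} (hv1 : v1 ∉ H)
    (h : (insert v1 H).card = i) {p1 : Fin i} (hp1 : enu (insert v1 H) h p1 = v1)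
    {v : Fin n} (hv : v ∉ H) :
    Set.range (Function.update (enu (insert v1 H) h) p1 v) = ((insert v H : Finset (Fin n)) :
      Set (Fin n)) ∧ Function.Injective (Function.update (enu (insert v1 H) h) p1 v) := by
  classical
  have hH : ∀ p, p ≠ p1 → enu (insert v1 H) h p ∈ H := by
    intro p hp
    have h1 := enu_mem (insert v1 H) h p
    rcases Finset.mem_insert.1 h1 with h2 | h2
    · exfalso
      apply hp
      apply enu_inj (insert v1 H) h
      rw [h2, hp1]
    · exact h2
  constructor
  · ext x
    rw [Finset.coe_insert]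
    constructor
    · rintro ⟨p, rfl⟩
      by_cases hp : p = p1
      · subst hp
        simp
      · rw [Function.update_of_ne hp]
        right
        exact hH p hp
    · rintro (rfl | hx)
      · exact ⟨p1, by simp⟩
      · obtain ⟨p, hp⟩ := exists_enu (insert v1 H) h (Finset.mem_insert_of_mem hx)
        refine ⟨p, ?_⟩
        rw [Function.update_of_ne]
        · exact hp
        · rintro rfl
          rw [hp1] at hp
          exact hv1 (hp ▸ hx)
  · intro a b hab
    by_cases ha : a = p1
    · by_cases hb : b = p1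
      · rw [ha, hb]
      · rw [ha, Function.update_self, Function.update_of_ne hb] at hab
        exact absurd (hab ▸ hH b hb) hv
    · by_cases hb : b = p1
      · rw [hb, Function.update_self, Function.update_of_ne ha] at hab
        exact absurd (hab ▸ hH a ha) hv
      · rw [Function.update_of_ne ha, Function.update_of_ne hb] at hab
        exact enu_inj _ h hab

/-- the determinants of all extensions of `H` are values at one vector. -/
theorem Dt_ext [CharP k 2] (θ : Fin n → ((Fin d → k) →ₗ[k] k)) {i : ℕ} {H : Finset (Fin n)}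
    (hH : H.card + 1 = i) {v1 : Fin n} (hv1 : v1 ∉ H) (w : Fin i → (Fin d → k)) :
    ∃ u : Fin d → k, (∀ h ∈ H, θ h u = 0) ∧
      ∀ v, v ∉ H → ∀ hc : (insert v H).card = i, Dt θ (enu (insert v H) hc) w = θ v u := by
  have hc1 : (insert v1 H).card = i := by
    rw [Finset.card_insert_of_notMem hv1]; exact hH
  obtain ⟨p1, hp1⟩ := exists_enu (insert v1 H) hc1 (Finset.mem_insert_self _ _)
  obtain ⟨u, hu1, hu2⟩ := Dt_upd θ (enu (insert v1 H) hc1) p1 w
  refine ⟨u, ?_, ?_⟩
  · intro h hh
    obtain ⟨p, hp⟩ := exists_enu (insert v1 H) hc1 (Finset.mem_insert_of_mem hh)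
    rw [← hp]
    apply hu2
    rintro rfl
    rw [hp1] at hp
    exact hv1 (hp ▸ hh)
  · intro v hv hc
    rw [← hu1 v]
    obtain ⟨h1, h2⟩ := range_update hv1 hc1 hp1 hv
    apply Dt_perm θ (enu_inj _ _) h2
    rw [enu_range, h1]

end

section
variable {k : Type*} [Field k] [CharP k 2]
variable {n d : ℕ} {Γ : Set (Finset (Fin n))} {σ : Finset (Fin n) → Finset (Fin d)}

/-- stresses on the relative complex of faces with carrier containing `S`. -/
structure IsStress (Γ : Set (Finset (Fin n))) (σ : Finset (Fin n) → Finset (Fin d))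
    (θ : Fin n → ((Fin d → k) →ₗ[k] k)) (S : Finset (Fin d)) (i : ℕ)
    (b : Finset (Fin n) → k) : Prop where
  supp : ∀ G, ¬ (G ∈ Γ ∧ S ⊆ σ G ∧ G.card = i) → b G = 0
  bal : ∀ H ∈ Γ, S ⊆ σ H → H.card + 1 = i → ∀ u : Fin d → k, (∀ h ∈ H, θ h u = 0) →
    ∑ v ∈ Hᶜ, b (insert v H) * θ v u = 0

open Classical in
/-- the volume stress. -/
noncomputable def mu (Γ : Set (Finset (Fin n))) (θ : Fin n → ((Fin d → k) →ₗ[k] k))
    (G : Finset (Fin n)) : k :=
  if h : G ∈ Γ ∧ G.card = d then (Dt θ (enu G h.2) (fun q => Pi.single q 1))⁻¹ else 0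

theorem stress_mu (hS : Sph k Γ σ) (hd : 0 < d) {θ : Fin n → ((Fin d → k) →ₗ[k] k)}
    (hθ : ∀ G ∈ Γ, Ind θ G)
    (hD : ∀ G ∈ Γ, ∀ h : G.card = d, Dt θ (enu G h) (fun q => Pi.single q 1) ≠ 0) :
    IsStress Γ σ θ Finset.univ d (mu Γ θ) := by
  classical
  constructor
  · intro G hG
    apply dif_neg
    rintro ⟨h1, h2⟩
    apply hG
    refine ⟨h1, ?_, h2⟩
    have := card_le_of hS (σ G) G h1 subset_rfl
    rw [h2] at this
    have h3 : (σ G).card = (Finset.univ : Finset (Fin d)).card := by
      apply le_antisymm (Finset.card_le_univ _)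
      rw [Fintype.card_fin]
      exact this
    exact (Finset.eq_univ_of_card _ (by rw [h3, Finset.card_univ])).ge
  · intro H hH hσ hc u hu
    have hσ' : σ H = Finset.univ := Finset.Subset.antisymm (Finset.subset_univ _) hσ
    by_cases hex : ∃ v1, v1 ∉ H ∧ insert v1 H ∈ Γ
    · obtain ⟨v1, hv1, hv1Γ⟩ := hex
      obtain ⟨c, hcH, hcv⟩ := Dt_ext θ hc hv1 (fun q => Pi.single q (1 : k))
      have hcne : c ≠ 0 := by
        rintro rfl
        have hcard : (insert v1 H).card = d := by rw [card_ins hv1]; exact hc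
        apply hD _ hv1Γ hcard
        rw [hcv v1 hv1 hcard, map_zero]
      have hfr : Module.finrank k (VP θ H) = 1 := by
        have := finrank_VP (hθ H hH)
        omega
      have hcVP : (⟨c, hcH⟩ : VP θ H) ≠ 0 := fun h => hcne (congrArg Subtype.val h)
      obtain ⟨t, ht⟩ := (finrank_eq_one_iff_of_nonzero' _ hcVP).1 hfr ⟨u, hu⟩
      have hut : u = t • c := (congrArg Subtype.val ht).symm
      have hterm : ∀ v ∈ Hᶜ, mu Γ θ (insert v H) * θ v u =
          t * (if insert v H ∈ Γ ∧ σ (insert v H) ⊆ Finset.univ then 1 else 0) := by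
        intro v hv
        rw [Finset.mem_compl] at hv
        by_cases hvΓ : insert v H ∈ Γ
        · have hcard : (insert v H).card = d := by rw [card_ins hv]; exact hc
          rw [if_pos ⟨hvΓ, Finset.subset_univ _⟩, mul_one, mu, dif_pos ⟨hvΓ, hcard⟩,
            hcv v hv hcard, hut, map_smul, smul_eq_mul]
          have hne : θ v c ≠ 0 := by
            rw [← hcv v hv hcard]
            exact hD _ hvΓ hcard
          field_simp
        · rw [if_neg (fun h => hvΓ h.1), mul_zero, mu, dif_neg (fun h => hvΓ h.1), zero_mul]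
      rw [Finset.sum_congr rfl hterm, ← Finset.mul_sum]
      have huniv : (Finset.univ : Finset (Fin d)).Nonempty := ⟨⟨0, hd⟩, Finset.mem_univ _⟩
      rw [ridge_even hS huniv hH hσ' (by rw [Finset.card_univ, Fintype.card_fin]; exact hc),
        mul_zero]
    · apply Finset.sum_eq_zero
      intro v hv
      rw [Finset.mem_compl] at hv
      rw [mu, dif_neg (fun h => hex ⟨v, hv, h.1⟩), zero_mul]

/-- interpolation of weights by a vector. -/
theorem exists_M {θ : Fin n → ((Fin d → k) →ₗ[k] k)} {G : Finset (Fin n)} (hG : Ind θ G)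
    (ω : Fin n → k) : ∃ u : Fin d → k, (∀ v ∈ G, θ v u = ω v) ∧
      ((∀ v ∈ G, ω v = 0) → u = 0) := by
  classical
  have hex : ∀ a : G, ∃ u : Fin d → k, θ a u = 1 ∧ ∀ v ∈ G, v ≠ a → θ v u = 0 :=
    fun a => hG a a.2
  choose u hu1 hu2 using hex
  refine ⟨∑ a : G, ω a • u a, ?_, ?_⟩
  · intro v hv
    rw [map_sum, Finset.sum_eq_single ⟨v, hv⟩]
    · rw [map_smul, hu1 ⟨v, hv⟩, smul_eq_mul, mul_one]
    · intro b _ hb
      rw [map_smul, hu2 b v hv (fun h => hb (Subtype.ext h.symm)), smul_zero]
    · intro h; exact absurd (Finset.mem_univ _) h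
  · intro h
    apply Finset.sum_eq_zero
    intro a _
    rw [h a a.2, zero_smul]

open Classical in
/-- multiplication by the sum of the vertices of one label. -/
theorem stress_mul (hS : Sph k Γ σ) {θ : Fin n → ((Fin d → k) →ₗ[k] k)}
    (hθ : ∀ G ∈ Γ, Ind θ G) (l : Fin n → Fin d) (hl : ∀ G ∈ Γ, ∀ v ∈ G, l v ∈ σ G)
    (j : Fin d) (S : Finset (Fin d)) (i : ℕ) (b : Finset (Fin n) → k)
    (hb : IsStress Γ σ θ (insert j S) (i + 1) b) :
    ∃ b' : Finset (Fin n) → k, IsStress Γ σ θ S i b' ∧
      ∀ G, G ∈ Γ → S ⊆ σ G → G.card = i → (∀ v ∈ G, l v ≠ j) →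
        b' G = ∑ v ∈ Gᶜ, b (insert v G) * (if l v = j then 1 else 0) := by
  let ω : Fin n → k := fun v => if l v = j then 1 else 0
  have hM : ∀ G, ∃ u : Fin d → k, (G ∈ Γ → (∀ v ∈ G, θ v u = ω v)) ∧
      ((∀ v ∈ G, ω v = 0) → u = 0) := by
    intro G
    by_cases hG : G ∈ Γ
    · obtain ⟨u, h1, h2⟩ := exists_M (hθ G hG) ω
      exact ⟨u, fun _ => h1, h2⟩
    · exact ⟨0, fun h => absurd h hG, fun _ => rfl⟩
  choose M hM1 hM2 using hM
  let b' : Finset (Fin n) → k := fun G =>
    if G ∈ Γ ∧ S ⊆ σ G ∧ G.card = i then ∑ v ∈ Gᶜ, b (insert v G) * (ω v - θ v (M G)) else 0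
  refine ⟨b', ⟨?_, ?_⟩, ?_⟩
  · intro G hG
    exact if_neg hG
  · intro H hH hSH hHc u hu
    -- dual vectors for the extensions
    have hex : ∀ v, ∃ m : Fin d → k, v ∉ H → insert v H ∈ Γ →
        (θ v m = 1 ∧ ∀ h ∈ H, θ h m = 0) := by
      intro v
      by_cases h : v ∉ H ∧ insert v H ∈ Γ
      · obtain ⟨m, hm1, hm2⟩ := hθ _ h.2 v (Finset.mem_insert_self _ _)
        refine ⟨m, fun _ _ => ⟨hm1, ?_⟩⟩
        intro x hx
        exact hm2 x (Finset.mem_insert_of_mem hx) (fun e => h.1 (e ▸ hx))
      · exact ⟨0, fun h1 h2 => absurd ⟨h1, h2⟩ h⟩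
    choose m hm using hex
    let ω' : Fin n → k := fun v => ω v - θ v (M H)
    -- b' on extensions
    have hb' : ∀ v ∈ Hᶜ, b' (insert v H) = ∑ w ∈ (insert v H)ᶜ,
        b (insert w (insert v H)) * (ω' w - ω' v * θ w (m v)) := by
      intro v hv
      rw [Finset.mem_compl] at hv
      by_cases hvΓ : insert v H ∈ Γ
      · have hSv : S ⊆ σ (insert v H) :=
          hSH.trans (hS.mono _ hvΓ H (Finset.subset_insert _ _))
        have hcv : (insert v H).card = i := by rw [card_ins hv]; exact hHc
        simp only [b']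
        rw [if_pos ⟨hvΓ, hSv, hcv⟩]
        -- difference of the two vectors
        by_cases hj : j ∈ σ (insert v H)
        · have hdiff := hb.bal (insert v H) hvΓ (Finset.insert_subset hj hSv) (by rw [hcv])
            (M (insert v H) - (M H + ω' v • m v)) (by
              intro h hh
              rw [map_sub, map_add, map_smul, smul_eq_mul]
              rw [hM1 _ hvΓ h hh]
              rcases Finset.mem_insert.1 hh with rfl | hh'
              · rw [(hm h hv hvΓ).1]
                simp only [ω']
                ring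
              · rw [hM1 H hH h hh', (hm v hv hvΓ).2 h hh']
                ring)
          rw [← sub_eq_zero, ← Finset.sum_sub_distrib]
          rw [← neg_eq_zero, ← Finset.sum_neg_distrib]
          rw [← hdiff]
          apply Finset.sum_congr rfl
          intro w _
          rw [map_sub, map_add, map_smul, smul_eq_mul]
          simp only [ω']
          ring
        · have hno : ∀ x ∈ insert v H, ω x = 0 := by
            intro x hx
            apply if_neg
            intro h
            apply hj
            rw [← h]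
            exact hl _ hvΓ x hx
          have h1 : M (insert v H) = 0 := hM2 _ hno
          have h2 : M H = 0 := hM2 _ (fun x hx => hno x (Finset.mem_insert_of_mem hx))
          have h3 : ω' v = 0 := by
            simp only [ω', h2, map_zero, sub_zero]
            exact hno v (Finset.mem_insert_self _ _)
          apply Finset.sum_congr rfl
          intro w _
          rw [h1, h3]
          simp only [ω', h2, map_zero, zero_mul, sub_zero]
      · have : b' (insert v H) = 0 := if_neg (fun h => hvΓ h.1)
        rw [this]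
        symm
        apply Finset.sum_eq_zero
        intro w _
        rw [hb.supp, zero_mul]
        intro h
        exact hvΓ (hS.down _ h.1 _ (Finset.subset_insert _ _))
    -- the double sum
    have h1 : ∑ v ∈ Hᶜ, b' (insert v H) * θ v u =
        ∑ v ∈ Hᶜ, ∑ w ∈ (insert v H)ᶜ,
          (b (insert w (insert v H)) * ω' w * θ v u -
            b (insert w (insert v H)) * (ω' v * θ w (m v)) * θ v u) := by
      apply Finset.sum_congr rfl
      intro v hv
      rw [hb' v hv, Finset.sum_mul]
      apply Finset.sum_congr rfl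
      intro w _
      ring
    rw [h1]
    simp only [Finset.sum_sub_distrib]
    rw [Finset.sum_comm' (t' := Hᶜ) (s' := fun w => (insert w H)ᶜ) (by
      intro v w
      simp only [Finset.mem_compl, Finset.mem_insert, not_or]
      constructor
      · rintro ⟨h1, h2, h3⟩; exact ⟨⟨fun e => h2 e.symm, h1⟩, h3⟩
      · rintro ⟨⟨h1, h2⟩, h3⟩; exact ⟨h2, fun e => h1 e.symm, h3⟩)]
    rw [← Finset.sum_sub_distrib]
    apply Finset.sum_eq_zero
    intro v hv
    rw [Finset.mem_compl] at hv
    rw [← Finset.sum_sub_distrib]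
    have h2 : ∑ w ∈ (insert v H)ᶜ, (b (insert v (insert w H)) * ω' v * θ w u -
        b (insert w (insert v H)) * (ω' v * θ w (m v)) * θ v u) =
        ω' v * ∑ w ∈ (insert v H)ᶜ, b (insert w (insert v H)) * θ w (u - θ v u • m v) := by
      rw [Finset.mul_sum]
      apply Finset.sum_congr rfl
      intro w _
      rw [Finset.insert_comm v w H, map_sub, map_smul, smul_eq_mul]
      ring
    rw [h2]
    by_cases hvΓ : insert v H ∈ Γ
    · have hSv : S ⊆ σ (insert v H) :=
          hSH.trans (hS.mono _ hvΓ H (Finset.subset_insert _ _))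
      have hcv : (insert v H).card = i := by rw [card_ins hv]; exact hHc
      by_cases hj : j ∈ σ (insert v H)
      · rw [hb.bal (insert v H) hvΓ (Finset.insert_subset hj hSv) (by rw [hcv]), mul_zero]
        intro h hh
        rw [map_sub, map_smul, smul_eq_mul]
        rcases Finset.mem_insert.1 hh with rfl | hh'
        · rw [(hm h hv hvΓ).1, mul_one, sub_self]
        · rw [(hm v hv hvΓ).2 h hh', hu h hh', mul_zero, sub_zero]
      · have hno : ∀ x ∈ insert v H, ω x = 0 := by
          intro x hx
          apply if_neg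
          intro h
          apply hj
          rw [← h]
          exact hl _ hvΓ x hx
        have h2 : M H = 0 := hM2 _ (fun x hx => hno x (Finset.mem_insert_of_mem hx))
        have h3 : ω' v = 0 := by
          simp only [ω', h2, map_zero, sub_zero]
          exact hno v (Finset.mem_insert_self _ _)
        rw [h3, zero_mul]
    · rw [Finset.sum_eq_zero, mul_zero]
      intro w _
      rw [hb.supp, zero_mul]
      intro h
      exact hvΓ (hS.down _ h.1 _ (Finset.subset_insert _ _))
  · intro G hG hSG hGc hno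
    simp only [b']
    rw [if_pos ⟨hG, hSG, hGc⟩]
    have : M G = 0 := hM2 G (fun v hv => if_neg (hno v hv))
    apply Finset.sum_congr rfl
    intro v _
    rw [this, map_zero, sub_zero]

end

end Pool.Agent.H43
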