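import Pool.Agent.Lib_helper43.C2297.Prism

set_option autoImplicit false
set_option linter.unusedSectionVars false

open Finset

namespace Pool.Agent.H43

section
variable {k : Type*} [Field k]
variable {E : Type*} [NormedAddCommGroup E] [NormedSpace ℝ E] [DecidableEq E]

/-- barycentre. -/
noncomputable def bary (A : Finset E) : E := ((A.card : ℝ)⁻¹) • ∑ a ∈ A, a

open Classical in
variable (k) in
/-- barycentric subdivision, on basis elements. -/
noncomputable def sdF (A : Finset E) : Ch k E :=
  if A.Nonempty then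
    cone k (bary A) (∑ a ∈ A.attach, sdF (A.erase a.1))
  else bs k ∅
termination_by A.card
decreasing_by exact Finset.card_erase_lt_of_mem a.2

variable (k E) in
/-- barycentric subdivision. -/
noncomputable def sd : Ch k E →ₗ[k] Ch k E := Finsupp.linearCombination k (sdF k)

theorem sd_bs (A : Finset E) : sd k E (bs k A) = sdF k A := by
  simp [sd, bs]

theorem sdF_nonempty (A : Finset E) (h : A.Nonempty) :
    sdF k A = cone k (bary A) (sd k E (bd k E (bs k A))) := by
  rw [sdF, if_pos h]
  congr 1
  rw [bd_bs, map_sum]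
  simp only [sd_bs]
  exact Finset.sum_attach A (fun a => sdF k (A.erase a))

theorem sdF_empty : sdF k (∅ : Finset E) = bs k ∅ := by
  rw [sdF, if_neg]
  simp

theorem bd_sd [CharP k 2] (c : Ch k E) : bd k E (sd k E c) = sd k E (bd k E c) := by
  have : (bd k E) ∘ₗ (sd k E) = (sd k E) ∘ₗ (bd k E) := by
    apply lin_ext
    intro A
    simp only [LinearMap.comp_apply]
    induction hn : A.card using Nat.strong_induction_on generalizing A with
    | _ n ih =>
      rcases A.eq_empty_or_nonempty with rfl | hA
      · rw [sd_bs, sdF_empty, bd_bs]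
        simp
      · have h2 : bd k E (sd k E (bd k E (bs k A))) = sd k E (bd k E (bd k E (bs k A))) := by
          conv_lhs => rw [bd_bs, map_sum, map_sum]
          conv_rhs => rw [bd_bs, map_sum, map_sum]
          apply Finset.sum_congr rfl
          intro b hb
          exact ih _ (by rw [← hn]; exact Finset.card_erase_lt_of_mem hb) _ rfl
        rw [sd_bs, sdF_nonempty A hA, bd_cone, h2, bd_bd, map_zero, map_zero, add_zero]
  exact LinearMap.congr_fun this c

/-- size, location and diameter. -/
def Loc (m : ℕ) (C : Set E) (r : ℝ) (B : Finset E) : Prop :=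
  B.card = m ∧ (B : Set E) ⊆ C ∧ ∀ x ∈ B, ∀ y ∈ B, dist x y ≤ r

theorem dist_bary_le (A : Finset E) (hA : A.Nonempty) (r : ℝ)
    (hr : ∀ x ∈ A, ∀ y ∈ A, dist x y ≤ r) (a : E) (ha : a ∈ A) :
    dist a (bary A) ≤ (1 - 1 / (A.card : ℝ)) * r := by
  have hc : (0 : ℝ) < A.card := by exact_mod_cast hA.card_pos
  have h1 : a - bary A = ((A.card : ℝ)⁻¹) • ∑ b ∈ A, (a - b) := by
    rw [Finset.sum_sub_distrib, smul_sub, Finset.sum_const, bary]
    congr 1
    rw [← Nat.cast_smul_eq_nsmul ℝ, smul_smul, inv_mul_cancel₀ hc.ne', one_smul]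
  rw [dist_eq_norm, h1, norm_smul, norm_inv, Real.norm_natCast]
  have h2 : ‖∑ b ∈ A, (a - b)‖ ≤ (A.card - 1 : ℝ) * r := by
    rw [← Finset.add_sum_erase _ _ ha, sub_self, zero_add]
    refine (norm_sum_le _ _).trans ?_
    have : ∀ b ∈ A.erase a, ‖a - b‖ ≤ r := by
      intro b hb
      rw [← dist_eq_norm]
      exact hr a ha b (Finset.mem_of_mem_erase hb)
    refine (Finset.sum_le_card_nsmul _ _ _ this).trans ?_
    rw [Finset.card_erase_of_mem ha, nsmul_eq_mul]
    have : ((A.card - 1 : ℕ) : ℝ) = (A.card : ℝ) - 1 := by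
      rw [Nat.cast_sub hA.card_pos]; simp
    rw [this]
  calc (A.card : ℝ)⁻¹ * ‖∑ b ∈ A, (a - b)‖ ≤ (A.card : ℝ)⁻¹ * ((A.card - 1 : ℝ) * r) := by
        gcongr
    _ = (1 - 1 / (A.card : ℝ)) * r := by
        field_simp

theorem loc_sdF (n : ℕ) (r : ℝ) (A : Finset E) (hn : A.card ≤ n)
    (hr : ∀ x ∈ A, ∀ y ∈ A, dist x y ≤ r) :
    Supp (Loc A.card (convexHull ℝ (A : Set E)) ((1 - 1 / (n : ℝ)) * r)) (sdF k A) := by
  induction hm : A.card using Nat.strong_induction_on generalizing A with
  | _ m ih =>
    rcases A.eq_empty_or_nonempty with rfl | hA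
    · rw [sdF_empty]
      apply Supp.bs (P := Loc _ _ _)
      refine ⟨by simpa using hm, by simp, by simp⟩
    · have hr0 : 0 ≤ r := by
        obtain ⟨a, ha⟩ := hA
        have := hr a ha a ha
        rwa [dist_self] at this
      have hc : (0 : ℝ) < A.card := by exact_mod_cast hA.card_pos
      have hball : ∀ y ∈ convexHull ℝ (A : Set E), dist y (bary A) ≤ (1 - 1 / (n : ℝ)) * r := by
        intro y hy
        have h1 : (A : Set E) ⊆ Metric.closedBall (bary A) ((1 - 1 / (n : ℝ)) * r) := by
          intro a ha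
          rw [Metric.mem_closedBall]
          refine (dist_bary_le A hA r hr a ha).trans ?_
          apply mul_le_mul_of_nonneg_right _ hr0
          have : 1 / (n : ℝ) ≤ 1 / (A.card : ℝ) := by
            apply one_div_le_one_div_of_le hc
            exact_mod_cast hn
          linarith
        exact convexHull_min h1 (convex_closedBall _ _) hy
      have hbary : bary A ∈ convexHull ℝ (A : Set E) := by
        rw [bary]
        have := Finset.centerMass_mem_convexHull (R := ℝ) A (w := fun _ => (1 : ℝ)) (z := id)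
          (s := (A : Set E)) (fun _ _ => zero_le_one) (by simpa using hA.card_pos)
          (fun i hi => hi)
        simpa [Finset.centerMass] using this
      rw [sdF_nonempty A hA, bd_bs, map_sum]
      apply supp_cone (P := Loc (m - 1) (convexHull ℝ (A : Set E)) ((1 - 1 / (n : ℝ)) * r))
      · apply Supp.sum
        intro a ha
        rw [sd_bs]
        have hcard : (A.erase a).card = m - 1 := by
          rw [Finset.card_erase_of_mem ha, hm]
        have hlt : (A.erase a).card < A.card := Finset.card_erase_lt_of_mem ha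
        refine (ih (m - 1) (by omega) (A.erase a) (by omega)
          (fun x hx y hy => hr x (Finset.mem_of_mem_erase hx) y (Finset.mem_of_mem_erase hy))
          hcard).mono ?_
        intro B hB
        refine ⟨hB.1, hB.2.1.trans (convexHull_mono ?_), hB.2.2⟩
        exact_mod_cast Finset.erase_subset a A
      · intro B hB hx
        have hpos := hA.card_pos
        refine ⟨?_, ?_, ?_⟩
        · rw [Finset.card_insert_of_notMem hx, hB.1]; omega
        · rw [Finset.coe_insert]
          exact Set.insert_subset hbary hB.2.1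
        · intro x hx y hy
          rcases Finset.mem_insert.1 hx with rfl | hx
          · rcases Finset.mem_insert.1 hy with rfl | hy
            · exact hball _ hbary
            · rw [dist_comm]
              exact hball _ (hB.2.1 hy)
          · rcases Finset.mem_insert.1 hy with rfl | hy
            · exact hball _ (hB.2.1 hx)
            · exact hB.2.2 x hx y hy

theorem loc_sd (n m : ℕ) (hm : m ≤ n) (r : ℝ) (C : Set E) (hC : Convex ℝ C) (c : Ch k E)
    (hc : Supp (Loc m C r) c) : Supp (Loc m C ((1 - 1 / (n : ℝ)) * r)) (sd k E c) := by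
  apply hc.lin
  intro A hA
  rw [sd_bs]
  refine (loc_sdF n r A (by rw [hA.1]; exact hm) hA.2.2).mono ?_
  intro B hB
  exact ⟨hB.1.trans hA.1, hB.2.1.trans (convexHull_min hA.2.1 hC), hB.2.2⟩

variable (k E) in
/-- iterated subdivision. -/
noncomputable def sdN (N : ℕ) : Ch k E →ₗ[k] Ch k E := (sd k E) ^ N

theorem sdN_succ (N : ℕ) (c : Ch k E) : sdN k E (N + 1) c = sd k E (sdN k E N c) := by
  simp [sdN, pow_succ']

theorem sdN_zero (c : Ch k E) : sdN k E 0 c = c := by simp [sdN]

theorem bd_sdN [CharP k 2] (N : ℕ) (c : Ch k E) :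
    bd k E (sdN k E N c) = sdN k E N (bd k E c) := by
  induction N with
  | zero => simp [sdN_zero]
  | succ N ih => rw [sdN_succ, sdN_succ, bd_sd, ih]

theorem loc_sdN (n m : ℕ) (hm : m ≤ n) (r : ℝ) (C : Set E) (hC : Convex ℝ C) (c : Ch k E)
    (hc : Supp (Loc m C r) c) (N : ℕ) :
    Supp (Loc m C ((1 - 1 / (n : ℝ)) ^ N * r)) (sdN k E N c) := by
  induction N with
  | zero => simpa [sdN_zero] using hc
  | succ N ih =>
    rw [sdN_succ]
    have := loc_sd n m hm _ C hC _ ih
    rw [← mul_assoc, ← pow_succ'] at this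
    exact this

theorem sdN_empty (N : ℕ) : sdN k E N (bs k ∅) = bs k ∅ := by
  induction N with
  | zero => simp [sdN_zero]
  | succ N ih => rw [sdN_succ, ih, sd_bs, sdF_empty]

end

end Pool.Agent.H43
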