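import Pool.Agent.Lib_helper43.C2297.Subdiv

set_option autoImplicit false
set_option linter.unusedSectionVars false

open Finset

namespace Pool.Agent.H43

section
variable {k : Type*} [Field k]
variable {n : ℕ}

/-- exactness at size `m` of the complex of chains on a set `R` of finite sets with
coefficients in a system of subspaces. -/
def ExF {M : Type*} [AddCommGroup M] [Module k M] (R : Set (Finset (Fin n)))
    (F : Finset (Fin n) → Submodule k M) (m : ℕ) : Prop :=
  ∀ z : Finset (Fin n) → M, (∀ G, z G ∈ F G) → (∀ G, G ∉ R → z G = 0) →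
    (∀ G, G.card ≠ m → z G = 0) →
    (∀ H ∈ R, ∑ v ∈ Hᶜ, z (insert v H) = 0) →
    ∃ w : Finset (Fin n) → M, (∀ G, w G ∈ F G) ∧ (∀ G, G ∉ R → w G = 0) ∧
      (∀ G, G.card ≠ m + 1 → w G = 0) ∧ ∀ H ∈ R, ∑ v ∈ Hᶜ, w (insert v H) = z H

variable (k) in
/-- exactness with constant coefficients in the field. -/
def Ex (R : Set (Finset (Fin n))) (m : ℕ) : Prop :=
  ExF (k := k) (M := k) R (fun _ => ⊤) m

theorem bd_apply (c : Ch k (Fin n)) (H : Finset (Fin n)) :
    bd k (Fin n) c H = ∑ v ∈ Hᶜ, c (insert v H) := by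
  have : (Finsupp.lapply H) ∘ₗ (bd k (Fin n)) =
      ∑ v ∈ Hᶜ, (Finsupp.lapply (insert v H) : Ch k (Fin n) →ₗ[k] k) := by
    apply lin_ext
    intro A
    simp only [LinearMap.comp_apply, Finsupp.lapply_apply, LinearMap.sum_apply, bd_bs,
      Finsupp.finsetSum_apply]
    simp only [bs, Finsupp.single_apply]
    by_cases h : ∃ v ∈ Hᶜ, A = insert v H
    · obtain ⟨v, hv, rfl⟩ := h
      have hv' : v ∉ H := by simpa using hv
      rw [Finset.sum_eq_single v, Finset.sum_eq_single v]
      · simp [Finset.erase_insert hv']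
      · intro b hb hbv
        rw [if_neg]
        intro h
        have : v ∈ insert b H := by rw [← h]; simp
        rcases Finset.mem_insert.1 this with h1 | h1
        · exact hbv h1.symm
        · exact hv' h1
      · intro h; exact absurd hv h
      · intro b hb hbv
        rw [if_neg]
        intro h
        rcases Finset.mem_insert.1 hb with h1 | h1
        · exact hbv h1
        · rw [← h] at h1
          simp at h1
      · intro h; exact absurd (Finset.mem_insert_self v H) h
    · rw [Finset.sum_eq_zero, Finset.sum_eq_zero]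
      · intro v hv
        rw [if_neg]
        intro h'
        exact h ⟨v, hv, h'⟩
      · intro a ha
        rw [if_neg]
        intro h'
        apply h
        refine ⟨a, ?_, ?_⟩
        · rw [Finset.mem_compl, ← h']; simp
        · rw [← h', Finset.insert_erase ha]
  have h2 := LinearMap.congr_fun this c
  simpa [LinearMap.sum_apply] using h2

/-- the support of a point. -/
noncomputable def spt (x : Fin n → ℝ) : Finset (Fin n) := by
  classical exact univ.filter (fun j => x j ≠ 0)

theorem mem_spt (x : Fin n → ℝ) (j : Fin n) : j ∈ spt x ↔ x j ≠ 0 := by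
  simp [spt]

/-- the geometric realization. -/
def Geo (K : Set (Finset (Fin n))) : Set (Fin n → ℝ) :=
  {x | (∀ j, 0 ≤ x j) ∧ ∑ j, x j = 1 ∧ spt x ∈ K}

/-- closed geometric faces. -/
def Fac (G : Finset (Fin n)) : Set (Fin n → ℝ) :=
  {x | (∀ j, 0 ≤ x j) ∧ ∑ j, x j = 1 ∧ ∀ j, j ∉ G → x j = 0}

/-- down-closed families. -/
def Down (K : Set (Finset (Fin n))) : Prop := ∀ G ∈ K, ∀ H, H ⊆ G → H ∈ K

theorem spt_subset_of_fac {G : Finset (Fin n)} {x : Fin n → ℝ} (hx : x ∈ Fac G) :
    spt x ⊆ G := by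
  intro j hj
  rw [mem_spt] at hj
  by_contra h
  exact hj (hx.2.2 j h)

theorem fac_subset_geo {K : Set (Finset (Fin n))} (hK : Down K) {G : Finset (Fin n)}
    (hG : G ∈ K) : Fac G ⊆ Geo K := by
  intro x hx
  exact ⟨hx.1, hx.2.1, hK G hG _ (spt_subset_of_fac hx)⟩

theorem convex_fac (G : Finset (Fin n)) : Convex ℝ (Fac G) := by
  intro x hx y hy a b ha hb hab
  refine ⟨?_, ?_, ?_⟩
  · intro j
    have h1 := mul_nonneg ha (hx.1 j)
    have h2 := mul_nonneg hb (hy.1 j)
    simp only [Pi.add_apply, Pi.smul_apply, smul_eq_mul]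
    linarith
  · simp only [Pi.add_apply, Pi.smul_apply, smul_eq_mul]
    rw [Finset.sum_add_distrib, ← Finset.mul_sum, ← Finset.mul_sum, hx.2.1, hy.2.1]
    linarith
  · intro j hj
    simp [hx.2.2 j hj, hy.2.2 j hj]

theorem isClosed_fac (G : Finset (Fin n)) : IsClosed (Fac G) := by
  have h1 : IsClosed {x : Fin n → ℝ | ∀ j, 0 ≤ x j} := by
    rw [Set.ofPred_forall]
    exact isClosed_iInter (fun j => isClosed_le continuous_const (continuous_apply j))
  have h2 : IsClosed {x : Fin n → ℝ | ∑ j, x j = 1} :=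
    isClosed_eq (continuous_finsetSum _ (fun j _ => continuous_apply j)) continuous_const
  have h3 : IsClosed {x : Fin n → ℝ | ∀ j, j ∉ G → x j = 0} := by
    rw [Set.ofPred_forall]
    refine isClosed_iInter (fun j => ?_)
    by_cases h : j ∉ G
    · simp only [h, not_false_eq_true, forall_const]
      exact isClosed_eq (continuous_apply j) continuous_const
    · simp [h]
  exact h1.inter (h2.inter h3)

theorem isCompact_fac (G : Finset (Fin n)) : IsCompact (Fac G) := by
  apply Metric.isCompact_of_isClosed_isBounded (isClosed_fac G)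
  refine (Metric.isBounded_closedBall (x := (0 : Fin n → ℝ)) (r := 1)).subset ?_
  intro x hx
  rw [Metric.mem_closedBall, dist_zero_right, pi_norm_le_iff_of_nonneg zero_le_one]
  intro j
  rw [Real.norm_of_nonneg (hx.1 j), ← hx.2.1]
  exact Finset.single_le_sum (fun i _ => hx.1 i) (Finset.mem_univ j)

theorem geo_eq {K : Set (Finset (Fin n))} (hK : Down K) : Geo K = ⋃ G ∈ K, Fac G := by
  ext x
  simp only [Set.mem_iUnion]
  constructor
  · intro hx
    refine ⟨spt x, hx.2.2, hx.1, hx.2.1, ?_⟩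
    intro j hj
    rw [mem_spt, not_not] at hj
    exact hj
  · rintro ⟨G, hG, hx⟩
    exact fac_subset_geo hK hG hx

theorem isCompact_geo {K : Set (Finset (Fin n))} (hK : Down K) : IsCompact (Geo K) := by
  rw [geo_eq hK]
  exact (Set.toFinite K).isCompact_biUnion (fun G _ => isCompact_fac G)

theorem geo_mono {K L : Set (Finset (Fin n))} (h : L ⊆ K) : Geo L ⊆ Geo K :=
  fun _ hx => ⟨hx.1, hx.2.1, h hx.2.2⟩

/-- a coordinate of maximal value. -/
noncomputable def am [Nonempty (Fin n)] (x : Fin n → ℝ) : Fin n :=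
  (Finite.exists_max x).choose

theorem le_am [Nonempty (Fin n)] (x : Fin n → ℝ) (j : Fin n) : x j ≤ x (am x) :=
  (Finite.exists_max x).choose_spec j

theorem am_ge [Nonempty (Fin n)] (x : Fin n → ℝ) (hx : ∑ j, x j = 1) :
    1 / (n : ℝ) ≤ x (am x) := by
  have h1 : ∑ j, x j ≤ ∑ _j : Fin n, x (am x) := Finset.sum_le_sum (fun j _ => le_am x j)
  rw [hx, Finset.sum_const, Finset.card_univ, Fintype.card_fin, nsmul_eq_mul] at h1
  have hn : (0 : ℝ) < n := by
    have : 0 < n := Fin.pos_iff_nonempty.2 inferInstance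
    exact_mod_cast this
  rw [div_le_iff₀ hn]
  linarith

theorem am_mem_of_dist [Nonempty (Fin n)] {x y : Fin n → ℝ} (hx : ∑ j, x j = 1)
    (h : dist x y < 1 / (n : ℝ)) : am x ∈ spt y := by
  rw [mem_spt]
  have h1 := am_ge x hx
  have h2 : dist (x (am x)) (y (am x)) ≤ dist x y := dist_le_pi_dist x y (am x)
  rw [Real.dist_eq] at h2
  have h3 := (abs_le.1 h2).2
  intro h4
  rw [h4] at h3
  linarith

theorem am_mem_spt [Nonempty (Fin n)] {x : Fin n → ℝ} (hx : ∑ j, x j = 1) :
    am x ∈ spt x := by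
  apply am_mem_of_dist hx
  rw [dist_self]
  have : 0 < n := Fin.pos_iff_nonempty.2 inferInstance
  positivity

/-- vertices of the standard simplex. -/
noncomputable def vx (v : Fin n) : Fin n → ℝ := Pi.single v 1

theorem vx_inj : Function.Injective (vx : Fin n → Fin n → ℝ) := by
  intro a b h
  by_contra hab
  have := congrFun h a
  simp [vx, Pi.single_apply, hab] at this

theorem vx_mem_fac {G : Finset (Fin n)} {v : Fin n} (hv : v ∈ G) : vx v ∈ Fac G := by
  refine ⟨?_, ?_, ?_⟩
  · intro j
    by_cases h : j = v <;> simp [vx, Pi.single_apply, h]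
  · simp [vx]
  · intro j hj
    have : j ≠ v := fun h => hj (h ▸ hv)
    simp [vx, Pi.single_apply, this]

theorem dist_vx (u v : Fin n) : dist (vx u) (vx v) ≤ 1 := by
  rw [dist_pi_le_iff zero_le_one]
  intro j
  rw [Real.dist_eq]
  simp only [vx, Pi.single_apply]
  split_ifs <;> simp

open Classical in
theorem loc_vx (G : Finset (Fin n)) (N : ℕ) :
    Supp (Loc G.card (Fac G) ((1 - 1 / ((n + 1 : ℕ) : ℝ)) ^ N * 1))
      (sdN k (Fin n → ℝ) N (mp k vx (bs k G))) := by
  rw [mp_bs]
  have hc : (G.image vx).card = G.card := Finset.card_image_of_injective _ vx_inj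
  rw [if_pos hc]
  apply loc_sdN (n + 1) G.card _ 1 (Fac G) (convex_fac G)
  · apply Supp.bs (P := Loc _ _ _)
    refine ⟨hc, ?_, ?_⟩
    · intro x hx
      simp only [Finset.coe_image, Set.mem_image] at hx
      obtain ⟨v, hv, rfl⟩ := hx
      exact vx_mem_fac hv
    · intro x hx y hy
      simp only [Finset.mem_image] at hx hy
      obtain ⟨u, _, rfl⟩ := hx
      obtain ⟨v, _, rfl⟩ := hy
      exact dist_vx u v
  · have : G.card ≤ n := by simpa using G.card_le_univ
    omega

open Classical in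
theorem topLemma [CharP k 2] (K L : Set (Finset (Fin n))) (hK : Down K) (hL : Down L)
    (hLK : L ⊆ K) (h0 : ∅ ∈ L)
    (h : ℝ × (Fin n → ℝ) → (Fin n → ℝ))
    (hc : ContinuousOn h (Set.Icc 0 1 ×ˢ Geo K))
    (h1 : ∀ t ∈ Set.Icc (0:ℝ) 1, ∀ x ∈ Geo K, h (t, x) ∈ Geo K)
    (h2 : ∀ t ∈ Set.Icc (0:ℝ) 1, ∀ x ∈ Geo L, h (t, x) ∈ Geo L)
    (h3 : ∀ x ∈ Geo K, spt (h (0, x)) ⊆ spt x)
    (h4 : ∀ x ∈ Geo K, h (1, x) ∈ Geo L) (m : ℕ) : Ex k (K \ L) m := by
  intro z _ hzR hzm hzc
  -- trivial case: no vertices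
  rcases Nat.eq_zero_or_pos n with hn0 | hnpos
  · subst hn0
    refine ⟨fun _ => 0, fun _ => Submodule.zero_mem _, fun _ _ => rfl, fun _ _ => rfl, ?_⟩
    intro H hH
    have : H = ∅ := Finset.eq_empty_of_isEmpty H
    exact absurd (this ▸ h0) hH.2
  have : Nonempty (Fin n) := Fin.pos_iff_nonempty.1 hnpos
  have hnR : (0 : ℝ) < n := by exact_mod_cast hnpos
  -- uniform continuity
  have hcomp : IsCompact (Set.Icc (0:ℝ) 1 ×ˢ Geo K) := isCompact_Icc.prod (isCompact_geo hK)
  have huc := hcomp.uniformContinuousOn_of_continuous hc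
  rw [Metric.uniformContinuousOn_iff] at huc
  obtain ⟨δ, hδ, hunif⟩ := huc (1 / (n : ℝ)) (by positivity)
  obtain ⟨q, hq⟩ := exists_nat_one_div_lt hδ
  set Q : ℕ := q + 1 with hQdef
  have hQpos : (0 : ℝ) < Q := by positivity
  have hQ : 1 / (Q : ℝ) < δ := by rw [hQdef]; exact_mod_cast hq
  obtain ⟨N, hN⟩ : ∃ N : ℕ, (1 - 1 / ((n + 1 : ℕ) : ℝ)) ^ N < δ := by
    apply exists_pow_lt_of_lt_one hδ
    have : (0 : ℝ) < ((n + 1 : ℕ) : ℝ) := by positivity
    have := one_div_pos.2 this
    linarith
  set zc : Ch k (Fin n) := Finsupp.equivFunOnFinite.symm z with hzcdef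
  have hzapp : ∀ G, zc G = z G := fun G => rfl
  have hzK : Supp (fun G => G ∈ K) zc := by
    intro G hG
    rw [hzapp]
    exact hzR G (fun h => hG h.1)
  have hzL : Supp (fun G => G ∈ L) (bd k (Fin n) zc) := by
    intro H hH
    rw [bd_apply]
    simp only [hzapp]
    by_cases hHK : H ∈ K
    · exact hzc H ⟨hHK, hH⟩
    · apply Finset.sum_eq_zero
      intro v _
      apply hzR
      intro h
      exact hHK (hK _ h.1 _ (Finset.subset_insert v H))
  -- the simplicial approximations
  let f : ℕ → (Fin n → ℝ) → Fin n := fun j x => am (h ((j : ℝ) / Q, x))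
  have hIcc : ∀ j : ℕ, j ≤ Q → (j : ℝ) / Q ∈ Set.Icc (0 : ℝ) 1 := by
    intro j hj
    refine ⟨by positivity, ?_⟩
    rw [div_le_one hQpos]
    exact_mod_cast hj
  -- small sets in a face
  let P : Set (Finset (Fin n)) → Finset (Fin n → ℝ) → Prop := fun J A =>
    (∃ G ∈ J, (A : Set (Fin n → ℝ)) ⊆ Fac G) ∧ ∀ x ∈ A, ∀ y ∈ A, dist x y < δ
  have hP : ∀ J : Set (Finset (Fin n)), ∀ c : Ch k (Fin n), Supp (fun G => G ∈ J) c →
      Supp (P J) (sdN k (Fin n → ℝ) N (mp k vx c)) := by
    intro J c hcJ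
    refine hcJ.lin ((sdN k (Fin n → ℝ) N) ∘ₗ (mp k vx)) ?_
    intro G hG
    refine (loc_vx (k := k) G N).mono ?_
    intro A hA
    refine ⟨⟨G, hG, hA.2.1⟩, ?_⟩
    intro x hx y hy
    have := hA.2.2 x hx y hy
    rw [mul_one] at this
    exact this.trans_lt hN
  -- the union of two consecutive images is a face
  have hface : ∀ J : Set (Finset (Fin n)), Down J → J ⊆ K → ∅ ∈ J →
      (∀ t ∈ Set.Icc (0:ℝ) 1, ∀ x ∈ Geo J, h (t, x) ∈ Geo J) →
      ∀ A, P J A → ∀ j, j < Q → A.image (f j) ∪ A.image (f (j + 1)) ∈ J := by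
    intro J hJ hJK hJ0 hJh A hA j hj
    rcases A.eq_empty_or_nonempty with rfl | ⟨x0, hx0⟩
    · simpa using hJ0
    · obtain ⟨⟨G, hG, hAG⟩, hAd⟩ := hA
      have hgeo : ∀ x ∈ A, x ∈ Geo J := fun x hx => fac_subset_geo hJ hG (hAG hx)
      refine hJ _ (hJh _ (hIcc j hj.le) x0 (hgeo x0 hx0)).2.2 _ ?_
      have key : ∀ x ∈ A, ∀ i, (i = j ∨ i = j + 1) → f i x ∈ spt (h ((j : ℝ) / Q, x0)) := by
        intro x hx i hi
        have hi' : i ≤ Q := by omega
        apply am_mem_of_dist (h1 _ (hIcc i hi') x (geo_mono hJK (hgeo x hx))).2.1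
        apply hunif
        · exact ⟨hIcc i hi', geo_mono hJK (hgeo x hx)⟩
        · exact ⟨hIcc j hj.le, geo_mono hJK (hgeo x0 hx0)⟩
        · rw [Prod.dist_eq]
          apply max_lt
          · rw [Real.dist_eq]
            rcases hi with rfl | rfl
            · simpa using hδ
            · push_cast
              have : ((j : ℝ) + 1) / Q - (j : ℝ) / Q = 1 / Q := by ring
              rw [this, abs_of_pos (by positivity)]
              exact hQ
          · exact hAd x hx x0 hx0
      intro v hv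
      rcases Finset.mem_union.1 hv with hv | hv
      · obtain ⟨x, hx, rfl⟩ := Finset.mem_image.1 hv
        exact key x hx j (Or.inl rfl)
      · obtain ⟨x, hx, rfl⟩ := Finset.mem_image.1 hv
        exact key x hx (j + 1) (Or.inr rfl)
  set y : Ch k (Fin n → ℝ) := sdN k (Fin n → ℝ) N (mp k vx zc) with hy
  have hyK : Supp (P K) y := hP K zc hzK
  have hyL : Supp (P L) (bd k _ y) := by
    rw [hy, bd_sdN, bd_mp]
    exact hP L _ hzL
  -- f 0 gives back z
  have hf0 : mp k (f 0) y = zc := by
    have : ∀ G, G ∈ K → ((mp k (f 0)) ∘ₗ (sdN k (Fin n → ℝ) N) ∘ₗ (mp k vx)) (bs k G)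
        = bs k G := by
      apply carried_id
      · intro c
        simp only [LinearMap.comp_apply]
        rw [bd_mp, bd_sdN, bd_mp]
      · intro A hA a _
        exact hK A hA _ (Finset.erase_subset a A)
      · simp only [LinearMap.comp_apply]
        rw [mp_bs]
        simp only [Finset.image_empty, Finset.card_empty, if_true]
        rw [sdN_empty, mp_bs]
        simp
      · intro A hA
        simp only [LinearMap.comp_apply]
        refine (loc_vx (k := k) A N).lin (mp k (f 0)) ?_
        intro B hB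
        rw [mp_bs]
        split_ifs with hcard
        · apply Supp.bs (P := fun B => B ⊆ A ∧ B.card = A.card)
          refine ⟨?_, hcard.trans hB.1⟩
          intro v hv
          obtain ⟨x, hx, rfl⟩ := Finset.mem_image.1 hv
          have hxF := hB.2.1 hx
          have hxK := fac_subset_geo hK hA hxF
          apply spt_subset_of_fac hxF
          apply h3 x hxK
          have h0I : (0 : ℝ) ∈ Set.Icc (0 : ℝ) 1 := by simp
          have := am_mem_spt (h1 0 h0I x hxK).2.1
          simpa [f] using this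
        · exact Supp.zero
    have h5 := hzK.congr ((mp k (f 0)) ∘ₗ (sdN k (Fin n → ℝ) N) ∘ₗ (mp k vx)) LinearMap.id
      (fun A hA => by rw [this A hA]; rfl)
    simpa [hy] using h5
  have hfQ : Supp (fun G => G ∈ L) (mp k (f Q) y) := by
    apply hyK.lin
    intro A hA
    rw [mp_bs]
    split_ifs with hcard
    · apply Supp.bs (P := fun G => G ∈ L)
      rcases A.eq_empty_or_nonempty with rfl | ⟨x0, hx0⟩
      · simpa using h0
      · obtain ⟨⟨G, hG, hAG⟩, hAd⟩ := hA
        have hgeo : ∀ x ∈ A, x ∈ Geo K := fun x hx => fac_subset_geo hK hG (hAG hx)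
        have hQ1 : (Q : ℝ) / Q = 1 := div_self hQpos.ne'
        have h1I : (1 : ℝ) ∈ Set.Icc (0 : ℝ) 1 := by simp
        refine hL _ (h4 x0 (hgeo x0 hx0)).2.2 _ ?_
        intro v hv
        obtain ⟨x, hx, rfl⟩ := Finset.mem_image.1 hv
        simp only [f, hQ1]
        apply am_mem_of_dist (h4 x (hgeo x hx)).2.1
        apply hunif
        · exact ⟨h1I, hgeo x hx⟩
        · exact ⟨h1I, hgeo x0 hx0⟩
        · rw [Prod.dist_eq]
          apply max_lt
          · simpa using hδ
          · exact hAd x hx x0 hx0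
    · exact Supp.zero
  -- the total homotopy
  set w : Ch k (Fin n) := ∑ j ∈ Finset.range Q, prL k (f j) (f (j + 1)) y with hw
  have hwK : Supp (fun G => G ∈ K) w := by
    apply Supp.sum
    intro j hj
    apply hyK.lin
    intro A hA
    rw [prL_bs]
    refine (supp_pr (k := k) (f j) (f (j + 1)) A).mono ?_
    intro B hB
    exact hK _ (hface K hK subset_rfl (hLK h0) h1 A hA j (Finset.mem_range.1 hj)) B hB
  have hrest : Supp (fun G => G ∈ L) (∑ j ∈ Finset.range Q, prL k (f j) (f (j + 1)) (bd k _ y)) := by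
    apply Supp.sum
    intro j hj
    apply hyL.lin
    intro A hA
    rw [prL_bs]
    refine (supp_pr (k := k) (f j) (f (j + 1)) A).mono ?_
    intro B hB
    exact hL _ (hface L hL hLK h0 h2 A hA j (Finset.mem_range.1 hj)) B hB
  have htel : ∀ R : ℕ, ∑ j ∈ Finset.range R, (mp k (f j) y + mp k (f (j + 1)) y) =
      mp k (f 0) y + mp k (f R) y := by
    intro R
    induction R with
    | zero => simp [dbl (k := k)]
    | succ R ih =>
      rw [Finset.sum_range_succ, ih]
      have := dbl (k := k) _ (mp k (f R) y)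
      calc mp k (f 0) y + mp k (f R) y + (mp k (f R) y + mp k (f (R + 1)) y)
          = mp k (f 0) y + (mp k (f R) y + mp k (f R) y) + mp k (f (R + 1)) y := by abel
        _ = _ := by rw [this, add_zero]
  have hbdw : bd k _ w = zc + mp k (f Q) y +
      ∑ j ∈ Finset.range Q, prL k (f j) (f (j + 1)) (bd k _ y) := by
    rw [hw, map_sum]
    simp only [bd_prL]
    rw [Finset.sum_add_distrib, htel, hf0]
  have hfinal : ∀ H, H ∉ L → bd k _ w H = z H := by
    intro H hH
    rw [hbdw]
    simp only [Finsupp.add_apply]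
    rw [hfQ H hH, hrest H hH, hzapp]
    simp
  refine ⟨fun G => if G ∈ K \ L ∧ G.card = m + 1 then w G else 0, fun _ => Submodule.mem_top,
    ?_, ?_, ?_⟩
  · intro G hG
    exact if_neg (fun h => hG h.1)
  · intro G hG
    exact if_neg (fun h => hG h.2)
  · intro H hH
    simp only
    by_cases hHm : H.card = m
    · rw [← hfinal H hH.2, bd_apply]
      apply Finset.sum_congr rfl
      intro v hv
      have hvH : v ∉ H := by simpa using hv
      have hcard : (insert v H).card = m + 1 := by
        rw [Finset.card_insert_of_notMem hvH, hHm]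
      by_cases hvK : insert v H ∈ K
      · rw [if_pos]
        refine ⟨⟨hvK, ?_⟩, hcard⟩
        intro hvL
        exact hH.2 (hL _ hvL _ (Finset.subset_insert v H))
      · rw [if_neg (fun h => hvK h.1.1), hwK _ hvK]
    · rw [hzm H hHm]
      apply Finset.sum_eq_zero
      intro v hv
      have hvH : v ∉ H := by simpa using hv
      rw [if_neg]
      rintro ⟨_, hcard⟩
      rw [Finset.card_insert_of_notMem hvH] at hcard
      exact hHm (by omega)

end

end Pool.Agent.H43
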